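import Pool.Agent.H61.RRk.Defs
import Pool.Graph.R_seed8.R91.RR.St2b
import Pool.Graph.R_seed8.R861.RRSt1a
import Pool.Graph.R_seed8.R49.RR.StT

/-! MP_7a141f_an with parameters: pieces `StT`, `St1`, `St2`. -/

set_option autoImplicit false

namespace Pool.Agent.H61.RRk

open Filter Topology

set_option linter.unusedSectionVars false

variable [Par]

theorem stT : StT := by
  intro y z hy hz n
  have hB := B_pos
  have hyn : 0 < B + y n := by have := hy.pos n; linarith
  have hyn2 : 0 < B + y (n + 2) := by have := hy.pos (n + 2); linarith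
  have hzn : 0 < B + z n := by have := hz.pos n; linarith
  have hzn2 : 0 < B + z (n + 2) := by have := hz.pos (n + 2); linarith
  have ey : Real.log (y (n + 3)) = Real.log (B + y (n + 2)) - Real.log (B + y n) := by
    rw [hy.step n, Real.log_div hyn2.ne' hyn.ne']
  have ez : Real.log (z (n + 3)) = Real.log (B + z (n + 2)) - Real.log (B + z n) := by
    rw [hz.step n, Real.log_div hzn2.ne' hzn.ne']
  have e : rho y z (n + 2) - rho y z n = Real.log (z (n + 3)) - Real.log (y (n + 3)) := by
    unfold rho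
    rw [ey, ez]
    ring
  rw [e]
  unfold rho th
  rcases lt_trichotomy (y (n + 3)) (z (n + 3)) with h | h | h
  · obtain ⟨θ, h1, h2, h3⟩ := Pool.Agent.R49.RR.mvt hB (hy.pos _) h
    exact ⟨θ, (min_le_left _ _).trans h1, h2.trans (le_max_right _ _), h3⟩
  · refine ⟨y (n + 3) / (B + y (n + 3)), min_le_left _ _, le_max_left _ _, ?_⟩
    rw [h]
    ring
  · obtain ⟨θ, h1, h2, h3⟩ := Pool.Agent.R49.RR.mvt hB (hz.pos _) h
    refine ⟨θ, (min_le_right _ _).trans h1, h2.trans (le_max_left _ _), ?_⟩
    linarith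

theorem B_small : 64 * B ≤ 1 := by
  have h1 := B_le
  have h2 := qn_anti (show 6 ≤ 1664 by norm_num)
  have h3 := qn_le' 6
  norm_num at h3
  linarith

/-- the function `t ↦ log (B + e^t) - t` is Lipschitz with constant `1/65` where `e^t ≥ 64 B` -/
theorem h_lip (t : ℝ) (ht : 64 * B ≤ Real.exp t) :
    |(Real.log (B + Real.exp t) - t) - Real.log (B + 1)| ≤ 1 / 65 * |t| := by
  have hB := B_pos
  have h0 : (0 : ℝ) ∈ {s : ℝ | Real.log (64 * B) ≤ s} := by
    show Real.log (64 * B) ≤ 0
    exact Real.log_nonpos (by positivity) B_small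
  have h1 : t ∈ {s : ℝ | Real.log (64 * B) ≤ s} := by
    show Real.log (64 * B) ≤ t
    rw [Real.log_le_iff_le_exp (by positivity)]
    exact ht
  have hconv : Convex ℝ {s : ℝ | Real.log (64 * B) ≤ s} := convex_Ici _
  have hd : ∀ s ∈ {s : ℝ | Real.log (64 * B) ≤ s},
      HasDerivWithinAt (fun s => Real.log (B + Real.exp s) - s) (Real.exp s / (B + Real.exp s) - 1)
        {s : ℝ | Real.log (64 * B) ≤ s} s := by
    intro s _
    have hpos : 0 < B + Real.exp s := by positivity
    have h2 : HasDerivAt (fun s => B + Real.exp s) (Real.exp s) s := (Real.hasDerivAt_exp s).const_add B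
    exact ((h2.log hpos.ne').sub (hasDerivAt_id s)).hasDerivWithinAt
  have hb : ∀ s ∈ {s : ℝ | Real.log (64 * B) ≤ s}, ‖Real.exp s / (B + Real.exp s) - 1‖ ≤ 1 / 65 := by
    intro s hs
    have hs' : 64 * B ≤ Real.exp s := by
      have : Real.log (64 * B) ≤ s := hs
      rwa [Real.log_le_iff_le_exp (by positivity)] at this
    have hpos : 0 < B + Real.exp s := by positivity
    have e : Real.exp s / (B + Real.exp s) - 1 = -(B / (B + Real.exp s)) := by
      field_simp
      ring
    rw [e, Real.norm_eq_abs, abs_neg, abs_of_nonneg (by positivity), div_le_div_iff₀ hpos (by norm_num)]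
    linarith
  have := hconv.norm_image_sub_le_of_norm_hasDerivWithin_le hd hb h0 h1
  simp only [Real.exp_zero, sub_zero, Real.norm_eq_abs] at this
  exact this

theorem st1 : St1 := by
  have h : Pool.Agent.R993.RR.St1a := Pool.Agent.R861.RR.st1a
  intro y hy h64
  have hB := B_pos
  obtain ⟨u, hu⟩ : ∃ u : ℕ → ℝ, ∀ n, u n = B + y n := ⟨_, fun _ => rfl⟩
  have hupos : ∀ n, 0 < u n := fun n => by rw [hu]; exact add_pos hB (hy.pos n)
  have huB : ∀ n, B ≤ u n := fun n => by rw [hu]; linarith [hy.pos n]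
  have hstep : ∀ n, y (n + 3) = u (n + 2) / u n := fun n => by rw [hy.step n, hu, hu]
  have hustep : ∀ n, u (n + 3) = B + u (n + 2) / u n := fun n => by rw [hu, hstep]
  -- boundedness
  have hK : ∃ K, ∀ n, u n ≤ K := by
    refine ⟨∑ i ∈ Finset.range 5, u i + (B + 1 + 1 / B + 1 / (B * B)), fun n => ?_⟩
    have hM : 0 < B + 1 + 1 / B + 1 / (B * B) := by positivity
    rcases lt_or_ge n 5 with hn | hn
    · have := Finset.single_le_sum (f := u) (fun i _ => (hupos i).le) (Finset.mem_range.2 hn)
      linarith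
    · obtain ⟨m, rfl⟩ := Nat.exists_eq_add_of_le hn
      have e1 : u (m + 5) = B + u (m + 4) / u (m + 2) := hustep (m + 2)
      have e2 : u (m + 4) = B + u (m + 3) / u (m + 1) := hustep (m + 1)
      have e3 : u (m + 3) = B + u (m + 2) / u m := hustep m
      have p0 := hupos m
      have p1 := hupos (m + 1)
      have p2 := hupos (m + 2)
      have e4 : u (5 + m) = B + B / u (m + 2) + B / (u (m + 1) * u (m + 2)) + 1 / (u m * u (m + 1)) := by
        rw [add_comm 5 m, e1, e2, e3]
        field_simp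
        ring
      have f1 : B / u (m + 2) ≤ 1 := by
        rw [div_le_one p2]; exact huB _
      have f2 : B / (u (m + 1) * u (m + 2)) ≤ 1 / B := by
        rw [div_le_div_iff₀ (by positivity) hB]
        have := mul_le_mul (huB (m + 1)) (huB (m + 2)) hB.le p1.le
        linarith
      have f3 : 1 / (u m * u (m + 1)) ≤ 1 / (B * B) := by
        refine one_div_le_one_div_of_le (by positivity) ?_
        exact mul_le_mul (huB m) (huB (m + 1)) hB.le p0.le
      have f4 : 0 ≤ ∑ i ∈ Finset.range 5, u i := Finset.sum_nonneg fun i _ => (hupos i).le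
      rw [e4]
      linarith
  obtain ⟨K, hK⟩ := hK
  obtain ⟨R, hR⟩ : ∃ R : ℕ → ℝ, ∀ n, R n = Real.log (u n) - Real.log (B + 1) := ⟨_, fun _ => rfl⟩
  have hRb : ∃ M, ∀ n, |R n| ≤ M := by
    refine ⟨|Real.log B| + |Real.log K| + |Real.log (B + 1)|, fun n => ?_⟩
    have h1 : Real.log B ≤ Real.log (u n) := Real.log_le_log hB (huB n)
    have h2 : Real.log (u n) ≤ Real.log K := Real.log_le_log (hupos n) (hK n)
    have h3 : |Real.log (u n)| ≤ |Real.log B| + |Real.log K| := by
      rw [abs_le]
      constructor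
      · linarith [neg_abs_le (Real.log B), abs_nonneg (Real.log K)]
      · linarith [le_abs_self (Real.log K), abs_nonneg (Real.log B)]
    rw [hR]
    linarith [abs_sub (Real.log (u n)) (Real.log (B + 1))]
  have hRs : ∀ n, |R (n + 3) - (R (n + 2) - R n)| ≤ 1 / 65 * |R (n + 2) - R n| := by
    intro n
    have ht : Real.exp (R (n + 2) - R n) = y (n + 3) := by
      rw [hR, hR, hstep]
      have e : Real.log (u (n + 2)) - Real.log (B + 1) - (Real.log (u n) - Real.log (B + 1)) =
          Real.log (u (n + 2)) - Real.log (u n) := by ring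
      rw [e, Real.exp_sub, Real.exp_log (hupos _), Real.exp_log (hupos _)]
    have h1 := h_lip (R (n + 2) - R n) (by rw [ht]; exact h64 _)
    rw [ht, ← hu] at h1
    have e2 : R (n + 3) - (R (n + 2) - R n) =
        Real.log (u (n + 3)) - (R (n + 2) - R n) - Real.log (B + 1) := by
      rw [hR (n + 3)]
      ring
    rw [e2]
    exact h1
  have hlim := h R hRb hRs
  have h2 : Tendsto (fun n => (B + 1) * Real.exp (R n) - B) atTop (𝓝 ((B + 1) * Real.exp 0 - B)) :=
    ((Real.continuous_exp.tendsto 0).comp hlim |>.const_mul (B + 1)).sub_const B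
  have e3 : (B + 1) * Real.exp 0 - B = 1 := by
    rw [Real.exp_zero]; ring
  rw [e3] at h2
  refine h2.congr fun n => ?_
  rw [hR, Real.exp_sub, Real.exp_log (hupos n), Real.exp_log (by positivity), hu]
  field_simp
  ring


theorem st2 : St2 := by
  intro y hy h2
  have hB := B_pos
  have hu : ∀ n, 0 < B + y n := fun n => add_pos hB (hy.pos n)
  -- the binary logarithm of `1 / B`
  obtain ⟨L, hL⟩ : ∃ L : ℝ, L = -Real.logb 2 B := ⟨_, rfl⟩
  obtain ⟨E, hE⟩ : ∃ E : ℝ, E = 2 ^ Par.k := ⟨_, rfl⟩
  have hE1 : 1 ≤ E := by rw [hE]; exact one_le_pow₀ (by norm_num)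
  have hqE : ∀ n : ℕ, Real.logb 2 (q ^ n) = -(n * E) := by
    intro n
    rw [q_pow, one_div, Real.logb_inv, Real.logb_pow, Real.logb_self_eq_one (by norm_num), hE]
    push_cast
    ring
  have hLE : 1664 * E ≤ L := by
    have h1 := Real.logb_le_logb_of_le (b := 2) (by norm_num) hB B_le
    rw [hqE] at h1
    push_cast at h1
    linarith
  have hL0 : 1664 ≤ L := by linarith
  obtain ⟨s, hs⟩ : ∃ s : ℝ, s = 1664 / L := ⟨_, rfl⟩
  have hLpos : 0 < L := by linarith
  have hs0 : 0 < s := by rw [hs]; positivity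
  have hs1 : s ≤ 1 := by rw [hs, div_le_one hLpos]; exact hL0
  have hsL : s * L = 1664 := by rw [hs]; field_simp
  set l : ℕ → ℝ := fun n => Real.logb 2 (B + y n) with hl
  have hdiff : ∀ n, l (n + 2) - l n = Real.logb 2 (y (n + 3)) := by
    intro n
    rw [hy.step n, Real.logb_div (hu _).ne' (hu _).ne']
  have hlB : Real.logb 2 B = -L := by rw [hL]; ring
  have c1 : ∀ n, -L ≤ l n := by
    intro n
    rw [← hlB]
    exact Real.logb_le_logb_of_le (by norm_num) hB (by linarith [hy.pos n])
  have c2 : l 2 ≤ -L + 7 := by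
    have h1 : Real.logb 2 (B + y 2) ≤ Real.logb 2 (2 ^ 7 * B) := by
      refine Real.logb_le_logb_of_le (by norm_num) (hu 2) ?_
      norm_num
      linarith
    rw [Real.logb_mul (by norm_num) hB.ne', Real.logb_pow, Real.logb_self_eq_one (by norm_num),
      hlB] at h1
    change Real.logb 2 (B + y 2) ≤ -L + 7
    push_cast at h1
    linarith
  have c3 : ∀ n, l (n + 2) - l n ≤ l (n + 3) := by
    intro n
    rw [hdiff]
    exact Real.logb_le_logb_of_le (by norm_num) (hy.pos _) (by linarith)
  have c4 : ∀ n, l (n + 3) ≤ max (-L) (l (n + 2) - l n) + 1 := by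
    intro n
    rw [hdiff, ← hlB]
    have h1 : (1 : ℝ) = Real.logb 2 2 := (Real.logb_self_eq_one (by norm_num)).symm
    rcases le_total B (y (n + 3)) with hc | hc
    · rw [max_eq_right (Real.logb_le_logb_of_le (by norm_num) hB hc), h1,
        ← Real.logb_mul (hy.pos _).ne' (by norm_num)]
      exact Real.logb_le_logb_of_le (by norm_num) (hu _) (by linarith)
    · rw [max_eq_left (Real.logb_le_logb_of_le (by norm_num) (hy.pos _) hc), h1,
        ← Real.logb_mul hB.ne' (by norm_num)]
      exact Real.logb_le_logb_of_le (by norm_num) (hu _) (by linarith)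
  obtain ⟨N, n1, n2, -⟩ := Pool.Agent.R993.RR.st2b (fun n => s * l n)
    (fun n => by
      have := mul_le_mul_of_nonneg_left (c1 n) hs0.le
      show -1664 ≤ s * l n
      linarith)
    (by
      have := mul_le_mul_of_nonneg_left c2 hs0.le
      show s * l 2 ≤ -1657
      linarith)
    (fun n => by
      have := mul_le_mul_of_nonneg_left (c3 n) hs0.le
      show s * l (n + 2) - s * l n ≤ s * l (n + 3)
      linarith)
    (fun n => by
      show s * l (n + 3) ≤ max (-1664) (s * l (n + 2) - s * l n) + 1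
      have h1 := mul_le_mul_of_nonneg_left (c4 n) hs0.le
      have h2 : s * (max (-L) (l (n + 2) - l n) + 1) =
          max (-1664) (s * l (n + 2) - s * l n) + s := by
        rw [mul_add, mul_max_of_nonneg _ _ hs0.le, mul_sub, mul_neg, hsL, mul_one]
      linarith)
  have hfin : ∀ M, s * l (M + 2) - s * l M ≤ -1864 → l (M + 2) - l M ≤ -L - 200 * E := by
    intro M hM
    have h1 : s * (l (M + 2) - l M) ≤ s * (-L - 200 * E) := by
      have h2 : s * (200 * E) ≤ 200 := by
        have h3 : s * (1664 * E) ≤ s * L := mul_le_mul_of_nonneg_left hLE hs0.le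
        linarith
      linarith
    exact le_of_mul_le_mul_left h1 hs0
  have n1' := hfin N n1
  have n2' := hfin (N + 1) n2
  have hBq : Real.logb 2 (B * q ^ 200) = -L - 200 * E := by
    rw [Real.logb_mul hB.ne' (qn_pos _).ne', hlB, hqE]
    push_cast
    ring
  have hback : ∀ M, l (M + 2) - l M ≤ -L - 200 * E → y (M + 3) ≤ B * q ^ 200 := by
    intro M hM
    rw [hdiff, ← hBq] at hM
    exact (Real.logb_le_logb (by norm_num) (hy.pos _) (mul_pos hB (qn_pos _))).1 hM
  refine ⟨N + 3, hback N n1', hback (N + 1) n2', ?_⟩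
  have e := hdiff (N + 2)
  have h3 := c4 (N + 1)
  have e1 : N + 1 + 2 = N + 3 := by ring
  have e2 : N + 1 + 3 = N + 4 := by ring
  have h5 : l (N + 1 + 2) - l (N + 1) ≤ -L := by linarith
  rw [max_eq_left h5, e2] at h3
  have h4 := c1 (N + 2)
  have h6 : Real.logb 2 (y (N + 2 + 3)) ≤ 1 := by
    rw [← e]
    show l (N + 4) - l (N + 2) ≤ 1
    linarith
  rw [Real.logb_le_iff_le_rpow (by norm_num) (hy.pos _), Real.rpow_one] at h6
  exact h6

end Pool.Agent.H61.RRk
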