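import Pool.Agent.H61.RRk.Defs

/-! MP_7a141f_an with parameters: multiplicative approximation and the type i cycle
(after `Pool.Graph.R_seed8.H152R2.RR`). -/

set_option autoImplicit false

namespace Pool.Agent.H61.RRk

set_option linter.unusedSectionVars false

variable [Par]

/-- `q ^ 200` -/
noncomputable def kap : ℝ := q ^ 200

lemma kap_pos : 0 < kap := qn_pos _

lemma kap_le : kap ≤ 1 / 10000 := by
  have h1 : kap ≤ 1 / 2 ^ 200 := qn_le' 200
  refine h1.trans ?_
  norm_num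

/-- `1 + kap` -/
noncomputable def r : ℝ := 1 + kap

lemma r_pos : 0 < r := by unfold r; linarith [kap_pos]

lemma one_le_r : 1 ≤ r := by unfold r; linarith [kap_pos]

lemma one_le_rp (c : ℕ) : 1 ≤ r ^ c := one_le_pow₀ one_le_r

lemma rp_pos (c : ℕ) : 0 < r ^ c := pow_pos r_pos c

lemma rp_mono {c c' : ℕ} (h : c ≤ c') : r ^ c ≤ r ^ c' := pow_le_pow_right₀ one_le_r h

lemma r40 : r ^ 40 * (1 - 40 * kap) ≤ 1 := by
  have h1 : 1 - 40 * kap ≤ (1 - kap) ^ 40 := by
    have := one_add_mul_le_pow (a := -kap) (by linarith [kap_le]) 40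
    have h2 : 1 + ((40 : ℕ) : ℝ) * -kap = 1 - 40 * kap := by push_cast; ring
    rw [h2] at this
    rw [show (1 : ℝ) - kap = 1 + -kap by ring]
    exact this
  have h3 : r * (1 - kap) ≤ 1 := by
    unfold r
    nlinarith [sq_nonneg kap]
  have h4 : 0 ≤ r * (1 - kap) := by
    apply mul_nonneg r_pos.le
    linarith [kap_le]
  calc r ^ 40 * (1 - 40 * kap) ≤ r ^ 40 * (1 - kap) ^ 40 :=
        mul_le_mul_of_nonneg_left h1 (rp_pos 40).le
    _ = (r * (1 - kap)) ^ 40 := by rw [mul_pow]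
    _ ≤ 1 := pow_le_one₀ h4 h3

lemma tau_kap : 80 * kap ≤ tau := by
  unfold kap tau
  exact qn_mul_le 150 50 (by norm_num)

lemma tau_le_one : tau ≤ 1 := qn_le_one _

lemma r_tau {c : ℕ} (hc : c ≤ 40) : r ^ c * (1 - tau) ≤ 1 := by
  have h0 : 0 ≤ 1 - tau := by linarith [tau_le_one]
  have h1 : 1 - tau ≤ 1 - 40 * kap := by linarith [tau_kap, kap_pos]
  calc r ^ c * (1 - tau) ≤ r ^ 40 * (1 - 40 * kap) := mul_le_mul (rp_mono hc) h1 h0 (rp_pos 40).le
    _ ≤ 1 := r40

lemma r_tau' {c : ℕ} (hc : c ≤ 40) : r ^ c ≤ 1 + tau := by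
  have h1 := r40
  have h2 : 0 < 1 - 40 * kap := by linarith [kap_le]
  have h3 : r ^ 40 ≤ 1 + 80 * kap := by
    have h4 : r ^ 40 * (1 - 40 * kap) ≤ (1 + 80 * kap) * (1 - 40 * kap) := by
      refine h1.trans ?_
      nlinarith [kap_le, kap_pos]
    exact le_of_mul_le_mul_right h4 h2
  linarith [rp_mono hc, tau_kap]

lemma r_two {c : ℕ} (hc : c ≤ 40) : r ^ c ≤ 2 := by
  have h1 := r_tau' hc
  have : tau ≤ 1 := tau_le_one
  linarith

/-- approximation up to a factor `(1 + kap) ^ c` -/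
def Ap (c : ℕ) (A C : ℝ) : Prop := A ≤ C * r ^ c ∧ C ≤ A * r ^ c

lemma Ap.trans {c c' : ℕ} {A C D : ℝ} (h : Ap c A C) (h' : Ap c' C D) : Ap (c + c') A D := by
  constructor
  · calc A ≤ C * r ^ c := h.1
      _ ≤ (D * r ^ c') * r ^ c := mul_le_mul_of_nonneg_right h'.1 (rp_pos c).le
      _ = D * r ^ (c + c') := by rw [pow_add]; ring
  · calc D ≤ C * r ^ c' := h'.2
      _ ≤ (A * r ^ c) * r ^ c' := mul_le_mul_of_nonneg_right h.2 (rp_pos c').le
      _ = A * r ^ (c + c') := by rw [pow_add]; ring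

lemma Ap.div {c c' : ℕ} {A C A' C' : ℝ} (h : Ap c A C) (h' : Ap c' A' C') (hA : 0 < A) (hC : 0 < C)
    (hA' : 0 < A') (hC' : 0 < C') : Ap (c + c') (A / A') (C / C') := by
  constructor
  · rw [div_le_iff₀ hA', div_mul_eq_mul_div, div_mul_eq_mul_div, le_div_iff₀ hC']
    calc A * C' ≤ (C * r ^ c) * (A' * r ^ c') :=
          mul_le_mul h.1 h'.2 hC'.le (mul_pos hC (rp_pos c)).le
      _ = C * r ^ (c + c') * A' := by rw [pow_add]; ring
  · rw [div_le_iff₀ hC', div_mul_eq_mul_div, div_mul_eq_mul_div, le_div_iff₀ hA']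
    calc C * A' ≤ (A * r ^ c) * (C' * r ^ c') :=
          mul_le_mul h.2 h'.1 hA'.le (mul_pos hA (rp_pos c)).le
      _ = A * r ^ (c + c') * C' := by rw [pow_add]; ring

lemma Ap.refl (A : ℝ) : Ap 0 A A := by
  constructor <;> simp

lemma Ap.addB {c : ℕ} {x X : ℝ} (h : Ap c x X) : Ap c (B + x) (B + X) := by
  have h1 := le_mul_of_one_le_right B_pos.le (one_le_rp c)
  constructor
  · rw [add_mul]
    linarith [h.1]
  · rw [add_mul]
    linarith [h.2]

lemma Ap.u {x : ℝ} (hx : 0 < x) (h : B ≤ kap * x) : Ap 1 (B + x) x := by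
  constructor
  · rw [pow_one]
    unfold r
    linarith
  · have h1 := one_le_rp 1
    have h2 : 0 < B + x := by linarith [B_pos]
    have := le_mul_of_one_le_right h2.le h1
    linarith [B_pos]

lemma Ap.uB {x : ℝ} (hx : 0 < x) (h : x ≤ B * kap) : Ap 1 (B + x) B := by
  constructor
  · rw [pow_one]
    unfold r
    linarith
  · have h1 := one_le_rp 1
    have h2 : 0 < B + x := by linarith [B_pos]
    have := le_mul_of_one_le_right h2.le h1
    linarith [B_pos]

/-- `B ≤ kap x` for large `x` -/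
lemma big {c : ℕ} (hc : c ≤ 40) {x X : ℝ} (h : Ap c x X) (hX : 2 * B ≤ kap * X) : B ≤ kap * x := by
  have h1 := h.2
  have h2 : kap * X ≤ kap * x * r ^ c := by
    calc kap * X ≤ kap * (x * r ^ c) := mul_le_mul_of_nonneg_left h1 kap_pos.le
      _ = kap * x * r ^ c := by ring
  have h3 : 0 ≤ kap * x := by
    by_contra hneg
    push Not at hneg
    have := mul_neg_of_neg_of_pos hneg (rp_pos c)
    linarith [B_pos]
  have h4 : kap * x * r ^ c ≤ kap * x * 2 := mul_le_mul_of_nonneg_left (r_two hc) h3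
  linarith

lemma B_le8 : B ≤ kap ^ 8 := by
  refine B_le.trans ?_
  unfold kap
  rw [← pow_mul]
  exact qn_anti (by norm_num)

/-- theta of a large term -/
lemma th_big {y : ℕ → ℝ} {n : ℕ} (hy : 0 < y n) (h : B ≤ kap * y n) : 1 - tau ≤ th y n := by
  unfold th
  have h2 : 0 < B + y n := by linarith [B_pos]
  rw [le_div_iff₀ h2]
  have h3 : kap ≤ tau := by linarith [tau_kap, kap_pos]
  have h4 : kap * y n ≤ tau * y n := mul_le_mul_of_nonneg_right h3 hy.le
  have h5 : 0 ≤ tau * B := by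
    have : 0 ≤ tau := tau_pos.le
    exact mul_nonneg this B_pos.le
  nlinarith


lemma B_div_kap : B * q ^ 200 = B * kap := rfl

lemma kap7_le : kap ^ 7 ≤ q ^ 1250 := by
  unfold kap
  rw [← pow_mul]
  exact qn_anti (by norm_num)

lemma tau_le' : 0 ≤ 1 - tau := by linarith [tau_le_one]

attribute [local irreducible] B kap tau r

theorem st3 : St3 := by
  intro y h N hD hU
  obtain ⟨d1, d2, d3⟩ := hD
  have hk := kap_pos
  have hk1 := kap_le
  have hb := B_le8
  have hB := B_pos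
  have hB1 : B ≤ 1 := by
    refine hb.trans ?_
    exact pow_le_one₀ hk.le (by linarith)
  have hkd := B_div_kap
  rw [hkd] at d1 d2
  have fin1 : y (N + 8) ≤ B * kap → y (N + 8) ≤ B * q ^ 200 := fun h => hkd ▸ h
  have fin2 : y (N + 9) ≤ B * kap → y (N + 9) ≤ B * q ^ 200 := fun h => hkd ▸ h
  clear hkd
  set V := U y N with hV
  have hVdef : V = B + y (N + 2) := rfl
  have hV7 : kap ^ 7 ≤ V := kap7_le.trans hU
  clear hU
  have hV0 : 0 < V := lt_of_lt_of_le (by positivity) hV7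
  have hV3 : V ≤ 3 := by rw [hVdef]; linarith
  have hBB : B * B ≤ kap ^ 16 := by
    calc B * B ≤ kap ^ 8 * kap ^ 8 := mul_le_mul hb hb hB.le (by positivity)
      _ = kap ^ 16 := by ring
  have hk8 : kap ^ 8 ≤ 1 / 100 := by
    calc kap ^ 8 ≤ kap ^ 1 := pow_le_pow_of_le_one hk.le (by linarith) (by norm_num)
      _ = kap := pow_one _
      _ ≤ 1 / 100 := by linarith
  have hBk : B * B * 100 ≤ kap * V * kap := by
    have h1 : kap ^ 16 * 100 ≤ kap * kap ^ 7 * kap := by
      have : kap ^ 16 = kap ^ 9 * kap ^ 7 := by ring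
      have h2 : kap ^ 9 * (kap ^ 7 * 100) ≤ kap ^ 9 * 1 := by
        apply mul_le_mul_of_nonneg_left _ (by positivity)
        have : kap ^ 7 ≤ kap ^ 1 := pow_le_pow_of_le_one hk.le (by linarith) (by norm_num)
        rw [pow_one] at this
        linarith
      calc kap ^ 16 * 100 = kap ^ 9 * (kap ^ 7 * 100) := by ring
        _ ≤ kap ^ 9 * 1 := h2
        _ = kap * kap ^ 7 * kap := by ring
    have h3 : kap * kap ^ 7 * kap ≤ kap * V * kap := by
      apply mul_le_mul_of_nonneg_right _ hk.le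
      exact mul_le_mul_of_nonneg_left hV7 hk.le
    linarith
  -- the recurrence
  have s2 : y (N + 3) = V / (B + y N) := h.step N
  have s3 : y (N + 4) = (B + y (N + 3)) / (B + y (N + 1)) := h.step (N + 1)
  have s4 : y (N + 5) = (B + y (N + 4)) / V := h.step (N + 2)
  have s5 : y (N + 6) = (B + y (N + 5)) / (B + y (N + 3)) := h.step (N + 3)
  have s6 : y (N + 7) = (B + y (N + 6)) / (B + y (N + 4)) := h.step (N + 4)
  have s7 : y (N + 8) = (B + y (N + 7)) / (B + y (N + 5)) := h.step (N + 5)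
  have s8 : y (N + 9) = (B + y (N + 8)) / (B + y (N + 6)) := h.step (N + 6)
  have s9 : y (N + 10) = (B + y (N + 9)) / (B + y (N + 7)) := h.step (N + 7)
  have hpos : ∀ n, 0 < B + y n := fun n => by linarith [h.pos n]
  have a0 : Ap 1 (B + y N) B := Ap.uB (h.pos N) d1
  have a1 : Ap 1 (B + y (N + 1)) B := Ap.uB (h.pos (N + 1)) d2
  -- x2
  have a2 : Ap 1 (y (N + 3)) (V / B) := by
    rw [s2]
    exact (Ap.refl V).div a0 hV0 hV0 (hpos N) hB
  have g2 : 2 * B ≤ kap * (V / B) := by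
    rw [← mul_div_assoc, le_div_iff₀ hB]
    have : kap * V * kap ≤ kap * V * 1 := mul_le_mul_of_nonneg_left (by linarith) (by positivity)
    nlinarith
  have b2 : B ≤ kap * y (N + 3) := big (by norm_num) a2 g2
  have c2 : Ap 2 (B + y (N + 3)) (V / B) := (Ap.u (h.pos _) b2).trans a2
  -- x3
  have a3 : Ap 3 (y (N + 4)) (V / B ^ 2) := by
    rw [s3]
    have := c2.div a1 (hpos _) (by positivity) (hpos _) hB
    have e : V / B / B = V / B ^ 2 := by field_simp
    rwa [e] at this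
  have g3 : 2 * B ≤ kap * (V / B ^ 2) := by
    refine g2.trans (mul_le_mul_of_nonneg_left ?_ hk.le)
    apply div_le_div_of_nonneg_left hV0.le (by positivity)
    nlinarith
  have b3 : B ≤ kap * y (N + 4) := big (by norm_num) a3 g3
  have c3 : Ap 4 (B + y (N + 4)) (V / B ^ 2) := (Ap.u (h.pos _) b3).trans a3
  -- x4
  have a4 : Ap 4 (y (N + 5)) (1 / B ^ 2) := by
    rw [s4]
    have := c3.div (Ap.refl V) (hpos _) (by positivity) hV0 hV0
    have e : V / B ^ 2 / V = 1 / B ^ 2 := by field_simp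
    rwa [e] at this
  have hB2 : B ^ 2 ≤ kap / 100 := by
    have h1 : kap * V * kap ≤ kap * 1 := by
      have : V * kap ≤ 1 := by nlinarith
      calc kap * V * kap = kap * (V * kap) := by ring
        _ ≤ kap * 1 := mul_le_mul_of_nonneg_left this hk.le
    nlinarith
  have g4 : 2 * B ≤ kap * (1 / B ^ 2) := by
    rw [mul_one_div, le_div_iff₀ (by positivity)]
    nlinarith
  have b4 : B ≤ kap * y (N + 5) := big (by norm_num) a4 g4
  have c4 : Ap 5 (B + y (N + 5)) (1 / B ^ 2) := (Ap.u (h.pos _) b4).trans a4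
  -- x5
  have a5 : Ap 7 (y (N + 6)) (1 / (B * V)) := by
    rw [s5]
    have := c4.div c2 (hpos _) (by positivity) (hpos _) (by positivity)
    have e : 1 / B ^ 2 / (V / B) = 1 / (B * V) := by field_simp
    rwa [e] at this
  have g5 : 2 * B ≤ kap * (1 / (B * V)) := by
    rw [mul_one_div, le_div_iff₀ (by positivity)]
    nlinarith
  have b5 : B ≤ kap * y (N + 6) := big (by norm_num) a5 g5
  have c5 : Ap 8 (B + y (N + 6)) (1 / (B * V)) := (Ap.u (h.pos _) b5).trans a5
  -- x6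
  have a6 : Ap 12 (y (N + 7)) (B / V ^ 2) := by
    rw [s6]
    have := c5.div c3 (hpos _) (by positivity) (hpos _) (by positivity)
    have e : 1 / (B * V) / (V / B ^ 2) = B / V ^ 2 := by field_simp
    rwa [e] at this
  have c6 : Ap 12 (B + y (N + 7)) (B * (1 + V ^ 2) / V ^ 2) := by
    have := a6.addB
    have e : B + B / V ^ 2 = B * (1 + V ^ 2) / V ^ 2 := by field_simp; ring
    rwa [e] at this
  have t6 : Ap 24 (th y (N + 7)) (1 / (1 + V ^ 2)) := by
    unfold th
    have := a6.div c6 (h.pos _) (by positivity) (hpos _) (by positivity)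
    have e : B / V ^ 2 / (B * (1 + V ^ 2) / V ^ 2) = 1 / (1 + V ^ 2) := by field_simp
    rwa [e] at this
  -- x7
  have a7 : Ap 17 (y (N + 8)) (B ^ 3 * (1 + V ^ 2) / V ^ 2) := by
    rw [s7]
    have := c6.div c4 (hpos _) (by positivity) (hpos _) (by positivity)
    have e : B * (1 + V ^ 2) / V ^ 2 / (1 / B ^ 2) = B ^ 3 * (1 + V ^ 2) / V ^ 2 := by
      field_simp
    rwa [e] at this
  have hVV : B ^ 2 * (1 + V ^ 2) / V ^ 2 ≤ kap / 2 := by
    rw [div_le_iff₀ (by positivity)]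
    have h1 : B ^ 2 * 100 ≤ V * (kap * kap) := by nlinarith
    have h2 : kap ^ 7 * kap ^ 7 ≤ V * V := mul_le_mul hV7 hV7 (by positivity) hV0.le
    have h3 : B ^ 2 * 10 ≤ kap / 2 * V ^ 2 := by
      calc B ^ 2 * 10 = B * B * 10 := by ring
        _ ≤ kap ^ 16 * 10 := by linarith
        _ = kap * (kap * 10) * (kap ^ 7 * kap ^ 7) := by ring
        _ ≤ kap * (kap * 10) * (V * V) := mul_le_mul_of_nonneg_left h2 (by positivity)
        _ ≤ kap * (1 / 2) * (V * V) := by
            apply mul_le_mul_of_nonneg_right _ (by positivity)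
            apply mul_le_mul_of_nonneg_left _ hk.le
            linarith
        _ = kap / 2 * V ^ 2 := by ring
    have h4 : 1 + V ^ 2 ≤ 10 := by nlinarith
    calc B ^ 2 * (1 + V ^ 2) ≤ B ^ 2 * 10 := mul_le_mul_of_nonneg_left h4 (by positivity)
      _ ≤ kap / 2 * V ^ 2 := h3
  have d7 : y (N + 8) ≤ B * kap := by
    calc y (N + 8) ≤ B ^ 3 * (1 + V ^ 2) / V ^ 2 * r ^ 17 := a7.1
      _ = B * (B ^ 2 * (1 + V ^ 2) / V ^ 2) * r ^ 17 := by ring
      _ ≤ B * (kap / 2) * 2 := by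
          apply mul_le_mul _ (r_two (by norm_num)) (rp_pos 17).le (by positivity)
          exact mul_le_mul_of_nonneg_left hVV hB.le
      _ = B * kap := by ring
  have c7 : Ap 1 (B + y (N + 8)) B := Ap.uB (h.pos _) d7
  -- x8
  have a8 : Ap 9 (y (N + 9)) (B * (B * V)) := by
    rw [s8]
    have := c7.div c5 (hpos _) hB (hpos _) (by positivity)
    have e : B / (1 / (B * V)) = B * (B * V) := by field_simp
    rwa [e] at this
  have hBV : B * V ≤ kap / 2 := by
    have h1 : kap ^ 8 ≤ kap ^ 2 := pow_le_pow_of_le_one hk.le (by linarith) (by norm_num)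
    nlinarith
  have d8 : y (N + 9) ≤ B * kap := by
    calc y (N + 9) ≤ B * (B * V) * r ^ 9 := a8.1
      _ ≤ B * (kap / 2) * 2 := by
          apply mul_le_mul _ (r_two (by norm_num)) (rp_pos 9).le (by positivity)
          exact mul_le_mul_of_nonneg_left hBV hB.le
      _ = B * kap := by ring
  have c8 : Ap 1 (B + y (N + 9)) B := Ap.uB (h.pos _) d8
  -- x9
  have a9 : Ap 13 (y (N + 10)) (f V) := by
    rw [s9]
    have := c8.div c6 (hpos _) hB (hpos _) (by positivity)
    have e : B / (B * (1 + V ^ 2) / V ^ 2) = f V := by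
      unfold f
      field_simp
    rwa [e] at this
  have hf0 : 0 ≤ f V := by unfold f; positivity
  have hf1 : f V ≤ 1 := by
    unfold f
    rw [div_le_one (by positivity)]
    linarith
  refine ⟨th_big (h.pos _) b2, th_big (h.pos _) b3, th_big (h.pos _) b4, th_big (h.pos _) b5,
    ?_, ⟨?_, ?_, ?_⟩, ?_, ?_⟩
  · have h1 := t6.2
    have h2 := r_tau (c := 24) (by norm_num)
    have h3 : 0 ≤ 1 / (1 + V ^ 2) := by positivity
    have h4 : 0 ≤ 1 - tau := tau_le'
    have hth : 0 ≤ th y (N + 7) := by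
      unfold th
      exact div_nonneg (h.pos _).le (hpos _).le
    calc (1 - tau) / (1 + V ^ 2) = (1 / (1 + V ^ 2)) * (1 - tau) := by ring
      _ ≤ (th y (N + 7) * r ^ 24) * (1 - tau) := mul_le_mul_of_nonneg_right h1 h4
      _ = th y (N + 7) * (r ^ 24 * (1 - tau)) := by ring
      _ ≤ th y (N + 7) * 1 := mul_le_mul_of_nonneg_left h2 hth
      _ = th y (N + 7) := mul_one _
  · exact fin1 d7
  · exact fin2 d8
  · show y (N + 10) ≤ 2
    calc y (N + 10) ≤ f V * r ^ 13 := a9.1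
      _ ≤ 1 * 2 := mul_le_mul hf1 (r_two (by norm_num)) (rp_pos 13).le zero_le_one
      _ = 2 := one_mul _
  · have h1 := a9.2
    have h2 := r_tau (c := 13) (by norm_num)
    have h4 : 0 ≤ 1 - tau := tau_le'
    calc (1 - tau) * f V ≤ (1 - tau) * (y (N + 10) * r ^ 13) := mul_le_mul_of_nonneg_left h1 h4
      _ = y (N + 10) * (r ^ 13 * (1 - tau)) := by ring
      _ ≤ y (N + 10) * 1 := mul_le_mul_of_nonneg_left h2 (h.pos _).le
      _ = y (N + 10) := mul_one _
  · calc y (N + 10) ≤ f V * r ^ 13 := a9.1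
      _ ≤ f V * (1 + tau) := mul_le_mul_of_nonneg_left (r_tau' (by norm_num)) hf0
      _ = (1 + tau) * f V := mul_comm _ _


end Pool.Agent.H61.RRk
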