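import Pool.Agent.H61.RRk.B3

/-! MP_7a141f_an with parameters: the type ii cycle (after `Pool.Graph.R_seed8.H152R2.RR.St4`). -/

set_option autoImplicit false

namespace Pool.Agent.H61.RRk

set_option linter.unusedSectionVars false

variable [Par]

namespace Four

lemma Bw_le {y : ℕ → ℝ} {N : ℕ} (hU : U y N ≤ q ^ 1100) : B * W y N ≤ kap ^ 5 := by
  have hB := B_pos
  have hV : B * W y N = U y N := by
    unfold W
    field_simp
  rw [hV]
  refine hU.trans ?_
  unfold kap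
  rw [← pow_mul]
  exact qn_anti (by norm_num)

lemma Bww_le {y : ℕ → ℝ} {N : ℕ} (h0 : 0 ≤ U y N) (hU : U y N ≤ q ^ 1100) :
    B * W y N ^ 2 ≤ kap ^ 2 := by
  have hB := B_pos
  have hV : B * W y N ^ 2 = U y N ^ 2 / B := by
    unfold W
    field_simp
  rw [hV, div_le_iff₀ hB]
  calc U y N ^ 2 ≤ (q ^ 1100) ^ 2 := pow_le_pow_left₀ h0 hU 2
    _ = kap ^ 2 * q ^ 1800 := by
      unfold kap
      generalize q = x
      ring
    _ ≤ kap ^ 2 * B := mul_le_mul_of_nonneg_left B_ge (pow_nonneg kap_pos.le 2)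

attribute [local irreducible] B kap tau r

/-- the heart, with abstract parameters -/
theorem core {y : ℕ → ℝ} (h : IsSol y) (N : ℕ) (w : ℝ) (d1 : y N ≤ B * kap)
    (d2 : y (N + 1) ≤ B * kap) (hV : B + y (N + 2) = B * w) (hBw : B * w ≤ kap ^ 5) (hBw2 : B * w ^ 2 ≤ kap ^ 2) :
    (1 - tau ≤ th y (N + 3) ∧ 1 - tau ≤ th y (N + 4) ∧ 1 - tau ≤ th y (N + 5) ∧
      1 - tau ≤ th y (N + 6) ∧ 1 - tau ≤ th y (N + 7)) ∧
    Ap 36 (th y (N + 8)) (1 / (1 + w ^ 2)) ∧ y (N + 9) ≤ B * kap ∧ y (N + 10) ≤ B * kap ∧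
    Ap 19 (y (N + 11)) (f w) ∧ 1 ≤ w := by
  have hk := kap_pos
  have hk1 := kap_le
  have hb := B_le8
  have hB := B_pos
  have hk2 : kap ^ 2 ≤ kap / 100 := by
    calc kap ^ 2 = kap * kap := sq kap
      _ ≤ kap * (1 / 100) := mul_le_mul_of_nonneg_left (by linarith) hk.le
      _ = kap / 100 := by ring
  have hk82 : kap ^ 8 ≤ kap ^ 2 := pow_le_pow_of_le_one hk.le (by linarith) (by norm_num)
  have hBk : B ≤ kap / 100 := by linarith
  have hw1 : 1 ≤ w := by
    have h1 : B * 1 ≤ B * w := by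
      rw [← hV]
      linarith [h.pos (N + 2)]
    exact le_of_mul_le_mul_left h1 hB
  have hw0 : 0 < w := by linarith
  have hk52 : kap ^ 5 ≤ kap ^ 2 := pow_le_pow_of_le_one hk.le (by linarith) (by norm_num)
  have hBw1 : B * w ≤ kap / 100 := by linarith
  have hBw0 : 0 < B * w := mul_pos hB hw0
  -- B w^2 ≤ kap^2
  have hBww : B * w ^ 2 ≤ kap / 100 := hBw2.trans hk2
  -- the recurrence
  have s2 : y (N + 3) = (B * w) / (B + y N) := by rw [← hV]; exact h.step N
  have s3 : y (N + 4) = (B + y (N + 3)) / (B + y (N + 1)) := h.step (N + 1)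
  have s4 : y (N + 5) = (B + y (N + 4)) / (B * w) := by rw [← hV]; exact h.step (N + 2)
  have s5 : y (N + 6) = (B + y (N + 5)) / (B + y (N + 3)) := h.step (N + 3)
  have s6 : y (N + 7) = (B + y (N + 6)) / (B + y (N + 4)) := h.step (N + 4)
  have s7 : y (N + 8) = (B + y (N + 7)) / (B + y (N + 5)) := h.step (N + 5)
  have s8 : y (N + 9) = (B + y (N + 8)) / (B + y (N + 6)) := h.step (N + 6)
  have s9 : y (N + 10) = (B + y (N + 9)) / (B + y (N + 7)) := h.step (N + 7)
  have s10 : y (N + 11) = (B + y (N + 10)) / (B + y (N + 8)) := h.step (N + 8)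
  have hpos : ∀ n, 0 < B + y n := fun n => by linarith [h.pos n]
  have a0 : Ap 1 (B + y N) B := Ap.uB (h.pos N) d1
  have a1 : Ap 1 (B + y (N + 1)) B := Ap.uB (h.pos (N + 1)) d2
  -- x2
  have a2 : Ap 1 (y (N + 3)) w := by
    rw [s2]
    have := (Ap.refl (B * w)).div a0 hBw0 hBw0 (hpos N) hB
    have e : B * w / B = w := by field_simp
    rwa [e] at this
  have g2 : 2 * B ≤ kap * w := by
    calc 2 * B ≤ kap := by linarith
      _ = kap * 1 := (mul_one _).symm
      _ ≤ kap * w := mul_le_mul_of_nonneg_left hw1 hk.le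
  have b2 : B ≤ kap * y (N + 3) := big (by norm_num) a2 g2
  have c2 : Ap 2 (B + y (N + 3)) w := (Ap.u (h.pos _) b2).trans a2
  -- x3
  have a3 : Ap 3 (y (N + 4)) (w / B) := by
    rw [s3]
    exact c2.div a1 (hpos _) hw0 (hpos _) hB
  have hwB0 : 0 < w / B := div_pos hw0 hB
  have hwB : w ≤ w / B := by
    rw [le_div_iff₀ hB]
    exact mul_le_of_le_one_right hw0.le (by linarith)
  have g3 : 2 * B ≤ kap * (w / B) := g2.trans (mul_le_mul_of_nonneg_left hwB hk.le)
  have b3 : B ≤ kap * y (N + 4) := big (by norm_num) a3 g3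
  have c3 : Ap 4 (B + y (N + 4)) (w / B) := (Ap.u (h.pos _) b3).trans a3
  -- x4
  have hBB0 : 0 < B ^ 2 := pow_pos hB 2
  have hiB0 : 0 < 1 / B ^ 2 := one_div_pos.mpr hBB0
  have a4 : Ap 4 (y (N + 5)) (1 / B ^ 2) := by
    rw [s4]
    have := c3.div (Ap.refl (B * w)) (hpos _) hwB0 hBw0 hBw0
    have e : w / B / (B * w) = 1 / B ^ 2 := by field_simp
    rwa [e] at this
  have g4 : 2 * B ≤ kap * (1 / B ^ 2) := by
    rw [mul_one_div, le_div_iff₀ hBB0]
    have h1 : B ^ 2 ≤ 1 := pow_le_one₀ hB.le (by linarith)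
    calc 2 * B * B ^ 2 ≤ 2 * B * 1 := mul_le_mul_of_nonneg_left h1 (by linarith)
      _ ≤ kap := by linarith
  have b4 : B ≤ kap * y (N + 5) := big (by norm_num) a4 g4
  have c4 : Ap 5 (B + y (N + 5)) (1 / B ^ 2) := (Ap.u (h.pos _) b4).trans a4
  -- x5
  have h5pos : 0 < B ^ 2 * w := mul_pos hBB0 hw0
  have a5 : Ap 7 (y (N + 6)) (1 / (B ^ 2 * w)) := by
    rw [s5]
    have := c4.div c2 (hpos _) hiB0 (hpos _) hw0
    have e : 1 / B ^ 2 / w = 1 / (B ^ 2 * w) := by field_simp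
    rwa [e] at this
  have g5 : 2 * B ≤ kap * (1 / (B ^ 2 * w)) := by
    rw [mul_one_div, le_div_iff₀ h5pos]
    have h1 : B ^ 2 ≤ 1 := pow_le_one₀ hB.le (by linarith)
    calc 2 * B * (B ^ 2 * w) = 2 * (B * w) * B ^ 2 := by ring
      _ ≤ 2 * (B * w) * 1 := mul_le_mul_of_nonneg_left h1 (by linarith)
      _ ≤ kap := by linarith
  have b5 : B ≤ kap * y (N + 6) := big (by norm_num) a5 g5
  have hi5 : 0 < 1 / (B ^ 2 * w) := one_div_pos.mpr h5pos
  have c5 : Ap 8 (B + y (N + 6)) (1 / (B ^ 2 * w)) := (Ap.u (h.pos _) b5).trans a5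
  -- x6
  have h6pos : 0 < B * w ^ 2 := mul_pos hB (pow_pos hw0 2)
  have a6 : Ap 12 (y (N + 7)) (1 / (B * w ^ 2)) := by
    rw [s6]
    have := c5.div c3 (hpos _) hi5 (hpos _) hwB0
    have e : 1 / (B ^ 2 * w) / (w / B) = 1 / (B * w ^ 2) := by field_simp
    rwa [e] at this
  have g6 : 2 * B ≤ kap * (1 / (B * w ^ 2)) := by
    rw [mul_one_div, le_div_iff₀ h6pos]
    calc 2 * B * (B * w ^ 2) ≤ 2 * B * (kap / 100) := mul_le_mul_of_nonneg_left hBww (by linarith)
      _ ≤ 2 * 1 * (kap / 100) := mul_le_mul_of_nonneg_right (by linarith) (by linarith)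
      _ ≤ kap := by linarith
  have b6 : B ≤ kap * y (N + 7) := big (by norm_num) a6 g6
  have hi6 : 0 < 1 / (B * w ^ 2) := one_div_pos.mpr h6pos
  have c6 : Ap 13 (B + y (N + 7)) (1 / (B * w ^ 2)) := (Ap.u (h.pos _) b6).trans a6
  -- x7
  have hww : 0 < w ^ 2 := pow_pos hw0 2
  have h7pos : 0 < B / w ^ 2 := div_pos hB hww
  have h7pos' : 0 < B * (1 + w ^ 2) / w ^ 2 := by
    apply div_pos _ hww
    exact mul_pos hB (by linarith)
  have a7 : Ap 18 (y (N + 8)) (B / w ^ 2) := by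
    rw [s7]
    have := c6.div c4 (hpos _) hi6 (hpos _) hiB0
    have e : 1 / (B * w ^ 2) / (1 / B ^ 2) = B / w ^ 2 := by field_simp
    rwa [e] at this
  have c7 : Ap 18 (B + y (N + 8)) (B * (1 + w ^ 2) / w ^ 2) := by
    have := a7.addB
    have e : B + B / w ^ 2 = B * (1 + w ^ 2) / w ^ 2 := by field_simp; ring
    rwa [e] at this
  have h1w : 0 < 1 + w ^ 2 := by linarith
  have t7 : Ap 36 (th y (N + 8)) (1 / (1 + w ^ 2)) := by
    unfold th
    have := a7.div c7 (h.pos _) h7pos (hpos _) h7pos'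
    have e : B / w ^ 2 / (B * (1 + w ^ 2) / w ^ 2) = 1 / (1 + w ^ 2) := by field_simp
    rwa [e] at this
  -- x8
  have a8 : Ap 26 (y (N + 9)) (B * (B ^ 2 * ((1 + w ^ 2) / w))) := by
    rw [s8]
    have := c7.div c5 (hpos _) h7pos' (hpos _) hi5
    have e : B * (1 + w ^ 2) / w ^ 2 / (1 / (B ^ 2 * w)) = B * (B ^ 2 * ((1 + w ^ 2) / w)) := by
      field_simp
    rwa [e] at this
  have h8 : B ^ 2 * ((1 + w ^ 2) / w) ≤ kap / 2 := by
    have h1 : (1 + w ^ 2) / w ≤ 2 * w := by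
      rw [div_le_iff₀ hw0]
      have : 1 ≤ w * w := by
        calc (1 : ℝ) = 1 * 1 := by ring
          _ ≤ w * w := mul_le_mul hw1 hw1 zero_le_one hw0.le
      calc 1 + w ^ 2 ≤ w * w + w ^ 2 := by linarith
        _ = 2 * w * w := by ring
    calc B ^ 2 * ((1 + w ^ 2) / w) ≤ B ^ 2 * (2 * w) := mul_le_mul_of_nonneg_left h1 hBB0.le
      _ = 2 * B * (B * w) := by ring
      _ ≤ 2 * 1 * (kap / 100) := by
          apply mul_le_mul _ hBw1 hBw0.le (by norm_num)
          linarith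
      _ ≤ kap / 2 := by linarith
  have d8 : y (N + 9) ≤ B * kap := by
    calc y (N + 9) ≤ B * (B ^ 2 * ((1 + w ^ 2) / w)) * r ^ 26 := a8.1
      _ ≤ B * (kap / 2) * 2 := by
          apply mul_le_mul _ (r_two (by norm_num)) (rp_pos 26).le
          · exact mul_nonneg hB.le (by linarith)
          · exact mul_le_mul_of_nonneg_left h8 hB.le
      _ = B * kap := by ring
  have c8 : Ap 1 (B + y (N + 9)) B := Ap.uB (h.pos _) d8
  -- x9
  have a9 : Ap 14 (y (N + 10)) (B * (B * w ^ 2)) := by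
    rw [s9]
    have := c8.div c6 (hpos _) hB (hpos _) hi6
    have e : B / (1 / (B * w ^ 2)) = B * (B * w ^ 2) := by field_simp
    rwa [e] at this
  have d9 : y (N + 10) ≤ B * kap := by
    calc y (N + 10) ≤ B * (B * w ^ 2) * r ^ 14 := a9.1
      _ ≤ B * (kap / 2) * 2 := by
          apply mul_le_mul _ (r_two (by norm_num)) (rp_pos 14).le
          · exact mul_nonneg hB.le (by linarith)
          · exact mul_le_mul_of_nonneg_left (by linarith) hB.le
      _ = B * kap := by ring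
  have c9 : Ap 1 (B + y (N + 10)) B := Ap.uB (h.pos _) d9
  -- x10
  have a10 : Ap 19 (y (N + 11)) (f w) := by
    rw [s10]
    have := c9.div c7 (hpos _) hB (hpos _) h7pos'
    have e : B / (B * (1 + w ^ 2) / w ^ 2) = f w := by
      unfold f
      field_simp
    rwa [e] at this
  exact ⟨⟨th_big (h.pos _) b2, th_big (h.pos _) b3, th_big (h.pos _) b4, th_big (h.pos _) b5,
    th_big (h.pos _) b6⟩, t7, d8, d9, a10, hw1⟩

end Four

open Four

theorem st4 : St4 := by
  intro y h N hL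
  obtain ⟨⟨d1, d2, d3⟩, hU⟩ := hL
  have hkd : B * q ^ 200 = B * kap := rfl
  rw [hkd] at d1 d2
  have hB := B_pos
  have hBw := Bw_le hU
  have hU0 : 0 ≤ U y N := by
    have := h.pos (N + 2)
    unfold U
    linarith
  have hBww := Bww_le hU0 hU
  have hV : B + y (N + 2) = B * W y N := by
    unfold W U
    field_simp
  obtain ⟨⟨t3, t4, t5, t6, t7⟩, t8, e9, e10, e11, hw1⟩ := core h N (W y N) d1 d2 hV hBw hBww
  clear hBw hBww hU0
  set w := W y N with hwdef
  clear_value w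
  have hk := kap_pos
  have hk1 := kap_le
  have hf0 : 0 ≤ f w := by unfold f; positivity
  have hf1 : f w ≤ 1 := by
    unfold f
    rw [div_le_one (by positivity)]
    linarith
  have hf2 : 1 / 2 ≤ f w := by
    unfold f
    rw [le_div_iff₀ (by positivity)]
    have : 1 ≤ w ^ 2 := one_le_pow₀ hw1
    linarith
  have hth : 0 ≤ th y (N + 8) := by
    unfold th
    have h1 := h.pos (N + 8)
    exact div_nonneg h1.le (by linarith)
  have hi : 0 ≤ 1 / (1 + w ^ 2) := by positivity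
  refine ⟨t3, t4, t5, t6, t7, ?_, ?_, ⟨?_, ?_, ?_⟩, ?_, ?_, ?_⟩
  · have h1 := t8.2
    have h2 := r_tau (c := 36) (by norm_num)
    calc (1 - tau) / (1 + w ^ 2) = (1 / (1 + w ^ 2)) * (1 - tau) := by ring
      _ ≤ (th y (N + 8) * r ^ 36) * (1 - tau) := mul_le_mul_of_nonneg_right h1 tau_le'
      _ = th y (N + 8) * (r ^ 36 * (1 - tau)) := by ring
      _ ≤ th y (N + 8) * 1 := mul_le_mul_of_nonneg_left h2 hth
      _ = th y (N + 8) := mul_one _
  · calc th y (N + 8) ≤ 1 / (1 + w ^ 2) * r ^ 36 := t8.1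
      _ ≤ 1 / (1 + w ^ 2) * (1 + tau) := mul_le_mul_of_nonneg_left (r_tau' (by norm_num)) hi
      _ = (1 + tau) / (1 + w ^ 2) := by ring
  · rw [hkd]; exact e9
  · rw [hkd]; exact e10
  · show y (N + 11) ≤ 2
    calc y (N + 11) ≤ f w * r ^ 19 := e11.1
      _ ≤ 1 * 2 := mul_le_mul hf1 (r_two (by norm_num)) (rp_pos 19).le zero_le_one
      _ = 2 := one_mul _
  · apply th_big (h.pos _)
    refine big (c := 19) (by norm_num) e11 ?_
    have h1 : B ≤ kap / 100 := by
      refine B_le8.trans ?_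
      calc kap ^ 8 ≤ kap ^ 2 := pow_le_pow_of_le_one hk.le (by linarith) (by norm_num)
        _ = kap * kap := sq kap
        _ ≤ kap * (1 / 100) := mul_le_mul_of_nonneg_left (by linarith) hk.le
        _ = kap / 100 := by ring
    have h2 : kap * (1 / 2) ≤ kap * f w := mul_le_mul_of_nonneg_left hf2 hk.le
    linarith
  · have h1 := e11.2
    have h2 := r_tau (c := 19) (by norm_num)
    calc (1 - tau) * f w ≤ (1 - tau) * (y (N + 11) * r ^ 19) :=
          mul_le_mul_of_nonneg_left h1 tau_le'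
      _ = y (N + 11) * (r ^ 19 * (1 - tau)) := by ring
      _ ≤ y (N + 11) * 1 := mul_le_mul_of_nonneg_left h2 (h.pos _).le
      _ = y (N + 11) := mul_one _
  · calc y (N + 11) ≤ f w * r ^ 19 := e11.1
      _ ≤ f w * (1 + tau) := mul_le_mul_of_nonneg_left (r_tau' (by norm_num)) hf0
      _ = (1 + tau) * f w := mul_comm _ _


end Pool.Agent.H61.RRk
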