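import Pool.Agent.H61.RRk.C8

/-! MP_7a141f_an with parameters: geometric decay of the difference with the shift by `P`
(after `Pool.Graph.R_seed8.H983.RR.St10a`). -/

set_option autoImplicit false
set_option linter.unusedSectionVars false

namespace Pool.Agent.H61.RRk

open Filter Topology

namespace St10aAux

theorem geo (n : ℕ → ℝ) (h0 : ∀ k, 0 ≤ n k) (k₀ : ℕ) (h : ∀ k, k₀ ≤ k → n (k + 1) ≤ 1 / 2 * n k) :
    ∃ C : ℝ, 0 ≤ C ∧ ∀ k, n k ≤ C * (1 / 2) ^ k := by
  refine ⟨∑ j ∈ Finset.range (k₀ + 1), n j * 2 ^ j,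
    Finset.sum_nonneg fun j _ => mul_nonneg (h0 j) (by positivity), ?_⟩
  have h1 : ∀ k, k ≤ k₀ → n k ≤ (∑ j ∈ Finset.range (k₀ + 1), n j * 2 ^ j) * (1 / 2) ^ k := by
    intro k hk
    have h2 : n k * 2 ^ k ≤ ∑ j ∈ Finset.range (k₀ + 1), n j * 2 ^ j :=
      Finset.single_le_sum (f := fun j => n j * 2 ^ j)
        (fun j _ => mul_nonneg (h0 j) (by positivity)) (Finset.mem_range.2 (Nat.lt_succ_of_le hk))
    have h3 : n k = n k * 2 ^ k * (1 / 2) ^ k := by
      rw [mul_assoc, ← mul_pow]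
      norm_num
    calc n k = n k * 2 ^ k * (1 / 2) ^ k := h3
      _ ≤ _ := mul_le_mul_of_nonneg_right h2 (by positivity)
  intro k
  induction k with
  | zero => exact h1 0 (Nat.zero_le _)
  | succ k ih =>
    rcases le_or_gt (k + 1) k₀ with h2 | h2
    · exact h1 _ h2
    · have h3 := h k (by omega)
      rw [pow_succ]
      linarith

/-- the three regimes -/
theorem regimes (R l w : ℕ → ℝ) (T c δ : ℝ) (hT : 2 ≤ T) (hc1 : 1 ≤ c) (hδ : 0 ≤ δ)
    (hcδ : 1024 * (c * δ) ≤ 1) (hl : ∀ k, 0 ≤ l k)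
    (ha : ∀ k, l (k + 1) ≤ δ * (|R k| + l k))
    (hb : ∀ k, w k ≤ 5 / 4 → w (k + 1) ≤ 5 / 4 → |R (k + 1)| ≤ 1 / 2 ^ 100 * (|R k| + l k))
    (hc : ∀ k, T ≤ w k → T ≤ w (k + 1) → |R (k + 1)| ≤ 1 / 2 ^ 7 * |R k| + c * l k)
    (hd : ∀ k, w k < 2 → w (k + 1) < 2 → 5 / 4 ≤ w (k + 1) → 5 / 4 ≤ w (k + 2) →
      5 * |R k| - c * l k ≤ |R (k + 1)|)
    (he : ∀ k, w k ≤ 5 / 4 → w (k + 1) ≤ 5 / 4)
    (hf : ∀ k, 2 ≤ w k → T ≤ w (k + 1))
    (hg : ∀ k, 5 / 4 < w k → w k < 2 → 5 / 4 < w (k + 1) → w (k + 1) < 2 → |R k| ≤ 1) :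
    ∃ C : ℝ, 0 ≤ C ∧ ∀ k, |R k| + l k ≤ C * (1 / 2) ^ k := by
  have hδ1 : δ ≤ 1 / 1024 := by
    have h1 : 1 * δ ≤ c * δ := mul_le_mul_of_nonneg_right hc1 hδ
    linarith
  have hac : ∀ k, c * l (k + 1) ≤ 1 / 1024 * (|R k| + l k) := by
    intro k
    have h5 : 0 ≤ |R k| + l k := add_nonneg (abs_nonneg _) (hl k)
    calc c * l (k + 1) ≤ c * (δ * (|R k| + l k)) := mul_le_mul_of_nonneg_left (ha k) (by linarith)
      _ = (c * δ) * (|R k| + l k) := by ring
      _ ≤ 1 / 1024 * (|R k| + l k) := mul_le_mul_of_nonneg_right (by linarith) h5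
  have hcl : ∀ k, l k ≤ c * l k := fun k => by
    have := mul_le_mul_of_nonneg_right hc1 (hl k)
    linarith
  by_cases h1 : ∃ k, w k ≤ 5 / 4
  · obtain ⟨k₀, hk₀⟩ := h1
    have h2 : ∀ k, k₀ ≤ k → w k ≤ 5 / 4 := by
      intro k hk
      induction k, hk using Nat.le_induction with
      | base => exact hk₀
      | succ k hk ih => exact he k ih
    refine geo (fun k => |R k| + l k) (fun k => add_nonneg (abs_nonneg _) (hl k)) k₀ ?_
    intro k hk
    have h3 := hb k (h2 k hk) (h2 (k + 1) (by omega))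
    have h4 := ha k
    have h5 : 0 ≤ |R k| + l k := add_nonneg (abs_nonneg _) (hl k)
    have h6 : (1 : ℝ) / 2 ^ 100 ≤ 1 / 4 := by norm_num
    have h7 := mul_le_mul_of_nonneg_right h6 h5
    have h8 := mul_le_mul_of_nonneg_right hδ1 h5
    linarith
  push Not at h1
  by_cases h2 : ∃ k, 2 ≤ w k
  · obtain ⟨k₀, hk₀⟩ := h2
    have h3 : ∀ k, k₀ + 1 ≤ k → T ≤ w k := by
      intro k hk
      induction k, hk using Nat.le_induction with
      | base => exact hf k₀ hk₀
      | succ k hk ih => exact hf k (by linarith)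
    obtain ⟨C, hC, hn⟩ := geo (fun k => |R k| + 4 * (c * l k))
      (fun k => add_nonneg (abs_nonneg _)
        (mul_nonneg (by norm_num) (mul_nonneg (by linarith) (hl k)))) (k₀ + 1) (by
        intro k hk
        have h4 := hc k (h3 k hk) (h3 (k + 1) (by omega))
        have h5 := hac k
        have h6 := hl k
        have h7 := abs_nonneg (R k)
        have h8 := hcl k
        show |R (k + 1)| + 4 * (c * l (k + 1)) ≤ 1 / 2 * (|R k| + 4 * (c * l k))
        norm_num at h4 h5 ⊢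
        linarith)
    refine ⟨C, hC, fun k => ?_⟩
    have h4 : |R k| + 4 * (c * l k) ≤ C * (1 / 2) ^ k := hn k
    have h5 := hl k
    have h6 := hcl k
    linarith
  push Not at h2
  have h3 : ∀ k, |R k| ≤ 1 := fun k => hg k (h1 k) (h2 k) (h1 _) (h2 _)
  have h4 : ∀ k, 5 * |R k| - c * l k ≤ |R (k + 1)| :=
    fun k => hd k (h2 k) (h2 _) (h1 _).le (h1 _).le
  have h5 : ∀ k, |R k| ≤ c * l k := by
    intro k
    by_contra hcon
    push Not at hcon
    have h6 : ∀ j : ℕ, c * l (k + j) ≤ |R (k + j)| ∧ 4 ^ j * |R k| ≤ |R (k + j)| := by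
      intro j
      induction j with
      | zero => exact ⟨hcon.le, by simp⟩
      | succ j ih =>
        have h7 := h4 (k + j)
        have h8 := hac (k + j)
        have h88 := hcl (k + j)
        have h9 := abs_nonneg (R (k + j))
        have h10 : 4 * |R (k + j)| ≤ |R (k + (j + 1))| := by
          have h11 : k + (j + 1) = k + j + 1 := by omega
          rw [h11]
          linarith [ih.1]
        refine ⟨?_, ?_⟩
        · have h11 : k + (j + 1) = k + j + 1 := by omega
          rw [h11] at h10 ⊢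
          have h12 := ih.1
          norm_num at h8 h10 h12 ⊢
          linarith
        · refine le_trans ?_ h10
          rw [pow_succ]
          linarith [ih.2]
    have h7 : 0 < |R k| := lt_of_le_of_lt (mul_nonneg (by linarith) (hl k)) hcon
    obtain ⟨j, hj⟩ := pow_unbounded_of_one_lt (1 / |R k|) (by norm_num : (1 : ℝ) < 4)
    rw [div_lt_iff₀ h7] at hj
    have h8 := (h6 j).2
    have h9 := h3 (k + j)
    linarith
  obtain ⟨C, hC, hn⟩ := geo (fun k => c * l k) (fun k => mul_nonneg (by linarith) (hl k)) 0 (by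
    intro k _
    have h6 := hac k
    have h7 := h5 k
    have h8 := hl k
    have h9 := hcl k
    show c * l (k + 1) ≤ 1 / 2 * (c * l k)
    norm_num at h6 h7 ⊢
    linarith)
  refine ⟨2 * C, by positivity, fun k => ?_⟩
  have h6 := h5 k
  have h7 : c * l k ≤ C * (1 / 2) ^ k := hn k
  have h8 : 2 * C * (1 / 2) ^ k = 2 * (C * (1 / 2) ^ k) := by ring
  have h9 := hcl k
  rw [h8]
  linarith

/-- filling in between -/
theorem fill (P : ℕ) (hP0 : 0 < P) (a : ℕ → ℝ) (h0 : ∀ n, 0 ≤ a n) (h3 : ∀ n, a (n + 3) ≤ a (n + 2) + a n) (N : ℕ)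
    (C : ℝ) (hC : 0 ≤ C)
    (h : ∀ k, a (N + P * k) + a (N + P * k + 1) + a (N + P * k + 2) ≤ C * (1 / 2) ^ k) :
    ∃ C q : ℝ, 0 < q ∧ q < 1 ∧ ∀ n, a n ≤ C * q ^ n := by
  obtain ⟨q, hq0, hq1, hq⟩ : ∃ q : ℝ, 0 < q ∧ q < 1 ∧ 1 / 2 ≤ q ^ P := by
    have hP : (0 : ℝ) < P := by exact_mod_cast hP0
    have hP1 : (1 : ℝ) ≤ P := by exact_mod_cast hP0
    have h1 : 1 / (2 * (P : ℝ)) ≤ 1 / 2 := by
      apply one_div_le_one_div_of_le (by norm_num)
      linarith
    have h2 : 0 < 1 / (2 * (P : ℝ)) := by positivity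
    refine ⟨1 + -(1 / (2 * (P : ℝ))), by linarith, by linarith, ?_⟩
    have h3 := one_add_mul_le_pow (a := -(1 / (2 * (P : ℝ)))) (by linarith) P
    refine le_trans (le_of_eq ?_) h3
    field_simp
    ring
  obtain ⟨K, hK0, hK⟩ : ∃ K : ℝ, 0 ≤ K ∧ ∀ r < P, (2 : ℝ) ^ r ≤ K :=
    ⟨2 ^ P, pow_nonneg (by norm_num) _, fun r hr => pow_le_pow_right₀ (by norm_num) hr.le⟩
  have h4 : ∀ k r : ℕ, a (N + P * k + r) ≤ 2 ^ r * (C * (1 / 2) ^ k) := by
    intro k r
    induction r using Nat.strong_induction_on with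
    | _ r ih =>
      have e := h k
      have e0 := h0 (N + P * k)
      have e1 := h0 (N + P * k + 1)
      have e2 := h0 (N + P * k + 2)
      have e3 : 0 ≤ C * (1 / 2) ^ k := by positivity
      match r, ih with
      | 0, _ => 
        rw [add_zero, pow_zero, one_mul]
        linarith
      | 1, _ => 
        rw [pow_one]
        linarith
      | 2, _ =>
        norm_num
        linarith
      | r + 3, ih =>
        have i1 := ih (r + 2) (by omega)
        have i2 := ih r (by omega)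
        have i3 := h3 (N + P * k + r)
        have i4 : (2 : ℝ) ^ (r + 3) * (C * (1 / 2) ^ k) =
            2 ^ (r + 2) * (C * (1 / 2) ^ k) + 4 * (2 ^ r * (C * (1 / 2) ^ k)) := by ring
        rw [i4]
        have i5 : 0 ≤ 2 ^ r * (C * (1 / 2) ^ k) := by positivity
        have i6 : N + P * k + (r + 3) = N + P * k + r + 3 := by omega
        have i7 : N + P * k + (r + 2) = N + P * k + r + 2 := by omega
        rw [i6]
        rw [i7] at i1
        linarith
  have hS : ∀ n, n < N → a n ≤ (∑ j ∈ Finset.range N, a j / q ^ j) * q ^ n := by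
    intro n hn
    have h5 : a n / q ^ n ≤ ∑ j ∈ Finset.range N, a j / q ^ j :=
      Finset.single_le_sum (f := fun j => a j / q ^ j)
        (fun j _ => div_nonneg (h0 j) (by positivity)) (Finset.mem_range.2 hn)
    rwa [div_le_iff₀ (by positivity)] at h5
  have hS0 : 0 ≤ ∑ j ∈ Finset.range N, a j / q ^ j :=
    Finset.sum_nonneg fun j _ => div_nonneg (h0 j) (by positivity)
  refine ⟨(∑ j ∈ Finset.range N, a j / q ^ j) + K * C / q ^ (N + P), q, hq0, hq1,
    fun n => ?_⟩
  rw [add_mul]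
  rcases lt_or_ge n N with hn | hn
  · have h6 : 0 ≤ K * C / q ^ (N + P) * q ^ n := by positivity
    linarith [hS n hn]
  · have h6 : 0 ≤ (∑ j ∈ Finset.range N, a j / q ^ j) * q ^ n := mul_nonneg hS0 (by positivity)
    obtain ⟨k, r, hr, rfl⟩ : ∃ k r, r < P ∧ n = N + P * k + r := by
      refine ⟨(n - N) / P, (n - N) % P, Nat.mod_lt _ hP0, ?_⟩
      have := Nat.div_add_mod (n - N) P
      omega
    have h7 := h4 k r
    have h8 : (2 : ℝ) ^ r ≤ K := hK r hr
    have h9 : (1 / 2 : ℝ) ^ k ≤ q ^ (P * k) := by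
      rw [pow_mul]
      exact pow_le_pow_left₀ (by norm_num) hq k
    have h10 : K * C / q ^ (N + P) * q ^ (N + P * k + r) =
        K * C * (q ^ (P * k) * (q ^ r / q ^ P)) := by
      rw [pow_add, pow_add, pow_add]
      have hqN : q ^ N ≠ 0 := by positivity
      have hq97 : q ^ P ≠ 0 := by positivity
      field_simp
    have h11 : 1 ≤ q ^ r / q ^ P := by
      rw [one_le_div (by positivity)]
      exact pow_le_pow_of_le_one hq0.le hq1.le hr.le
    have h12 : q ^ (P * k) ≤ q ^ (P * k) * (q ^ r / q ^ P) :=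
      le_mul_of_one_le_right (by positivity) h11
    rw [h10]
    have h13 : 2 ^ r * (C * (1 / 2) ^ k) ≤ K * C * (q ^ (P * k) * (q ^ r / q ^ P)) := by
      rw [← mul_assoc]
      exact mul_le_mul (mul_le_mul_of_nonneg_right h8 hC) (h9.trans h12) (by positivity)
        (by positivity)
    linarith

end St10aAux

variable [Par]

open St10aAux in
theorem st10a (hT : StT) (h7 : St7) (h8 : St8) : St10a := by
  intro y hy N hN
  have hz : IsSol (fun k => y (k + P)) := hy.shift P
  have eS : ∀ k, N + P * k + P = N + P * (k + 1) := fun k => by ring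
  have hL : ∀ k, Loopable y (N + P * k) := by
    intro k
    induction k with
    | zero => exact hN
    | succ k ih => exact eS k ▸ (h7 y hy _ ih).2.1
  have hLz : ∀ k, Loopable (fun k => y (k + P)) (N + P * k) := by
    intro k
    obtain ⟨⟨h1, h2, h3⟩, h4⟩ := hL (k + 1)
    have e0 : N + P * (k + 1) = N + P * k + P := by ring
    have e1 : N + P * (k + 1) + 1 = N + P * k + 1 + P := by ring
    have e2 : N + P * (k + 1) + 2 = N + P * k + 2 + P := by ring
    refine ⟨⟨?_, ?_, ?_⟩, ?_⟩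
    · rw [e0] at h1
      exact h1
    · rw [e1] at h2
      exact h2
    · rw [e2] at h3
      exact h3
    · unfold U at h4 ⊢
      rw [e2] at h4
      exact h4
  have hWz : ∀ k, W (fun k => y (k + P)) (N + P * k) = W y (N + P * (k + 1)) := by
    intro k
    have e2 : N + P * (k + 1) + 2 = N + P * k + 2 + P := by ring
    unfold W U
    rw [e2]
  have hB := B_pos
  have hW1 : ∀ k, B + y (N + P * k + 2) = B * W y (N + P * k) := by
    intro k
    unfold W U
    field_simp
  have h8' := fun k => h8 y _ hy hz (N + P * k) (hL k) (hLz k)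
  have h7' := fun k => h7 y hy (N + P * k) (hL k)
  simp only [eS] at h8' h7'
  have hT2 : (2 : ℝ) ≤ 1024 * 2 ^ K := by
    have : (1 : ℝ) ≤ 2 ^ K := one_le_pow₀ (by norm_num)
    linarith
  have hc1 : (1 : ℝ) ≤ 2 ^ 15 * 4 ^ K := by
    have : (1 : ℝ) ≤ 4 ^ K := one_le_pow₀ (by norm_num)
    norm_num
    linarith
  have hcd : 1024 * ((2 ^ 15 * 4 ^ K) * q ^ 100) ≤ (1 : ℝ) := by
    have g1 : (4 : ℝ) ^ K ≤ 16 ^ K := pow_le_pow_left₀ (by norm_num) (by norm_num) K
    have g2 := St8aux.sixteen_q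
    have g3 : (4 : ℝ) ^ K * q ^ 4 ≤ 1 := (mul_le_mul_of_nonneg_right g1 (qn_pos 4).le).trans g2
    have g4 := qn_le' 96
    have g5 : q ^ 100 = q ^ 96 * q ^ 4 := by rw [← pow_add]
    have g6 : 0 ≤ (4 : ℝ) ^ K * q ^ 4 := mul_nonneg (by positivity) (qn_pos _).le
    calc 1024 * ((2 ^ 15 * 4 ^ K) * q ^ 100) = (1024 * 2 ^ 15) * (q ^ 96 * (4 ^ K * q ^ 4)) := by
          rw [g5]; ring
      _ ≤ (1024 * 2 ^ 15) * (1 / 2 ^ 96 * 1) := by
          refine mul_le_mul_of_nonneg_left ?_ (by norm_num)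
          exact mul_le_mul g4 g3 g6 (by positivity)
      _ ≤ 1 := by norm_num
  obtain ⟨C, hC, hdec⟩ := regimes (fun k => RR y (fun k => y (k + P)) (N + P * k))
    (fun k => lam y (fun k => y (k + P)) (N + P * k)) (fun k => W y (N + P * k))
    (1024 * 2 ^ K) (2 ^ 15 * 4 ^ K) (q ^ 100) hT2 hc1 (qn_pos _).le hcd
    (fun k => by unfold lam; positivity) (fun k => (h8' k).1)
    (fun k h1 h2 => (h8' k).2.1 h1 (by rw [hWz]; exact h2))
    (fun k h1 h2 => (h8' k).2.2.1 h1 (by rw [hWz]; exact h2))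
    (fun k h1 h2 h3 h4 => (h8' k).2.2.2 h1 (by rw [hWz]; exact h2) h3 (by
      rw [hWz]
      exact h4))
    (fun k h1 => by
      have h2 := (h7' k).2.2.1 h1
      show W y (N + P * (k + 1)) ≤ 5 / 4
      unfold W U
      rw [div_le_iff₀ hB]
      have h3 : B * q ^ 150 ≤ B / 4 := by
        have g1 := qn_le' 150
        have g2 : q ^ 150 ≤ 1 / 4 := g1.trans (by norm_num)
        have g3 := mul_le_mul_of_nonneg_left g2 hB.le
        linarith
      linarith)
    (fun k h1 => (h7' k).2.2.2.1 h1)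
    (fun k h1 h2 h3 h4 => by
      have h5 : (fun k => y (k + P)) (N + P * k + 2) = y (N + P * (k + 1) + 2) := by
        show y (N + P * k + 2 + P) = _
        congr 1
        ring
      show |RR y (fun k => y (k + P)) (N + P * k)| ≤ 1
      unfold RR rho
      rw [h5, hW1, hW1, Real.log_mul hB.ne' (by linarith), Real.log_mul hB.ne' (by linarith)]
      have g1 := Real.log_le_sub_one_of_pos (by linarith : 0 < W y (N + P * k))
      have g2 := Real.log_le_sub_one_of_pos (by linarith : 0 < W y (N + P * (k + 1)))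
      have g3 := Real.log_nonneg (by linarith : 1 ≤ W y (N + P * k))
      have g4 := Real.log_nonneg (by linarith : 1 ≤ W y (N + P * (k + 1)))
      rw [abs_le]
      constructor <;> linarith)
  have hth : ∀ (u : ℕ → ℝ), IsSol u → ∀ n, 0 ≤ th u n ∧ th u n ≤ 1 := by
    intro u hu n
    have h1 := hu.pos n
    unfold th
    refine ⟨by positivity, ?_⟩
    rw [div_le_one (by positivity)]
    linarith
  refine fill P (by unfold P; omega) (fun n => |rho y (fun k => y (k + P)) n|) (fun n => abs_nonneg _) ?_ N C hC ?_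
  · intro n
    obtain ⟨θ, h1, h2, h3⟩ := hT y _ hy hz n
    have t1 := hth y hy (n + 3)
    have t2 := hth _ hz (n + 3)
    have h4 : 0 ≤ θ := (le_min t1.1 t2.1).trans h1
    have h5 : θ ≤ 1 := h2.trans (max_le t1.2 t2.2)
    rw [h3, abs_mul, abs_of_nonneg h4]
    calc θ * |rho y (fun k => y (k + P)) (n + 2) - rho y (fun k => y (k + P)) n|
        ≤ 1 * |rho y (fun k => y (k + P)) (n + 2) - rho y (fun k => y (k + P)) n| :=
          mul_le_mul_of_nonneg_right h5 (abs_nonneg _)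
      _ ≤ _ := by
          rw [one_mul]
          exact abs_sub _ _
  · intro k
    have h1 := hdec k
    unfold RR lam at h1
    linarith


end Pool.Agent.H61.RRk
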