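import Pool.Agent.H61.RRk.Defs

/-! MP_7a141f_an with parameters: from geometric decay to a periodic limit
(after `Pool.Graph.R_seed8.R611.RR.St10b`). -/

set_option linter.unusedSectionVars false

namespace Pool.Agent.H61.RRk

open Filter Topology

variable [Par]

theorem P_ge : 97 ≤ P := by unfold P; omega

theorem st10b : St10b := by
  intro y hy ⟨C, q₁, hq0, hq1, hC⟩
  set L : ℕ → ℝ := fun n => Real.log (B + y n) with hL
  have hu : ∀ n, 0 < B + y n := fun n => add_pos B_pos (hy.pos n)
  have hP : 0 < P := by have := P_ge; omega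
  have hq97 : q₁ ^ P < 1 := pow_lt_one₀ hq0.le hq1 hP.ne'
  have hq97' : 0 < 1 - q₁ ^ P := by linarith
  have hC' : ∀ n, |L (n + P) - L n| ≤ C * q₁ ^ n := fun n => hC n
  have hstep : ∀ n k, dist (L (n + P * k)) (L (n + P * (k + 1))) ≤ (C * q₁ ^ n) * (q₁ ^ P) ^ k := by
    intro n k
    have h1 := hC' (n + P * k)
    have e : n + P * (k + 1) = n + P * k + P := by ring
    rw [e, Real.dist_eq, abs_sub_comm]
    refine h1.trans (le_of_eq ?_)
    rw [pow_add, pow_mul]; ring
  have hlim : ∀ n, ∃ l, Tendsto (fun k => L (n + P * k)) atTop (𝓝 l) := fun n =>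
    cauchySeq_tendsto_of_complete (cauchySeq_of_le_geometric (q₁ ^ P) (C * q₁ ^ n) hq97 (hstep n))
  choose l hl using hlim
  have hbd : ∀ n, |L n - l n| ≤ (C * q₁ ^ n) / (1 - q₁ ^ P) := by
    intro n
    have h1 := dist_le_of_le_geometric_of_tendsto₀ (q₁ ^ P) (C * q₁ ^ n) hq97 (hstep n) (hl n)
    simpa [Real.dist_eq] using h1
  have hper : ∀ n, l (n + P) = l n := by
    intro n
    have h1 : Tendsto (fun k => L (n + P * (k + 1))) atTop (𝓝 (l n)) :=
      (hl n).comp (tendsto_add_atTop_nat 1)
    have h2 := hl (n + P)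
    have e : (fun k => L (n + P * (k + 1))) = fun k => L (n + P + P * k) := by
      funext k; congr 1; ring
    rw [e] at h1
    exact tendsto_nhds_unique h2 h1
  have hexp : ∀ n, Real.exp (L n) = B + y n := fun n => Real.exp_log (hu n)
  have hlimu : ∀ n, Tendsto (fun k => B + y (n + P * k)) atTop (𝓝 (Real.exp (l n))) := by
    intro n
    have h1 : Tendsto (fun k => Real.exp (L (n + P * k))) atTop (𝓝 (Real.exp (l n))) :=
      (Real.continuous_exp.tendsto _).comp (hl n)
    simpa only [hexp] using h1
  set p : ℕ → ℝ := fun n => Real.exp (l n) - B with hp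
  have hBp : ∀ n, B + p n = Real.exp (l n) := fun n => by simp only [hp]; ring
  have hlimy : ∀ n, Tendsto (fun k => y (n + P * k)) atTop (𝓝 (p n)) := by
    intro n
    have h1 := (hlimu n).sub_const B
    simpa only [add_sub_cancel_left] using h1
  have hrec : ∀ n, p (n + 3) = (B + p (n + 2)) / (B + p n) := by
    intro n
    have h1 := hlimy (n + 3)
    have h2 : Tendsto (fun k => (B + y (n + 2 + P * k)) / (B + y (n + P * k))) atTop
        (𝓝 (Real.exp (l (n + 2)) / Real.exp (l n))) :=
      (hlimu (n + 2)).div (hlimu n) (Real.exp_pos _).ne'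
    have e : (fun k => y (n + 3 + P * k))
        = fun k => (B + y (n + 2 + P * k)) / (B + y (n + P * k)) := by
      funext k
      have h3 := hy.step (n + P * k)
      have e1 : n + P * k + 3 = n + 3 + P * k := by ring
      have e2 : n + P * k + 2 = n + 2 + P * k := by ring
      rw [e1, e2] at h3
      exact h3
    rw [e] at h1
    rw [hBp, hBp]
    exact tendsto_nhds_unique h1 h2
  have hpper : ∀ n, p (n + P) = p n := fun n => by simp only [hp, hper n]
  have hppos : ∀ n, 0 < p n := by
    intro n
    rw [← hpper n]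
    have e : n + P = n + (P - 3) + 3 := by have := P_ge; omega
    rw [e, hrec, hBp, hBp]
    positivity
  refine ⟨p, ⟨hppos, hrec⟩, hpper, ?_⟩
  -- bound of `exp (l n)`
  have hlper : Function.Periodic l P := hper
  obtain ⟨M, hM⟩ : ∃ M : ℝ, ∀ n, Real.exp (l n) ≤ M := by
    refine ⟨∑ i ∈ Finset.range P, Real.exp (l i), fun n => ?_⟩
    rw [← hlper.map_mod_nat n]
    exact Finset.single_le_sum (f := fun i => Real.exp (l i)) (fun i _ => (Real.exp_pos _).le)
      (Finset.mem_range.2 (Nat.mod_lt _ hP))
  have hdiff : Tendsto (fun n => L n - l n) atTop (𝓝 0) := by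
    have h1 : Tendsto (fun n => (C * q₁ ^ n) / (1 - q₁ ^ P)) atTop (𝓝 0) := by
      have := ((tendsto_pow_atTop_nhds_zero_of_lt_one hq0.le hq1).const_mul C).div_const (1 - q₁ ^ P)
      simpa using this
    exact squeeze_zero_norm (fun n => by simpa [Real.norm_eq_abs] using hbd n) h1
  have hed : Tendsto (fun n => Real.exp (L n - l n) - 1) atTop (𝓝 0) := by
    have h1 : Tendsto (fun n => Real.exp (L n - l n)) atTop (𝓝 (Real.exp 0)) :=
      (Real.continuous_exp.tendsto 0).comp hdiff
    have h2 := h1.sub_const 1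
    simpa using h2
  have hM' : Tendsto (fun n => M * |Real.exp (L n - l n) - 1|) atTop (𝓝 0) := by
    have h1 := hed.abs.const_mul M
    simpa using h1
  refine squeeze_zero_norm (fun n => ?_) hM'
  have e : y n - p n = Real.exp (l n) * (Real.exp (L n - l n) - 1) := by
    have h1 : Real.exp (l n) * Real.exp (L n - l n) = Real.exp (L n) := by
      rw [← Real.exp_add]; congr 1; ring
    have h2 := hexp n
    have h3 := hBp n
    nlinarith [h1, h2, h3]
  rw [Real.norm_eq_abs, e, abs_mul, abs_of_pos (Real.exp_pos _)]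
  exact mul_le_mul_of_nonneg_right (hM n) (abs_nonneg _)


end Pool.Agent.H61.RRk
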