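import Pool.Agent.H61.RRk.Defs

/-! MP_7a141f_an with parameters: variation over a type i cycle
(after `Pool.Graph.R_seed8.R193.RR.St5`). -/

namespace Pool.Agent.H61.RRk

open Filter Topology

set_option linter.unusedSectionVars false

variable [Par]

theorem st5_th_nonneg {y : ℕ → ℝ} (h : IsSol y) (n : ℕ) : 0 ≤ th y n := by
  unfold th
  exact div_nonneg (h.pos n).le (add_nonneg B_pos.le (h.pos n).le)

theorem st5_th_le_one {y : ℕ → ℝ} (h : IsSol y) (n : ℕ) : th y n ≤ 1 := by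
  unfold th
  rw [div_le_one (add_pos B_pos (h.pos n))]
  linarith [B_pos]

theorem st5_th_small {y : ℕ → ℝ} (h : IsSol y) (n : ℕ) (hn : y n ≤ B * q ^ 200) :
    th y n ≤ q ^ 200 := by
  unfold th
  have h1 : y n / (B + y n) ≤ y n / B :=
    div_le_div_of_nonneg_left (h.pos n).le B_pos (by linarith [h.pos n])
  have h2 : y n / B ≤ q ^ 200 := by
    rw [div_le_iff₀ B_pos]
    calc y n ≤ B * q ^ 200 := hn
      _ = q ^ 200 * B := by ring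
  exact h1.trans h2

theorem st5_mul (θ x X : ℝ) (h0 : 0 ≤ θ) (h1 : θ ≤ 1) (hx : |x| ≤ X) : |θ * x| ≤ X := by
  rw [abs_mul, abs_of_nonneg h0]
  have := mul_le_mul_of_nonneg_right h1 (abs_nonneg x)
  linarith

theorem st5_mul2 (θ x X κ : ℝ) (h0 : 0 ≤ θ) (h1 : θ ≤ κ) (hx : |x| ≤ X) : |θ * x| ≤ κ * X := by
  rw [abs_mul, abs_of_nonneg h0]
  exact mul_le_mul h1 hx (abs_nonneg x) (h0.trans h1)

theorem st5_err (θ x X τ : ℝ) (hτ : 1 - τ ≤ θ) (h1 : θ ≤ 1) (hx : |x| ≤ X) :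
    |θ * x - x| ≤ τ * X := by
  have e : θ * x - x = -((1 - θ) * x) := by ring
  rw [e, abs_neg]
  exact st5_mul2 _ _ _ _ (by linarith) (by linarith) hx

theorem st5_sub (x y X Y : ℝ) (hx : |x| ≤ X) (hy : |y| ≤ Y) : |x - y| ≤ X + Y := by
  have := abs_sub x y
  linarith

/-- the linear algebra of the cycle -/
theorem st5_alg (a b R s3 s4 s5 s6 s7 s8 s9 θ3 θ4 θ5 θ6 θ7 θ8 θ9 τ κ : ℝ)
    (hτ3 : 1 - τ ≤ θ3) (hτ4 : 1 - τ ≤ θ4) (hτ5 : 1 - τ ≤ θ5) (hτ6 : 1 - τ ≤ θ6)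
    (a3 : 0 ≤ θ3) (a4 : 0 ≤ θ4) (a5 : 0 ≤ θ5) (a6 : 0 ≤ θ6) (a7 : 0 ≤ θ7) (a8 : 0 ≤ θ8)
    (a9 : 0 ≤ θ9)
    (b3 : θ3 ≤ 1) (b4 : θ4 ≤ 1) (b5 : θ5 ≤ 1) (b6 : θ6 ≤ 1) (b7 : θ7 ≤ 1) (b8 : θ8 ≤ 1)
    (hκ8 : θ8 ≤ κ) (hκ9 : θ9 ≤ κ)
    (r3 : s3 = θ3 * (R - a)) (r4 : s4 = θ4 * (s3 - b)) (r5 : s5 = θ5 * (s4 - R))
    (r6 : s6 = θ6 * (s5 - s3)) (r7 : s7 = θ7 * (s6 - s4)) (r8 : s8 = θ8 * (s7 - s5))
    (r9 : s9 = θ9 * (s8 - s6)) :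
    |s8| ≤ κ * (6 * (|R| + (|a| + |b|))) ∧ |s9| ≤ κ * (9 * (|R| + (|a| + |b|))) ∧
      |s6 - s4 + 2 * R| ≤ |a| + τ * (6 * (|R| + (|a| + |b|))) := by
  have ha := abs_nonneg a
  have hb := abs_nonneg b
  obtain ⟨S, hS⟩ : ∃ S, S = |R| + (|a| + |b|) := ⟨_, rfl⟩
  rw [← hS]
  have x3' : |R - a| ≤ |R| + |a| := abs_sub _ _
  have x3 : |R - a| ≤ S := x3'.trans (by linarith)
  have m3' : |s3| ≤ |R| + |a| := r3 ▸ st5_mul _ _ _ a3 b3 x3'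
  have m3 : |s3| ≤ S := m3'.trans (by linarith)
  have e3 : |s3 - (R - a)| ≤ τ * S := r3 ▸ st5_err _ _ _ _ hτ3 b3 x3
  have x4 : |s3 - b| ≤ S := (st5_sub _ _ _ _ m3' le_rfl).trans (by linarith)
  have m4 : |s4| ≤ S := r4 ▸ st5_mul _ _ _ a4 b4 x4
  have x5 : |s4 - R| ≤ 2 * S := (st5_sub _ _ _ _ m4 le_rfl).trans (by linarith)
  have m5 : |s5| ≤ 2 * S := r5 ▸ st5_mul _ _ _ a5 b5 x5
  have e5 : |s5 - (s4 - R)| ≤ τ * (2 * S) := r5 ▸ st5_err _ _ _ _ hτ5 b5 x5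
  have x6 : |s5 - s3| ≤ 3 * S := (st5_sub _ _ _ _ m5 m3).trans (by linarith)
  have m6 : |s6| ≤ 3 * S := r6 ▸ st5_mul _ _ _ a6 b6 x6
  have e6 : |s6 - (s5 - s3)| ≤ τ * (3 * S) := r6 ▸ st5_err _ _ _ _ hτ6 b6 x6
  have x7 : |s6 - s4| ≤ 4 * S := (st5_sub _ _ _ _ m6 m4).trans (by linarith)
  have m7 : |s7| ≤ 4 * S := r7 ▸ st5_mul _ _ _ a7 b7 x7
  have x8 : |s7 - s5| ≤ 6 * S := (st5_sub _ _ _ _ m7 m5).trans (by linarith)
  have m8 : |s8| ≤ κ * (6 * S) := r8 ▸ st5_mul2 _ _ _ _ a8 hκ8 x8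
  have m8' : |s8| ≤ 6 * S := r8 ▸ st5_mul _ _ _ a8 b8 x8
  have x9 : |s8 - s6| ≤ 9 * S := (st5_sub _ _ _ _ m8' m6).trans (by linarith)
  have m9 : |s9| ≤ κ * (9 * S) := r9 ▸ st5_mul2 _ _ _ _ a9 hκ9 x9
  refine ⟨m8, m9, ?_⟩
  have ha1 := le_abs_self a
  have ha2 := neg_abs_le a
  clear m8 m9 x9 m8' x8 m7 x7 m6 x6 m5 x5 m4 x4 m3 m3' x3 x3'
  rw [abs_le] at e3 e5 e6 ⊢
  constructor <;> linarith [e3.1, e3.2, e5.1, e5.2, e6.1, e6.2]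

theorem st5 (hT : StT) (h3 : St3) : St5 := by
  intro y z hy hz N hdy hdz hUy hUz
  obtain ⟨y3, y4, y5, y6, y7, yD, -, -⟩ := h3 y hy N hdy hUy
  obtain ⟨z3, z4, z5, z6, z7, zD, -, -⟩ := h3 z hz N hdz hUz
  -- the coefficients
  have coef : ∀ n, ∃ θ : ℝ, 0 ≤ θ ∧ θ ≤ 1 ∧ min (th y (n + 3)) (th z (n + 3)) ≤ θ ∧
      θ ≤ max (th y (n + 3)) (th z (n + 3)) ∧
      rho y z (n + 3) = θ * (rho y z (n + 2) - rho y z n) := by
    intro n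
    obtain ⟨θ, a, b, c⟩ := hT y z hy hz n
    exact ⟨θ, (le_min (st5_th_nonneg hy _) (st5_th_nonneg hz _)).trans a,
      b.trans (max_le (st5_th_le_one hy _) (st5_th_le_one hz _)), a, b, c⟩
  obtain ⟨θ3, a3, b3, c3, -, r3⟩ := coef N
  obtain ⟨θ4, a4, b4, c4, -, r4⟩ := coef (N + 1)
  obtain ⟨θ5, a5, b5, c5, -, r5⟩ := coef (N + 2)
  obtain ⟨θ6, a6, b6, c6, -, r6⟩ := coef (N + 3)
  obtain ⟨θ7, a7, b7, c7, -, r7⟩ := coef (N + 4)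
  obtain ⟨θ8, a8, b8, -, d8, r8⟩ := coef (N + 5)
  obtain ⟨θ9, a9, b9, -, d9, r9⟩ := coef (N + 6)
  obtain ⟨θ10, a10, b10, c10, d10, r10⟩ := coef (N + 7)
  have hτ3 : 1 - tau ≤ θ3 := (le_min y3 z3).trans c3
  have hτ4 : 1 - tau ≤ θ4 := (le_min y4 z4).trans c4
  have hτ5 : 1 - tau ≤ θ5 := (le_min y5 z5).trans c5
  have hτ6 : 1 - tau ≤ θ6 := (le_min y6 z6).trans c6
  have hκ8 : θ8 ≤ q ^ 200 :=
    d8.trans (max_le (st5_th_small hy _ yD.1) (st5_th_small hz _ zD.1))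
  have hκ9 : θ9 ≤ q ^ 200 :=
    d9.trans (max_le (st5_th_small hy (N + 8 + 1) yD.2.1) (st5_th_small hz (N + 8 + 1) zD.2.1))
  obtain ⟨m8, m9, e2⟩ := st5_alg (rho y z N) (rho y z (N + 1)) (rho y z (N + 2))
    (rho y z (N + 3)) (rho y z (N + 4)) (rho y z (N + 5)) (rho y z (N + 6)) (rho y z (N + 7))
    (rho y z (N + 8)) (rho y z (N + 9)) θ3 θ4 θ5 θ6 θ7 θ8 θ9 tau (q ^ 200)
    hτ3 hτ4 hτ5 hτ6 a3 a4 a5 a6 a7 a8 a9 b3 b4 b5 b6 b7 b8 hκ8 hκ9 r3 r4 r5 r6 r7 r8 r9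
  have hlam : lam y z (N + 8) = |rho y z (N + 8)| + |rho y z (N + 9)| := rfl
  have hlam0 : lam y z N = |rho y z N| + |rho y z (N + 1)| := rfl
  have hRR : RR y z N = rho y z (N + 2) := rfl
  have hRR8 : RR y z (N + 8) = rho y z (N + 10) := rfl
  rw [hlam, hlam0, hRR, hRR8]
  have e1 : rho y z (N + 10) - θ10 * (2 * θ7) * rho y z (N + 2) =
      θ10 * (rho y z (N + 9) - θ7 * (rho y z (N + 6) - rho y z (N + 4) + 2 * rho y z (N + 2))) := by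
    have r10' : rho y z (N + 10) = θ10 * (rho y z (N + 9) - rho y z (N + 7)) := r10
    have r7' : rho y z (N + 7) = θ7 * (rho y z (N + 6) - rho y z (N + 4)) := r7
    rw [r10', r7']
    ring
  obtain ⟨S, hS⟩ : ∃ S, S = |rho y z (N + 2)| + (|rho y z N| + |rho y z (N + 1)|) := ⟨_, rfl⟩
  rw [← hS] at m8 m9 e2
  have ha := abs_nonneg (rho y z N)
  have hb := abs_nonneg (rho y z (N + 1))
  have hS0 : 0 ≤ S := by rw [hS]; positivity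
  refine ⟨?_, 2 * θ7, θ10, by linarith, by linarith, ?_, c10, d10, ?_⟩
  · rw [← hS]
    have h2 : q ^ 200 * (6 * S) + q ^ 200 * (9 * S) ≤ q ^ 140 * S := by
      have h1 : 15 * q ^ 200 ≤ q ^ 140 := qn_mul_le 140 60 (by norm_num)
      have h2 := mul_le_mul_of_nonneg_right h1 hS0
      linarith
    exact (add_le_add m8 m9).trans h2
  · intro M hM1 hM2
    have hUy0 : 0 < U y N := lt_of_lt_of_le (qn_pos _) hUy
    have hUz0 : 0 < U z N := lt_of_lt_of_le (qn_pos _) hUz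
    have h1 : ∀ V : ℝ, 0 < V → V ≤ M → (1 - tau) / (1 + M ^ 2) ≤ (1 - tau) / (1 + V ^ 2) := by
      intro V hV hVM
      have h2 : V ^ 2 ≤ M ^ 2 := pow_le_pow_left₀ hV.le hVM 2
      refine div_le_div_of_nonneg_left ?_ (by positivity) (by linarith)
      linarith [qn_le_one 150, show tau = q ^ 150 from rfl]
    have h2 : (1 - tau) / (1 + M ^ 2) ≤ θ7 :=
      (le_min ((h1 _ hUy0 hM1).trans y7) ((h1 _ hUz0 hM2).trans z7)).trans c7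
    have h3 : (1 - 1 / 2 ^ 100) * (2 / (1 + M ^ 2)) ≤ 2 * ((1 - tau) / (1 + M ^ 2)) := by
      have h4 : 2 * ((1 - tau) / (1 + M ^ 2)) = (1 - tau) * (2 / (1 + M ^ 2)) := by ring
      rw [h4]
      refine mul_le_mul_of_nonneg_right ?_ (by positivity)
      have h5 := tau_le
      norm_num at h5 ⊢
      linarith
    exact h3.trans (mul_le_mul_of_nonneg_left h2 (by norm_num))
  · rw [e1, abs_mul, abs_of_nonneg a10]
    refine mul_le_mul_of_nonneg_left ?_ a10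
    have e7 := st5_mul θ7 _ _ a7 b7 e2
    have e8 := st5_sub _ _ _ _ m9 e7
    have ht : tau * (6 * S) ≤ 1 / 2 ^ 120 * (6 * S) := by
      refine mul_le_mul_of_nonneg_right ?_ (by positivity)
      have h5 := tau_le
      norm_num at h5 ⊢
      linarith
    have e9 : q ^ 200 * (9 * S) + 1 / 2 ^ 120 * (6 * S) ≤ 1 / 2 ^ 100 * S := by
      have h0 : q ^ 200 ≤ 1 / 2 ^ 200 := qn_le' 200
      have h1 : q ^ 200 * 9 + 1 / 2 ^ 120 * 6 ≤ 1 / 2 ^ 100 := by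
        norm_num at h0 ⊢
        linarith
      have h2 := mul_le_mul_of_nonneg_right h1 hS0
      linarith
    have e10 : (1 : ℝ) / 2 ^ 100 * S ≤
        (|rho y z N| + |rho y z (N + 1)|) + 1 / 2 ^ 100 * |rho y z (N + 2)| := by
      rw [hS, mul_add]
      have h1 : (1 : ℝ) / 2 ^ 100 ≤ 1 := by norm_num
      have h2 := mul_le_mul_of_nonneg_right h1 (add_nonneg ha hb)
      linarith
    refine e8.trans ?_
    clear e8 e7 e2 m8 m9 r3 r4 r5 r6 r7 r8 r9 r10 e1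
    linarith


end Pool.Agent.H61.RRk
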