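import Pool.Agent.H61.RRk.Defs

/-! MP_7a141f_an with parameters: variation over a type ii cycle
(after `Pool.Graph.R_seed8.R466.RR.St6`). -/

set_option linter.unusedSectionVars false

namespace Pool.Agent.H61.RRk

variable [Par]

namespace Six

/-- one step with coefficient close to one: `r = θ x`, `1 - e ≤ θ ≤ 1`. -/
theorem step_close {e θ x r S : ℝ} (h1 : 1 - e ≤ θ) (h2 : θ ≤ 1) (hr : r = θ * x)
    (hx : |x| ≤ S) : |r - x| ≤ e * S ∧ |r| ≤ |x| + e * S := by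
  have hS : 0 ≤ S := le_trans (abs_nonneg _) hx
  have h : |r - x| ≤ e * S := by
    rw [hr]
    have : θ * x - x = -((1 - θ) * x) := by ring
    rw [this, abs_neg, abs_mul, abs_of_nonneg (by linarith : (0:ℝ) ≤ 1 - θ)]
    have h3 : 1 - θ ≤ e := by linarith
    have he : 0 ≤ e := by linarith
    exact mul_le_mul h3 hx (abs_nonneg _) he
  refine ⟨h, ?_⟩
  have := abs_sub_abs_le_abs_sub r x
  linarith

theorem th_le_one {y : ℕ → ℝ} (hy : IsSol y) (n : ℕ) : th y n ≤ 1 := by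
  unfold th
  have h1 := hy.pos n
  have h2 := B_pos
  rw [div_le_one (by linarith)]
  linarith

theorem th_nonneg {y : ℕ → ℝ} (hy : IsSol y) (n : ℕ) : 0 ≤ th y n := by
  unfold th
  have h1 := hy.pos n
  have h2 := B_pos
  exact div_nonneg h1.le (by linarith)

theorem th_small {y : ℕ → ℝ} (hy : IsSol y) (n : ℕ) (h : y n ≤ B * q ^ 200) :
    th y n ≤ q ^ 200 := by
  unfold th
  have h1 := hy.pos n
  have h2 := B_pos
  rw [div_le_iff₀ (by linarith)]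
  have h3 := mul_pos (qn_pos 200) h1
  linarith

theorem W_pos {y : ℕ → ℝ} (hy : IsSol y) (n : ℕ) : 0 < W y n := by
  unfold W U
  have h1 := hy.pos (n + 2)
  have h2 := B_pos
  exact div_pos (by linarith) h2

set_option maxHeartbeats 4000000 in
/-- the linear algebra of one type ii cycle -/
theorem core {a b R r2 r3 r4 r5 r6 r7 r8 r9 r10 t2 t3 t4 t5 t6 t7 t8 t9 t10 τ κ ε : ℝ}
    (hε : 16 * κ + 50 * τ + 2 * τ ≤ ε) (hε1 : ε ≤ 1) (hτ0 : 0 ≤ τ) (hκ0 : 0 ≤ κ) (hτ1 : τ ≤ 1 / 2 ^ 150) (hκ1 : κ ≤ 1 / 2 ^ 200)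
    (l2 : 1 - τ ≤ t2) (u2 : t2 ≤ 1) (e2 : r2 = t2 * (R - a))
    (l3 : 1 - τ ≤ t3) (u3 : t3 ≤ 1) (e3 : r3 = t3 * (r2 - b))
    (l4 : 1 - τ ≤ t4) (u4 : t4 ≤ 1) (e4 : r4 = t4 * (r3 - R))
    (l5 : 1 - τ ≤ t5) (u5 : t5 ≤ 1) (e5 : r5 = t5 * (r4 - r2))
    (l6 : 1 - τ ≤ t6) (u6 : t6 ≤ 1) (e6 : r6 = t6 * (r5 - r3))
    (l7 : 0 ≤ t7) (u7 : t7 ≤ 1) (e7 : r7 = t7 * (r6 - r4))
    (l8 : 0 ≤ t8) (u8 : t8 ≤ κ) (e8 : r8 = t8 * (r7 - r5))
    (l9 : 0 ≤ t9) (u9 : t9 ≤ κ) (e9 : r9 = t9 * (r8 - r6))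
    (l10 : 1 - τ ≤ t10) (u10 : t10 ≤ 1) (e10 : r10 = t10 * (r9 - r7)) :
    |r8| + |r9| ≤ 24 * κ * (|R| + (|a| + |b|)) ∧
    |r10 - 2 * t7 * R| ≤ 8 * (|a| + |b|) + ε * |R| := by
  obtain ⟨S, hS⟩ : ∃ S : ℝ, S = |R| + |a| + |b| := ⟨_, rfl⟩
  have hR0 := abs_nonneg R
  have ha0 := abs_nonneg a
  have hb0 := abs_nonneg b
  have hS0 : 0 ≤ S := by rw [hS]; positivity
  have hτS : 0 ≤ τ * S := mul_nonneg hτ0 hS0
  have hτS1 : τ * S ≤ S := by
    have : τ ≤ 1 := le_trans hτ1 (by norm_num)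
    calc τ * S ≤ 1 * S := mul_le_mul_of_nonneg_right this hS0
      _ = S := one_mul S
  have hτS2 : 100 * (τ * S) ≤ S := by
    have : 100 * τ ≤ 1 := by
      have : (1:ℝ) / 2 ^ 150 ≤ 1 / 100 := by norm_num
      linarith
    calc 100 * (τ * S) = (100 * τ) * S := by ring
      _ ≤ 1 * S := mul_le_mul_of_nonneg_right this hS0
      _ = S := one_mul S
  -- step 2
  have x2 : |R - a| ≤ S := by
    have := abs_sub R a
    rw [hS]; linarith [abs_sub R a]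
  obtain ⟨d2, -⟩ := step_close l2 u2 e2 x2
  have d2' := abs_le.1 d2
  have aR := abs_le.1 (le_refl |R|)
  have aa := abs_le.1 (le_refl |a|)
  have ab := abs_le.1 (le_refl |b|)
  -- step 3
  have x3 : |r2 - b| ≤ 2 * S := by
    rw [abs_le]; constructor <;> linarith [aR.1, aR.2, aa.1, aa.2, ab.1, ab.2, d2'.1, d2'.2]
  obtain ⟨d3, -⟩ := step_close l3 u3 e3 x3
  have d3' := abs_le.1 d3
  -- step 4
  have x4 : |r3 - R| ≤ 2 * S := by
    rw [abs_le]; constructor <;>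
      linarith [aR.1, aR.2, aa.1, aa.2, ab.1, ab.2, d2'.1, d2'.2, d3'.1, d3'.2]
  obtain ⟨d4, -⟩ := step_close l4 u4 e4 x4
  have d4' := abs_le.1 d4
  -- step 5
  have x5 : |r4 - r2| ≤ 2 * S := by
    rw [abs_le]; constructor <;>
      linarith [aR.1, aR.2, aa.1, aa.2, ab.1, ab.2, d2'.1, d2'.2, d3'.1, d3'.2, d4'.1, d4'.2]
  obtain ⟨d5, -⟩ := step_close l5 u5 e5 x5
  have d5' := abs_le.1 d5
  -- step 6
  have x6 : |r5 - r3| ≤ 3 * S := by
    rw [abs_le]; constructor <;>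
      linarith [aR.1, aR.2, aa.1, aa.2, ab.1, ab.2, d2'.1, d2'.2, d3'.1, d3'.2, d4'.1, d4'.2,
        d5'.1, d5'.2]
  obtain ⟨d6, -⟩ := step_close l6 u6 e6 x6
  have d6' := abs_le.1 d6
  -- step 7
  have x7 : |(r6 - r4) - (-2 * R + 2 * a + b)| ≤ 50 * (τ * S) := by
    rw [abs_le]; constructor <;>
      linarith [d2'.1, d2'.2, d3'.1, d3'.2, d4'.1, d4'.2, d5'.1, d5'.2, d6'.1, d6'.2]
  have x7' := abs_le.1 x7
  have x7b : |r6 - r4| ≤ 4 * S := by
    rw [abs_le]; constructor <;>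
      linarith [aR.1, aR.2, aa.1, aa.2, ab.1, ab.2, x7'.1, x7'.2]
  have r7b : |r7| ≤ 4 * S := by
    rw [e7, abs_mul, abs_of_nonneg l7]
    calc t7 * |r6 - r4| ≤ 1 * |r6 - r4| := by gcongr
      _ ≤ 4 * S := by linarith
  have r7b' := abs_le.1 r7b
  have x8 : |r7 - r5| ≤ 8 * S := by
    rw [abs_le]; constructor <;>
      linarith [aR.1, aR.2, aa.1, aa.2, ab.1, ab.2, d2'.1, d2'.2, d3'.1, d3'.2, d4'.1, d4'.2,
        d5'.1, d5'.2, r7b'.1, r7b'.2]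
  have hκ : κ ≤ 1 := le_trans hκ1 (by norm_num)
  have r8b : |r8| ≤ κ * (8 * S) := by
    rw [e8, abs_mul, abs_of_nonneg l8]
    exact mul_le_mul u8 x8 (abs_nonneg _) hκ0
  have r8c : |r8| ≤ 8 * S := by
    refine r8b.trans ?_
    calc κ * (8 * S) ≤ 1 * (8 * S) := mul_le_mul_of_nonneg_right hκ (by positivity)
      _ = 8 * S := one_mul _
  have r8c' := abs_le.1 r8c
  have x9 : |r8 - r6| ≤ 16 * S := by
    rw [abs_le]; constructor <;>
      linarith [aR.1, aR.2, aa.1, aa.2, ab.1, ab.2, d2'.1, d2'.2, d3'.1, d3'.2, d4'.1, d4'.2,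
        d5'.1, d5'.2, d6'.1, d6'.2, r8c'.1, r8c'.2]
  have r9b : |r9| ≤ κ * (16 * S) := by
    rw [e9, abs_mul, abs_of_nonneg l9]
    exact mul_le_mul u9 x9 (abs_nonneg _) hκ0
  have hκS : κ * S ≤ 1 / 2 ^ 200 * S := mul_le_mul_of_nonneg_right hκ1 hS0
  have hτS3 : τ * S ≤ 1 / 2 ^ 150 * S := mul_le_mul_of_nonneg_right hτ1 hS0
  constructor
  · have : |r8| + |r9| ≤ 24 * (κ * S) := by linarith
    have e : |R| + (|a| + |b|) = S := by rw [hS]; ring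
    rw [e]
    linarith
  · -- r10 - 2 t7 R = t10 r9 - t10 t7 (r6 - r4) - 2 t7 R
    have t10n : 0 ≤ t10 := by
      have : (1:ℝ) / 2 ^ 150 ≤ 1 := by norm_num
      linarith
    have key : r10 - 2 * t7 * R = t10 * r9 - t10 * t7 * ((r6 - r4) - (-2 * R + 2 * a + b))
        - t10 * t7 * (2 * a + b) - (1 - t10) * (2 * t7 * R) := by
      rw [e10, e7]; ring
    have q1 : |t10 * r9| ≤ 16 * (κ * S) := by
      rw [abs_mul, abs_of_nonneg t10n]
      calc t10 * |r9| ≤ 1 * |r9| := by gcongr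
        _ ≤ 16 * (κ * S) := by linarith
    have tt : t10 * t7 ≤ 1 := mul_le_one₀ u10 l7 u7
    have tt0 : 0 ≤ t10 * t7 := mul_nonneg t10n l7
    have q2 : |t10 * t7 * ((r6 - r4) - (-2 * R + 2 * a + b))| ≤ 50 * (τ * S) := by
      rw [abs_mul, abs_of_nonneg tt0]
      calc t10 * t7 * |(r6 - r4) - (-2 * R + 2 * a + b)|
          ≤ 1 * |(r6 - r4) - (-2 * R + 2 * a + b)| := by gcongr
        _ ≤ 50 * (τ * S) := by linarith
    have q3 : |t10 * t7 * (2 * a + b)| ≤ 2 * |a| + |b| := by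
      rw [abs_mul, abs_of_nonneg tt0]
      have : |2 * a + b| ≤ 2 * |a| + |b| := by
        calc |2 * a + b| ≤ |2 * a| + |b| := abs_add_le _ _
          _ = 2 * |a| + |b| := by rw [abs_mul]; norm_num
      calc t10 * t7 * |2 * a + b| ≤ 1 * |2 * a + b| := by gcongr
        _ ≤ 2 * |a| + |b| := by linarith
    have q4 : |(1 - t10) * (2 * t7 * R)| ≤ 2 * (τ * S) := by
      rw [abs_mul, abs_of_nonneg (by linarith : (0:ℝ) ≤ 1 - t10), abs_mul, abs_mul,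
        abs_of_nonneg l7, abs_of_nonneg (by norm_num : (0:ℝ) ≤ 2)]
      have h1 : 2 * t7 * |R| ≤ 2 * S := by
        have : t7 * |R| ≤ 1 * |R| := by gcongr
        have hRS : |R| ≤ S := by rw [hS]; linarith
        linarith
      have h2 : 1 - t10 ≤ τ := by linarith
      calc (1 - t10) * (2 * t7 * |R|) ≤ τ * (2 * S) := mul_le_mul h2 h1 (by positivity) hτ0
        _ = 2 * (τ * S) := by ring
    have tri : |r10 - 2 * t7 * R| ≤ 16 * (κ * S) + 50 * (τ * S) + (2 * |a| + |b|)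
        + 2 * (τ * S) := by
      rw [key]
      have q1' := abs_le.1 q1
      have q2' := abs_le.1 q2
      have q3' := abs_le.1 q3
      have q4' := abs_le.1 q4
      rw [abs_le]
      constructor <;> linarith [q1'.1, q1'.2, q2'.1, q2'.2, q3'.1, q3'.2, q4'.1, q4'.2]
    have fin1 : 16 * (κ * S) + 50 * (τ * S) + 2 * (τ * S) ≤ ε * S := by
      calc 16 * (κ * S) + 50 * (τ * S) + 2 * (τ * S) = (16 * κ + 50 * τ + 2 * τ) * S := by ring
        _ ≤ ε * S := mul_le_mul_of_nonneg_right hε hS0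
    have fin2 : ε * S ≤ ε * |R| + (|a| + |b|) := by
      have h2 : ε * (|a| + |b|) ≤ 1 * (|a| + |b|) :=
        mul_le_mul_of_nonneg_right hε1 (by positivity)
      calc ε * S = ε * |R| + ε * (|a| + |b|) := by rw [hS]; ring
        _ ≤ ε * |R| + (|a| + |b|) := by linarith only [h2]
    linarith only [tri, fin1, fin2, ha0, hb0]

end Six

open Six

theorem st6 (hT : StT) (h4 : St4) : St6 := by
  intro y z hy hz N hyL hzL
  obtain ⟨ya2, ya3, ya4, ya5, ya6, yl7, yu7, yD, ya10, -, -⟩ := h4 y hy N hyL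
  obtain ⟨za2, za3, za4, za5, za6, zl7, zu7, zD, za10, -, -⟩ := h4 z hz N hzL
  have key : ∀ n, ∃ θ : ℝ, min (th y (n + 3)) (th z (n + 3)) ≤ θ ∧ θ ≤ 1 ∧
      θ ≤ max (th y (n + 3)) (th z (n + 3)) ∧
      rho y z (n + 3) = θ * (rho y z (n + 2) - rho y z n) := by
    intro n
    obtain ⟨θ, a, b, c⟩ := hT y z hy hz n
    exact ⟨θ, a, b.trans (max_le (th_le_one hy _) (th_le_one hz _)), b, c⟩
  obtain ⟨t2, l2, u2, -, e2⟩ := key N
  obtain ⟨t3, l3, u3, -, e3⟩ := key (N + 1)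
  obtain ⟨t4, l4, u4, -, e4⟩ := key (N + 2)
  obtain ⟨t5, l5, u5, -, e5⟩ := key (N + 3)
  obtain ⟨t6, l6, u6, -, e6⟩ := key (N + 4)
  obtain ⟨t7, l7, u7, w7, e7⟩ := key (N + 5)
  obtain ⟨t8, l8, -, u8, e8⟩ := key (N + 6)
  obtain ⟨t9, l9, -, u9, e9⟩ := key (N + 7)
  obtain ⟨t10, l10, u10, -, e10⟩ := key (N + 8)
  have hτ0 : (0:ℝ) ≤ tau := tau_pos.le
  have l2' : 1 - tau ≤ t2 := le_trans (le_min ya2 za2) l2
  have l3' : 1 - tau ≤ t3 := le_trans (le_min ya3 za3) l3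
  have l4' : 1 - tau ≤ t4 := le_trans (le_min ya4 za4) l4
  have l5' : 1 - tau ≤ t5 := le_trans (le_min ya5 za5) l5
  have l6' : 1 - tau ≤ t6 := le_trans (le_min ya6 za6) l6
  have l10' : 1 - tau ≤ t10 := le_trans (le_min ya10 za10) l10
  have l7' : 0 ≤ t7 := le_trans (le_min (th_nonneg hy _) (th_nonneg hz _)) l7
  have l8' : 0 ≤ t8 := le_trans (le_min (th_nonneg hy _) (th_nonneg hz _)) l8
  have l9' : 0 ≤ t9 := le_trans (le_min (th_nonneg hy _) (th_nonneg hz _)) l9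
  have u8' : t8 ≤ q ^ 200 :=
    u8.trans (max_le (th_small hy _ yD.1) (th_small hz _ zD.1))
  have u9' : t9 ≤ q ^ 200 :=
    u9.trans (max_le (th_small hy _ yD.2.1) (th_small hz _ zD.2.1))
  have hε0 : 16 * q ^ 200 + 50 * tau + 2 * tau ≤ q ^ 100 := by
    have h1 : 32 * q ^ (100 + 100) ≤ q ^ 100 := qn_mul_le 100 100 (by norm_num)
    have h2 : 104 * q ^ (100 + 50) ≤ q ^ 100 := qn_mul_le 100 50 (by norm_num)
    norm_num at h1 h2
    have h3 : tau = q ^ 150 := rfl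
    rw [h3]
    linarith
  have C := core (a := rho y z N) (b := rho y z (N + 1)) (R := rho y z (N + 2))
    (r2 := rho y z (N + 3)) (r3 := rho y z (N + 4)) (r4 := rho y z (N + 5))
    (r5 := rho y z (N + 6)) (r6 := rho y z (N + 7)) (r7 := rho y z (N + 8))
    (r8 := rho y z (N + 9)) (r9 := rho y z (N + 10)) (r10 := rho y z (N + 11))
    hε0 (qn_le_one 100) hτ0 (qn_pos 200).le tau_le (qn_le' 200)
    l2' u2 e2 l3' u3 e3 l4' u4 e4 l5' u5 e5 l6' u6 e6 l7' u7 e7 l8' u8' e8 l9' u9' e9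
    l10' u10 e10
  have hC1 : lam y z (N + 9) ≤ q ^ 140 * (|RR y z N| + lam y z N) := by
    refine C.1.trans (mul_le_mul_of_nonneg_right (qn_mul_le 140 60 (by norm_num)) ?_)
    positivity
  refine ⟨hC1, 2 * t7, by linarith, ?_, ?_, C.2⟩
  · intro M hyM hzM
    have hyW := W_pos hy N
    have hzW := W_pos hz N
    have hM0 : 0 < M := lt_of_lt_of_le hyW hyM
    have p0 : (0:ℝ) < 1 + M ^ 2 := by positivity
    have ht : (0:ℝ) ≤ 1 - tau := by
      have : tau ≤ 1 := qn_le_one _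
      linarith
    have g : ∀ w : ℝ, 0 < w → w ≤ M → (1 - tau) / (1 + M ^ 2) ≤ (1 - tau) / (1 + w ^ 2) := by
      intro w hw hwM
      have : w ^ 2 ≤ M ^ 2 := pow_le_pow_left₀ hw.le hwM 2
      apply div_le_div_of_nonneg_left ht (by positivity)
      linarith
    have h1 : (1 - tau) / (1 + M ^ 2) ≤ t7 :=
      le_trans (le_min ((g _ hyW hyM).trans yl7) ((g _ hzW hzM).trans zl7)) l7
    have h2 : (1 - 1 / 2 ^ 100) * (1 / (1 + M ^ 2)) ≤ (1 - tau) / (1 + M ^ 2) := by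
      rw [mul_one_div]
      apply div_le_div_of_nonneg_right _ p0.le
      have : tau ≤ 1 / 2 ^ 100 := tau_le.trans (by norm_num)
      linarith
    have e : (1 - 1 / 2 ^ 100) * (2 / (1 + M ^ 2)) = 2 * ((1 - 1 / 2 ^ 100) * (1 / (1 + M ^ 2))) := by
      ring
    rw [e]
    linarith
  · intro M hM0 hyM hzM
    have p0 : (0:ℝ) < 1 + M ^ 2 := by positivity
    have ht : (0:ℝ) ≤ 1 + tau := by linarith
    have g : ∀ w : ℝ, M ≤ w → (1 + tau) / (1 + w ^ 2) ≤ (1 + tau) / (1 + M ^ 2) := by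
      intro w hwM
      have : M ^ 2 ≤ w ^ 2 := pow_le_pow_left₀ hM0 hwM 2
      apply div_le_div_of_nonneg_left ht (by positivity)
      linarith
    have h1 : t7 ≤ (1 + tau) / (1 + M ^ 2) :=
      w7.trans (max_le (yu7.trans (g _ hyM)) (zu7.trans (g _ hzM)))
    have h2 : (1 + tau) / (1 + M ^ 2) ≤ (1 + 1 / 2 ^ 100) * (1 / (1 + M ^ 2)) := by
      rw [mul_one_div]
      apply div_le_div_of_nonneg_right _ p0.le
      have : tau ≤ 1 / 2 ^ 100 := tau_le.trans (by norm_num)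
      linarith
    have e : (1 + 1 / 2 ^ 100) * (2 / (1 + M ^ 2)) = 2 * ((1 + 1 / 2 ^ 100) * (1 / (1 + M ^ 2))) := by
      ring
    rw [e]
    linarith


end Pool.Agent.H61.RRk
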