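import Pool.Agent.H61.RRk.Defs

/-! MP_7a141f_an with parameters: the chain of cycles in one loop of `P` steps
(after `Pool.Graph.R_seed8.R668.RR.St7`). -/

set_option autoImplicit false
set_option exponentiation.threshold 6000
set_option linter.unusedSectionVars false

namespace Pool.Agent.H61.RRk

variable [Par]

namespace Seven

theorem tau_le40 : tau ≤ 1 / 10 ^ 40 := tau_le.trans (by norm_num)

theorem B_le500 : B ≤ 1 / 10 ^ 500 := by
  refine B_le.trans ((qn_le' 1664).trans ?_)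
  norm_num

theorem f_mono {c C : ℝ} (hc : 0 ≤ c) (h : c ≤ C) : f c ≤ f C := by
  unfold f
  rw [div_le_div_iff₀ (by positivity) (by positivity)]
  have h2 : c ^ 2 ≤ C ^ 2 := pow_le_pow_left₀ hc h 2
  nlinarith

theorem f_inv {a : ℝ} (ha : 0 < a) : f (1 / a) = 1 / (1 + a ^ 2) := by
  unfold f
  field_simp
  ring

theorem f_le_one (x : ℝ) : f x ≤ 1 := by
  unfold f
  rw [div_le_one (by positivity)]
  linarith

theorem f_nonneg (x : ℝ) : 0 ≤ f x := by
  unfold f
  positivity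

theorem U_eq (y : ℕ → ℝ) (M : ℕ) : U y M = B + y (M + 2) := rfl

theorem lo_aux {a a' : ℝ} (ha : 0 < a) (haa : (1 + a ^ 2) * (10001 / 10000) ≤ a') :
    1 / a' ≤ (1 - tau) * f (1 / a) := by
  rw [f_inv ha]
  have ht := tau_le40
  have ht0 := tau_pos
  have h1 : (0 : ℝ) < 1 + a ^ 2 := by positivity
  have h2 : 0 < a' := by nlinarith
  rw [mul_one_div, div_le_div_iff₀ h2 h1, one_mul]
  have h3 : (1 : ℝ) ≤ (1 - tau) * (10001 / 10000) := by
    have : tau ≤ 1 / 100000 := ht.trans (by norm_num)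
    nlinarith
  have h4 : (0 : ℝ) ≤ 1 - tau := by
    have : tau ≤ 1 / 100000 := ht.trans (by norm_num)
    linarith
  calc 1 + a ^ 2 ≤ (1 + a ^ 2) * ((1 - tau) * (10001 / 10000)) := by nlinarith
    _ = (1 - tau) * ((1 + a ^ 2) * (10001 / 10000)) := by ring
    _ ≤ (1 - tau) * a' := mul_le_mul_of_nonneg_left haa h4

theorem hi_aux {C : ℝ} : (1 + tau) * f C ≤ 10001 / 10000 * (C ^ 2 / (1 + C ^ 2)) := by
  have h1 : 1 + tau ≤ 10001 / 10000 := by
    have : tau ≤ 1 / 100000 := tau_le40.trans (by norm_num)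
    linarith
  exact mul_le_mul_of_nonneg_right h1 (f_nonneg C)

variable {y : ℕ → ℝ} {M : ℕ}

theorem lo_step (h3 : St3) (hy : IsSol y) (a a' : ℝ) (ha : 0 < a) (ha2 : a ≤ 2 ^ 1250)
    (haa : (1 + a ^ 2) * (10001 / 10000) ≤ a') (h : Deep y M ∧ 1 / a ≤ U y M) :
    Deep y (M + 8) ∧ 1 / a' ≤ U y (M + 8) := by
  obtain ⟨hD, hU⟩ := h
  obtain ⟨-, -, -, -, -, hD', hlo, -⟩ := h3 y hy M hD
    (((qn_le' 1250).trans (one_div_le_one_div_of_le ha ha2)).trans hU)
  refine ⟨hD', ?_⟩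
  have h1 : f (1 / a) ≤ f (U y M) := f_mono (by positivity) hU
  have h4 : (0 : ℝ) ≤ 1 - tau := by
    have : tau ≤ 1 / 100000 := tau_le40.trans (by norm_num)
    linarith
  have h5 := lo_aux ha haa
  have h6 : 1 / a' ≤ y (M + 10) := h5.trans ((mul_le_mul_of_nonneg_left h1 h4).trans hlo)
  have h7 : U y (M + 8) = B + y (M + 10) := rfl
  rw [h7]
  have := B_pos
  linarith

theorem y_step (h3 : St3) (hy : IsSol y) (C : ℝ) (hD : Deep y M)
    (hL : q ^ 1250 ≤ U y M) (hU : U y M ≤ C) :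
    y (M + 10) ≤ 10001 / 10000 * (C ^ 2 / (1 + C ^ 2)) := by
  obtain ⟨-, -, -, -, -, hD', -, hhi⟩ := h3 y hy M hD hL
  have h0 : 0 ≤ U y M := le_trans (qn_pos _).le hL
  have h1 : f (U y M) ≤ f C := f_mono h0 hU
  have h4 : (0 : ℝ) ≤ 1 + tau := by linarith [tau_pos]
  exact hhi.trans ((mul_le_mul_of_nonneg_left h1 h4).trans hi_aux)

theorem hi_step (h3 : St3) (hy : IsSol y) (C C' : ℝ) (hD : Deep y M)
    (hL : q ^ 1250 ≤ U y M)
    (hC : 10001 / 10000 * C ^ 2 + 1 / 10 ^ 500 * (1 + C ^ 2) ≤ C' * (1 + C ^ 2))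
    (hU : U y M ≤ C) : U y (M + 8) ≤ C' := by
  have h1 := y_step h3 hy C hD hL hU
  have h7 : U y (M + 8) = B + y (M + 10) := rfl
  rw [h7]
  have h2 : (0 : ℝ) < 1 + C ^ 2 := by positivity
  have h3 : 1 / 10 ^ 500 + 10001 / 10000 * (C ^ 2 / (1 + C ^ 2)) ≤ C' := by
    rw [← mul_div_assoc, ← sub_nonneg]
    have : C' - (1 / 10 ^ 500 + 10001 / 10000 * C ^ 2 / (1 + C ^ 2)) =
        (C' * (1 + C ^ 2) - (10001 / 10000 * C ^ 2 + 1 / 10 ^ 500 * (1 + C ^ 2))) /
          (1 + C ^ 2) := by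
      generalize (1 / 10 ^ 500 : ℝ) = e
      field_simp
      ring
    rw [this]
    exact div_nonneg (by linarith) h2.le
  have := B_le500
  linarith


theorem q_pow' (n : ℕ) : q ^ n = (1 / 2 ^ n) ^ (2 ^ K) := by
  rw [q_pow, div_pow, one_pow, ← pow_mul]
  rfl

theorem f_le_sq {x : ℝ} : f x ≤ x ^ 2 := by
  unfold f
  exact div_le_self (by positivity) (by nlinarith [sq_nonneg x])

theorem chain_lo (h3 : St3) (hy : IsSol y) (c : ℝ) (hc : 1 / 2 ^ 1250 ≤ c) (hc4 : c ≤ 1 / 4)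
    (hD : Deep y M) (hU : 2 * c ≤ U y M) :
    ∀ i : ℕ, i ≤ K + 1 → Deep y (M + 8 * i) ∧ 2 * c ^ (2 ^ i) ≤ U y (M + 8 * i) ∧
      (i ≤ K → q ^ 1250 ≤ U y (M + 8 * i)) := by
  have hc0 : 0 < c := lt_of_lt_of_le (by positivity) hc
  have hq : ∀ i : ℕ, i ≤ K → ∀ x : ℝ, 2 * c ^ (2 ^ i) ≤ x → q ^ 1250 ≤ x := by
    intro i hi x hx
    have h1 : c ^ (2 ^ K) ≤ c ^ (2 ^ i) :=
      pow_le_pow_of_le_one hc0.le (by linarith) (Nat.pow_le_pow_right (by norm_num) hi)
    have h2 : q ^ 1250 ≤ c ^ (2 ^ K) := by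
      rw [q_pow']
      exact pow_le_pow_left₀ (by positivity) hc _
    have h3 : 0 < c ^ (2 ^ i) := by positivity
    linarith
  intro i
  induction i with
  | zero =>
    intro _
    have h1 : 2 * c ^ (2 ^ 0) ≤ U y (M + 8 * 0) := by simpa using hU
    exact ⟨hD, h1, fun h => hq 0 h _ h1⟩
  | succ i ih =>
    intro hi
    obtain ⟨hDi, hUi, hqi⟩ := ih (by omega)
    obtain ⟨-, -, -, -, -, hD', hlo, -⟩ := h3 y hy (M + 8 * i) hDi (hqi (by omega))
    have e : M + 8 * (i + 1) = M + 8 * i + 8 := by ring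
    have hc2 : 0 < c ^ (2 ^ i) := by positivity
    have h1 : f (2 * c ^ (2 ^ i)) ≤ f (U y (M + 8 * i)) := f_mono (by positivity) hUi
    have h4 : (0 : ℝ) ≤ 1 - tau := by
      have : tau ≤ 1 / 100000 := tau_le40.trans (by norm_num)
      linarith
    have h2 : 2 * c ^ (2 ^ (i + 1)) ≤ (1 - tau) * f (2 * c ^ (2 ^ i)) := by
      have e2 : c ^ (2 ^ (i + 1)) = (c ^ (2 ^ i)) ^ 2 := by rw [← pow_mul, ← pow_succ]
      have h5 : c ^ (2 ^ i) ≤ 1 / 4 := by
        calc c ^ (2 ^ i) ≤ c ^ 1 :=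
              pow_le_pow_of_le_one hc0.le (by linarith) Nat.one_le_two_pow
          _ = c := pow_one c
          _ ≤ 1 / 4 := hc4
      rw [e2]
      unfold f
      set x := c ^ (2 ^ i) with hx
      have h6 : 0 < 1 + (2 * x) ^ 2 := by positivity
      rw [mul_div_assoc', le_div_iff₀ h6]
      have h7 : tau ≤ 1 / 100000 := tau_le40.trans (by norm_num)
      have h8 : x ^ 2 ≤ 1 / 16 := by nlinarith
      have h9 : 0 ≤ x ^ 2 := sq_nonneg x
      nlinarith
    have h7 : U y (M + 8 * i + 8) = B + y (M + 8 * i + 10) := rfl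
    have hB := B_pos
    have h8 : 2 * c ^ (2 ^ (i + 1)) ≤ U y (M + 8 * (i + 1)) := by
      rw [e, h7]
      have := mul_le_mul_of_nonneg_left h1 h4
      linarith
    refine ⟨e ▸ hD', h8, fun h => hq _ h _ h8⟩

theorem chain_hi (h3 : St3) (hy : IsSol y) (d : ℝ) (hd : 1 / 2 ^ 1250 ≤ d) (hd1 : d ≤ 1)
    (hlo : ∀ i : ℕ, i ≤ K → Deep y (M + 8 * i) ∧ q ^ 1250 ≤ U y (M + 8 * i))
    (hU : U y M ≤ 1 / 2 * d) :
    (∀ i : ℕ, i ≤ K → U y (M + 8 * i) ≤ 1 / 2 * d ^ (2 ^ i)) ∧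
      y (M + 8 * (K + 1) + 2) ≤ 1 / 2 * (d ^ 2) ^ (2 ^ K) := by
  have hd0 : 0 < d := lt_of_lt_of_le (by positivity) hd
  have ht : tau ≤ 1 / 100000 := tau_le40.trans (by norm_num)
  have ht0 := tau_pos
  have step : ∀ i : ℕ, i ≤ K → U y (M + 8 * i) ≤ 1 / 2 * d ^ (2 ^ i) →
      y (M + 8 * i + 10) ≤ 3 / 8 * d ^ (2 ^ (i + 1)) := by
    intro i hi hUi
    obtain ⟨-, -, -, -, -, -, -, hhi⟩ := h3 y hy (M + 8 * i) (hlo i hi).1 (hlo i hi).2
    have h0 : 0 ≤ U y (M + 8 * i) := le_trans (qn_pos _).le (hlo i hi).2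
    have h1 : f (U y (M + 8 * i)) ≤ U y (M + 8 * i) ^ 2 := f_le_sq
    have h2 : U y (M + 8 * i) ^ 2 ≤ (1 / 2 * d ^ (2 ^ i)) ^ 2 := pow_le_pow_left₀ h0 hUi 2
    have e2 : d ^ (2 ^ (i + 1)) = (d ^ (2 ^ i)) ^ 2 := by rw [← pow_mul, ← pow_succ]
    rw [e2]
    have h3 : (1 + tau) * f (U y (M + 8 * i)) ≤ (1 + 1 / 100000) * (1 / 2 * d ^ (2 ^ i)) ^ 2 :=
      mul_le_mul (by linarith) (h1.trans h2) (f_nonneg _) (by norm_num)
    have h4 : 0 ≤ (d ^ (2 ^ i)) ^ 2 := by positivity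
    nlinarith
  have main : ∀ i : ℕ, i ≤ K → U y (M + 8 * i) ≤ 1 / 2 * d ^ (2 ^ i) := by
    intro i
    induction i with
    | zero => intro _; simpa using hU
    | succ i ih =>
      intro hi
      have h1 := step i (by omega) (ih (by omega))
      have e : U y (M + 8 * (i + 1)) = B + y (M + 8 * i + 10) := by
        have e1 : M + 8 * (i + 1) + 2 = M + 8 * i + 10 := by ring
        unfold U
        rw [e1]
      rw [e]
      have h2 : q ^ 1250 ≤ d ^ (2 ^ (i + 1)) := by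
        calc q ^ 1250 ≤ d ^ (2 ^ K) := by
              rw [q_pow']
              exact pow_le_pow_left₀ (by positivity) hd _
          _ ≤ d ^ (2 ^ (i + 1)) :=
              pow_le_pow_of_le_one hd0.le hd1 (Nat.pow_le_pow_right (by norm_num) hi)
      have h3 : 8 * q ^ (1250 + 3) ≤ q ^ 1250 := qn_mul_le 1250 3 (by norm_num)
      have h4 : q ^ 1664 ≤ q ^ (1250 + 3) := qn_anti (by norm_num)
      have h5 := B_le
      linarith
  refine ⟨main, ?_⟩
  have h1 := step K le_rfl (main K le_rfl)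
  have e1 : M + 8 * (K + 1) + 2 = M + 8 * K + 10 := by ring
  have e2 : d ^ (2 ^ (K + 1)) = (d ^ 2) ^ (2 ^ K) := by rw [← pow_mul, pow_succ, mul_comm]
  rw [e2] at h1
  rw [e1]
  have h4 : 0 ≤ (d ^ 2) ^ (2 ^ K) := by positivity
  linarith

theorem two_K_q : (2 : ℝ) ^ K * q ≤ 1 := by
  have h1 : q = 1 / 2 ^ (2 ^ K) := rfl
  rw [h1, mul_one_div, div_le_one (by positivity)]
  exact pow_le_pow_right₀ (by norm_num) (Nat.lt_two_pow_self).le


end Seven

open Seven

theorem st7 (h3 : St3) (h4 : St4) : St7 := by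
  intro y hy N hN
  obtain ⟨-, -, -, -, -, -, -, hD1, -, hlo, hhi⟩ := h4 y hy N hN
  have hB := B_pos
  have hBle := B_le500
  have hW1 : 1 ≤ W y N := by
    unfold W U
    rw [one_le_div hB]
    linarith [hy.pos (N + 2)]
  have hU1 : U y (N + 9) = B + y (N + 11) := rfl
  have ht : tau ≤ 1 / 100000 := tau_le40.trans (by norm_num)
  have ht0 := tau_pos
  have h1mt : (0 : ℝ) ≤ 1 - tau := by linarith
  have h1pt : (0 : ℝ) ≤ 1 + tau := by linarith
  have flow : ∀ w : ℝ, 0 ≤ w → w ≤ W y N → (1 - tau) * f w ≤ U y (N + 9) := by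
    intro w hw hwW
    have := mul_le_mul_of_nonneg_left (f_mono hw hwW) h1mt
    rw [hU1]
    linarith
  have fhigh : ∀ w : ℝ, W y N ≤ w → U y (N + 9) ≤ B + (1 + tau) * f w := by
    intro w hwW
    have := mul_le_mul_of_nonneg_left (f_mono (by linarith) hwW) h1pt
    rw [hU1]
    linarith
  have c1 : Deep y (N + 9) ∧ 1 / (2001/1000) ≤ U y (N + 9) := by
    refine ⟨hD1, ?_⟩
    have h := flow 1 (by norm_num) hW1
    have hf : f 1 = 1 / 2 := by unfold f; norm_num
    rw [hf] at h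
    have h2 : (1 : ℝ) / (2001/1000) = 1000 / 2001 := by norm_num
    rw [h2]
    linarith
  have c2 : Deep y (N + 17) ∧ 1 / (5006/1000) ≤ U y (N + 17) :=
    lo_step h3 hy (2001/1000) (5006/1000) (by norm_num) (by norm_num) (by norm_num) c1
  have c3 : Deep y (N + 25) ∧ 1 / (2607/100) ≤ U y (N + 25) :=
    lo_step h3 hy (5006/1000) (2607/100) (by norm_num) (by norm_num) (by norm_num) c2
  have c4 : Deep y (N + 33) ∧ 1 / (681) ≤ U y (N + 33) :=
    lo_step h3 hy (2607/100) (681) (by norm_num) (by norm_num) (by norm_num) c3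
  have c5 : Deep y (N + 41) ∧ 1 / (463900) ≤ U y (N + 41) :=
    lo_step h3 hy (681) (463900) (by norm_num) (by norm_num) (by norm_num) c4
  have c6 : Deep y (N + 49) ∧ 1 / (216*10^9) ≤ U y (N + 49) :=
    lo_step h3 hy (463900) (216*10^9) (by norm_num) (by norm_num) (by norm_num) c5
  have c7 : Deep y (N + 57) ∧ 1 / (47*10^21) ≤ U y (N + 57) :=
    lo_step h3 hy (216*10^9) (47*10^21) (by norm_num) (by norm_num) (by norm_num) c6
  have c8 : Deep y (N + 65) ∧ 1 / (23*10^44) ≤ U y (N + 65) :=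
    lo_step h3 hy (47*10^21) (23*10^44) (by norm_num) (by norm_num) (by norm_num) c7
  have c9 : Deep y (N + 73) ∧ 1 / (53*10^89) ≤ U y (N + 73) :=
    lo_step h3 hy (23*10^44) (53*10^89) (by norm_num) (by norm_num) (by norm_num) c8
  have c10 : Deep y (N + 81) ∧ 1 / (29*10^180) ≤ U y (N + 81) :=
    lo_step h3 hy (53*10^89) (29*10^180) (by norm_num) (by norm_num) (by norm_num) c9
  have c11 : Deep y (N + 89) ∧ 1 / (85*10^361) ≤ U y (N + 89) :=
    lo_step h3 hy (29*10^180) (85*10^361) (by norm_num) (by norm_num) (by norm_num) c10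
  have l1 : q ^ 1250 ≤ U y (N + 9) :=
    ((qn_le' 1250).trans (one_div_le_one_div_of_le (by norm_num) (by norm_num))).trans c1.2
  have l2 : q ^ 1250 ≤ U y (N + 17) :=
    ((qn_le' 1250).trans (one_div_le_one_div_of_le (by norm_num) (by norm_num))).trans c2.2
  have l3 : q ^ 1250 ≤ U y (N + 25) :=
    ((qn_le' 1250).trans (one_div_le_one_div_of_le (by norm_num) (by norm_num))).trans c3.2
  have l4 : q ^ 1250 ≤ U y (N + 33) :=
    ((qn_le' 1250).trans (one_div_le_one_div_of_le (by norm_num) (by norm_num))).trans c4.2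
  have l5 : q ^ 1250 ≤ U y (N + 41) :=
    ((qn_le' 1250).trans (one_div_le_one_div_of_le (by norm_num) (by norm_num))).trans c5.2
  have l6 : q ^ 1250 ≤ U y (N + 49) :=
    ((qn_le' 1250).trans (one_div_le_one_div_of_le (by norm_num) (by norm_num))).trans c6.2
  have l7 : q ^ 1250 ≤ U y (N + 57) :=
    ((qn_le' 1250).trans (one_div_le_one_div_of_le (by norm_num) (by norm_num))).trans c7.2
  have l8 : q ^ 1250 ≤ U y (N + 65) :=
    ((qn_le' 1250).trans (one_div_le_one_div_of_le (by norm_num) (by norm_num))).trans c8.2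
  have l9 : q ^ 1250 ≤ U y (N + 73) :=
    ((qn_le' 1250).trans (one_div_le_one_div_of_le (by norm_num) (by norm_num))).trans c9.2
  have l10 : q ^ 1250 ≤ U y (N + 81) :=
    ((qn_le' 1250).trans (one_div_le_one_div_of_le (by norm_num) (by norm_num))).trans c10.2
  have l11 : q ^ 1250 ≤ U y (N + 89) :=
    ((qn_le' 1250).trans (one_div_le_one_div_of_le (by norm_num) (by norm_num))).trans c11.2
  have u1 : U y (N + 9) ≤ 101/100 := by
    have h := fhigh (W y N) le_rfl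
    have hf := mul_le_mul_of_nonneg_left (f_le_one (W y N)) h1pt
    have hB2 : B ≤ 1 / 1000 := hBle.trans (by norm_num)
    linarith
  have u2 : U y (N + 17) ≤ 51/100 :=
    hi_step h3 hy (101/100) (51/100) c1.1 l1 (by norm_num) u1
  have u3 : U y (N + 25) ≤ 21/100 :=
    hi_step h3 hy (51/100) (21/100) c2.1 l2 (by norm_num) u2
  have u4 : U y (N + 33) ≤ 423/10000 :=
    hi_step h3 hy (21/100) (423/10000) c3.1 l3 (by norm_num) u3
  have u5 : U y (N + 41) ≤ 18/10000 :=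
    hi_step h3 hy (423/10000) (18/10000) c4.1 l4 (by norm_num) u4
  have u6 : U y (N + 49) ≤ 33/10^7 :=
    hi_step h3 hy (18/10000) (33/10^7) c5.1 l5 (by norm_num) u5
  have u7 : U y (N + 57) ≤ 11/10^12 :=
    hi_step h3 hy (33/10^7) (11/10^12) c6.1 l6 (by norm_num) u6
  have u8 : U y (N + 65) ≤ 13/10^23 :=
    hi_step h3 hy (11/10^12) (13/10^23) c7.1 l7 (by norm_num) u7
  have u9 : U y (N + 73) ≤ 17/10^45 :=
    hi_step h3 hy (13/10^23) (17/10^45) c8.1 l8 (by norm_num) u8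
  have u10 : U y (N + 81) ≤ 3/10^88 :=
    hi_step h3 hy (17/10^45) (3/10^88) c9.1 l9 (by norm_num) u9
  have u11 : U y (N + 89) ≤ 91/10^177 :=
    hi_step h3 hy (3/10^88) (91/10^177) c10.1 l10 (by norm_num) u10
  have ch := chain_lo h3 hy (1 / (170*10^361)) (one_div_le_one_div_of_le (by norm_num) (by norm_num))
    (by norm_num) c11.1 (le_trans (by norm_num) c11.2)
  have chi := chain_hi h3 hy (182/10^177) (by norm_num) (by norm_num)
    (fun i hi => ⟨(ch i (by omega)).1, (ch i (by omega)).2.2 hi⟩) (u11.trans (by norm_num))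
  have eP : N + P = N + 89 + 8 * (K + 1) := by unfold P; ring
  have hbig : ∀ j : ℕ, 11 < j → j ≤ 11 + K → U y (N + 1 + 8 * j) ≤ 2 / 5 := by
    intro j hj1 hj2
    obtain ⟨i, rfl⟩ : ∃ i, j = 11 + i := ⟨j - 11, by omega⟩
    have e : N + 1 + 8 * (11 + i) = N + 89 + 8 * i := by ring
    rw [e]
    refine (chi.1 i (by omega)).trans ?_
    have h1 : (182/10^177 : ℝ) ^ (2 ^ i) ≤ 1 / 2 := by
      calc (182/10^177 : ℝ) ^ (2 ^ i) ≤ (182/10^177 : ℝ) ^ 1 :=
            pow_le_pow_of_le_one (by norm_num) (by norm_num) Nat.one_le_two_pow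
        _ ≤ 1 / 2 := by norm_num
    linarith
  have hLP : U y (N + P) ≤ q ^ 1100 := by
    have e1 : U y (N + P) = B + y (N + 89 + 8 * (K + 1) + 2) := by
      rw [eP]
      rfl
    rw [e1]
    have h1 : ((182/10^177 : ℝ) ^ 2) ^ (2 ^ K) ≤ q ^ 1160 := by
      rw [q_pow']
      exact pow_le_pow_left₀ (by positivity) (by norm_num) _
    have h2 : q ^ 1160 ≤ q ^ (1100 + 1) := qn_anti (by norm_num)
    have h3 : q ^ 1664 ≤ q ^ (1100 + 1) := qn_anti (by norm_num)
    have h4 : 2 * q ^ (1100 + 1) ≤ q ^ 1100 := qn_mul_le 1100 1 (by norm_num)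
    have h5 := B_le
    have h6 := chi.2
    have h7 := qn_pos (1100 + 1)
    linarith
  refine ⟨?_, ⟨eP ▸ (ch (K + 1) le_rfl).1, hLP⟩, ?_, ?_, ?_⟩
  · intro j hj1 hj2
    rcases Nat.lt_or_ge 11 j with hj | hj
    · have h1 := hbig j hj hj2
      obtain ⟨i, rfl⟩ : ∃ i, j = 11 + i := ⟨j - 11, by omega⟩
      have e : N + 1 + 8 * (11 + i) = N + 89 + 8 * i := by ring
      rw [e] at h1 ⊢
      exact ⟨(ch i (by omega)).1, (ch i (by omega)).2.2 (by omega), by linarith⟩
    · interval_cases j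
      · exact ⟨c1.1, l1, u1.trans (by norm_num)⟩
      · exact ⟨c2.1, l2, u2.trans (by norm_num)⟩
      · exact ⟨c3.1, l3, u3.trans (by norm_num)⟩
      · exact ⟨c4.1, l4, u4.trans (by norm_num)⟩
      · exact ⟨c5.1, l5, u5.trans (by norm_num)⟩
      · exact ⟨c6.1, l6, u6.trans (by norm_num)⟩
      · exact ⟨c7.1, l7, u7.trans (by norm_num)⟩
      · exact ⟨c8.1, l8, u8.trans (by norm_num)⟩
      · exact ⟨c9.1, l9, u9.trans (by norm_num)⟩
      · exact ⟨c10.1, l10, u10.trans (by norm_num)⟩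
      · exact ⟨c11.1, l11, u11.trans (by norm_num)⟩
  · intro hW
    have v1 : U y (N + 9) ≤ 6098/10000 := by
      have h := fhigh (5 / 4) hW
      have hf : f (5 / 4) = 25 / 41 := by unfold f; norm_num
      rw [hf] at h
      have hB2 : B ≤ 1 / 10 ^ 6 := hBle.trans (by norm_num)
      have ht2 : tau ≤ 1 / 10 ^ 6 := tau_le40.trans (by norm_num)
      linarith
    have v2 : U y (N + 17) ≤ 2711/10000 :=
      hi_step h3 hy (6098/10000) (2711/10000) c1.1 l1 (by norm_num) v1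
    have v3 : U y (N + 25) ≤ 685/10000 :=
      hi_step h3 hy (2711/10000) (685/10000) c2.1 l2 (by norm_num) v2
    have v4 : U y (N + 33) ≤ 468/100000 :=
      hi_step h3 hy (685/10000) (468/100000) c3.1 l3 (by norm_num) v3
    have v5 : U y (N + 41) ≤ 22/10^6 :=
      hi_step h3 hy (468/100000) (22/10^6) c4.1 l4 (by norm_num) v4
    have v6 : U y (N + 49) ≤ 49/10^11 :=
      hi_step h3 hy (22/10^6) (49/10^11) c5.1 l5 (by norm_num) v5
    have v7 : U y (N + 57) ≤ 25/10^20 :=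
      hi_step h3 hy (49/10^11) (25/10^20) c6.1 l6 (by norm_num) v6
    have v8 : U y (N + 65) ≤ 63/10^39 :=
      hi_step h3 hy (25/10^20) (63/10^39) c7.1 l7 (by norm_num) v7
    have v9 : U y (N + 73) ≤ 4/10^75 :=
      hi_step h3 hy (63/10^39) (4/10^75) c8.1 l8 (by norm_num) v8
    have v10 : U y (N + 81) ≤ 17/10^150 :=
      hi_step h3 hy (4/10^75) (17/10^150) c9.1 l9 (by norm_num) v9
    have v11 : U y (N + 89) ≤ 3/10^298 :=
      hi_step h3 hy (17/10^150) (3/10^298) c10.1 l10 (by norm_num) v10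
    have chi2 := chain_hi h3 hy (6/10^298) (by norm_num) (by norm_num)
      (fun i hi => ⟨(ch i (by omega)).1, (ch i (by omega)).2.2 hi⟩) (v11.trans (by norm_num))
    have h2 := chi2.2
    rw [← eP] at h2
    have h3 : ((6/10^298 : ℝ) ^ 2) ^ (2 ^ K) ≤ q ^ 1974 := by
      rw [q_pow']
      exact pow_le_pow_left₀ (by positivity) (by norm_num) _
    have h4 : q ^ 1974 ≤ q ^ (1800 + 150) := qn_anti (by norm_num)
    have h5 : q ^ (1800 + 150) ≤ B * q ^ 150 := by
      rw [pow_add]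
      exact mul_le_mul_of_nonneg_right B_ge (qn_pos _).le
    have h6 := qn_pos 1974
    linarith
  · intro hW
    have k1 : Deep y (N + 9) ∧ 1 / (12501/10000) ≤ U y (N + 9) := by
      refine ⟨hD1, ?_⟩
      have h := flow 2 (by norm_num) hW
      have hf : f 2 = 4 / 5 := by unfold f; norm_num
      rw [hf] at h
      have h2 : (1 : ℝ) / (12501/10000) = 10000 / 12501 := by norm_num
      rw [h2]
      linarith
    have k2 : Deep y (N + 17) ∧ 1 / (2564/1000) ≤ U y (N + 17) :=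
      lo_step h3 hy (12501/10000) (2564/1000) (by norm_num) (by norm_num) (by norm_num) k1
    have k3 : Deep y (N + 25) ∧ 1 / (758/100) ≤ U y (N + 25) :=
      lo_step h3 hy (2564/1000) (758/100) (by norm_num) (by norm_num) (by norm_num) k2
    have k4 : Deep y (N + 33) ∧ 1 / (585/10) ≤ U y (N + 33) :=
      lo_step h3 hy (758/100) (585/10) (by norm_num) (by norm_num) (by norm_num) k3
    have k5 : Deep y (N + 41) ∧ 1 / (3424) ≤ U y (N + 41) :=
      lo_step h3 hy (585/10) (3424) (by norm_num) (by norm_num) (by norm_num) k4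
    have k6 : Deep y (N + 49) ∧ 1 / (118*10^5) ≤ U y (N + 49) :=
      lo_step h3 hy (3424) (118*10^5) (by norm_num) (by norm_num) (by norm_num) k5
    have k7 : Deep y (N + 57) ∧ 1 / (14*10^13) ≤ U y (N + 57) :=
      lo_step h3 hy (118*10^5) (14*10^13) (by norm_num) (by norm_num) (by norm_num) k6
    have k8 : Deep y (N + 65) ∧ 1 / (2*10^28) ≤ U y (N + 65) :=
      lo_step h3 hy (14*10^13) (2*10^28) (by norm_num) (by norm_num) (by norm_num) k7
    have k9 : Deep y (N + 73) ∧ 1 / (41*10^55) ≤ U y (N + 73) :=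
      lo_step h3 hy (2*10^28) (41*10^55) (by norm_num) (by norm_num) (by norm_num) k8
    have k10 : Deep y (N + 81) ∧ 1 / (17*10^112) ≤ U y (N + 81) :=
      lo_step h3 hy (41*10^55) (17*10^112) (by norm_num) (by norm_num) (by norm_num) k9
    have k11 : Deep y (N + 89) ∧ 1 / (29*10^225) ≤ U y (N + 89) :=
      lo_step h3 hy (17*10^112) (29*10^225) (by norm_num) (by norm_num) (by norm_num) k10
    have chk := chain_lo h3 hy (1 / (58*10^225))
      (one_div_le_one_div_of_le (by norm_num) (by norm_num))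
      (by norm_num) k11.1 (le_trans (by norm_num) k11.2)
    have h2 := (chk (K + 1) le_rfl).2.1
    rw [← eP] at h2
    have e2 : ∀ x : ℝ, x ^ (2 ^ (K + 1)) = (x ^ 2) ^ (2 ^ K) := fun x => by
      rw [← pow_mul, pow_succ, mul_comm]
    have h3 : q ^ 1507 ≤ ((1 / (58*10^225) : ℝ) ^ 2) ^ (2 ^ K) := by
      rw [q_pow']
      exact pow_le_pow_left₀ (by positivity) (by norm_num) _
    have h4 : 1024 * 2 ^ K * B ≤ q ^ 1507 := by
      have g1 := B_le
      have g2 : 1024 * q ^ (1507 + 10) ≤ q ^ 1507 := qn_mul_le 1507 10 (by norm_num)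
      have g3 := two_K_q
      have g4 : q ^ 1664 ≤ q ^ (1507 + 10 + 1) := qn_anti (by norm_num)
      have g5 : (0 : ℝ) < 2 ^ K := by positivity
      have g6 : 2 ^ K * B ≤ q ^ (1507 + 10) := by
        calc 2 ^ K * B ≤ 2 ^ K * q ^ (1507 + 10 + 1) :=
              mul_le_mul_of_nonneg_left (g1.trans g4) g5.le
          _ = q ^ (1507 + 10) * (2 ^ K * q) := by rw [pow_succ q (1507 + 10)]; ring
          _ ≤ q ^ (1507 + 10) * 1 := mul_le_mul_of_nonneg_left g3 (qn_pos _).le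
          _ = q ^ (1507 + 10) := mul_one _
      calc 1024 * 2 ^ K * B = 1024 * (2 ^ K * B) := by ring
        _ ≤ 1024 * q ^ (1507 + 10) := mul_le_mul_of_nonneg_left g6 (by norm_num)
        _ ≤ q ^ 1507 := g2
    unfold W
    rw [le_div_iff₀ hB]
    rw [e2] at h2
    have h6 := qn_pos 1507
    linarith
  · intro hW
    have v1 : U y (N + 9) ≤ 81 / 100 := by
      have h := fhigh 2 hW.le
      have hf : f 2 = 4 / 5 := by unfold f; norm_num
      rw [hf] at h
      have hB2 : B ≤ 1 / 1000 := hBle.trans (by norm_num)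
      linarith
    have v2 : U y (N + 17) ≤ 2 / 5 :=
      hi_step h3 hy (81 / 100) (2 / 5) c1.1 l1 (by norm_num) v1
    have v3 : U y (N + 25) ≤ 2 / 5 :=
      hi_step h3 hy (2 / 5) (2 / 5) c2.1 l2 (by norm_num) v2
    have v4 : U y (N + 33) ≤ 2 / 5 :=
      hi_step h3 hy (2 / 5) (2 / 5) c3.1 l3 (by norm_num) v3
    have v5 : U y (N + 41) ≤ 2 / 5 :=
      hi_step h3 hy (2 / 5) (2 / 5) c4.1 l4 (by norm_num) v4
    have v6 : U y (N + 49) ≤ 2 / 5 :=
      hi_step h3 hy (2 / 5) (2 / 5) c5.1 l5 (by norm_num) v5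
    have v7 : U y (N + 57) ≤ 2 / 5 :=
      hi_step h3 hy (2 / 5) (2 / 5) c6.1 l6 (by norm_num) v6
    have v8 : U y (N + 65) ≤ 2 / 5 :=
      hi_step h3 hy (2 / 5) (2 / 5) c7.1 l7 (by norm_num) v7
    have v9 : U y (N + 73) ≤ 2 / 5 :=
      hi_step h3 hy (2 / 5) (2 / 5) c8.1 l8 (by norm_num) v8
    have v10 : U y (N + 81) ≤ 2 / 5 :=
      hi_step h3 hy (2 / 5) (2 / 5) c9.1 l9 (by norm_num) v9
    have v11 : U y (N + 89) ≤ 2 / 5 :=
      hi_step h3 hy (2 / 5) (2 / 5) c10.1 l10 (by norm_num) v10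
    refine ⟨v1, ?_⟩
    intro j hj1 hj2
    rcases Nat.lt_or_ge 11 j with hj | hj
    · exact hbig j hj hj2
    · interval_cases j
      · exact v2
      · exact v3
      · exact v4
      · exact v5
      · exact v6
      · exact v7
      · exact v8
      · exact v9
      · exact v10
      · exact v11


end Pool.Agent.H61.RRk
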