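import Pool.Agent.H61.RRk.C7

/-! MP_7a141f_an with parameters: variation over one loop
(after `Pool.Graph.R_seed8.R408.RRSt8`). -/

set_option autoImplicit false
set_option linter.unusedSectionVars false

namespace Pool.Agent.H61.RRk

variable [Par]

namespace St8aux

theorem th_nonneg {y : ℕ → ℝ} (hy : IsSol y) (n : ℕ) : 0 ≤ th y n := by
  unfold th
  have h1 := hy.pos n
  have h2 := B_pos
  positivity

theorem th_le_one {y : ℕ → ℝ} (hy : IsSol y) (n : ℕ) : th y n ≤ 1 := by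
  unfold th
  have h1 := hy.pos n
  have h2 := B_pos
  rw [div_le_one (by linarith)]
  linarith

theorem th_le {y : ℕ → ℝ} (hy : IsSol y) (n : ℕ) (h : y n ≤ B * q ^ 150) :
    th y n ≤ q ^ 150 := by
  unfold th
  have h1 := hy.pos n
  have h2 := B_pos
  rw [div_le_iff₀ (by linarith)]
  have h3 : 0 ≤ q ^ 150 * y n := mul_nonneg (qn_pos _).le h1.le
  linarith

theorem th_ge {y : ℕ → ℝ} (hy : IsSol y) (N : ℕ) (c : ℝ) (hc : 0 < c) (h : c ≤ U y N) :
    1 - B / c ≤ th y (N + 2) := by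
  unfold th
  unfold U at h
  have h1 := hy.pos (N + 2)
  have h2 := B_pos
  have hU : 0 < B + y (N + 2) := by linarith
  have e : y (N + 2) / (B + y (N + 2)) = 1 - B / (B + y (N + 2)) := by
    field_simp
    ring
  rw [e]
  have h3 : B / (B + y (N + 2)) ≤ B / c := div_le_div_of_nonneg_left h2.le hc h
  linarith

theorem th_big {y : ℕ → ℝ} (hy : IsSol y) (N : ℕ) (h : q ^ 1250 ≤ U y N) :
    1 - 1 / 2 ^ 100 ≤ th y (N + 2) := by
  have h1 := th_ge hy N (q ^ 1250) (qn_pos _) h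
  have h2 : B / q ^ 1250 ≤ 1 / 2 ^ 100 := by
    rw [div_le_iff₀ (qn_pos _)]
    calc B ≤ q ^ 1664 := B_le
      _ ≤ q ^ (100 + 1250) := qn_anti (by norm_num)
      _ = q ^ 100 * q ^ 1250 := pow_add _ _ _
      _ ≤ 1 / 2 ^ 100 * q ^ 1250 := mul_le_mul_of_nonneg_right (qn_le' 100) (qn_pos _).le
  linarith

theorem th_fifth {y : ℕ → ℝ} (hy : IsSol y) (N : ℕ) (h : 5 / 4 ≤ W y N) :
    1 / 5 ≤ th y (N + 2) := by
  have hB := B_pos
  unfold W at h
  rw [le_div_iff₀ hB] at h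
  have h1 := th_ge hy N (5 / 4 * B) (by positivity) h
  have h2 : B / (5 / 4 * B) = 4 / 5 := by field_simp
  rw [h2] at h1
  linarith

theorem lam_nonneg (y z : ℕ → ℝ) (N : ℕ) : 0 ≤ lam y z N := by
  unfold lam
  positivity

/-- one cycle of type i -/
theorem one (h5 : St5) {y z : ℕ → ℝ} (hy : IsSol y) (hz : IsSol z) (N : ℕ) (dy : Deep y N)
    (dz : Deep z N) (uy : q ^ 1250 ≤ U y N) (uz : q ^ 1250 ≤ U z N) :
    lam y z (N + 8) ≤ q ^ 140 * (|RR y z N| + lam y z N) ∧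
    ∃ θ : ℝ, 0 ≤ θ ∧ θ ≤ 1 ∧ min (th y (N + 10)) (th z (N + 10)) ≤ θ ∧
      θ ≤ max (th y (N + 10)) (th z (N + 10)) ∧
      |RR y z (N + 8)| ≤ θ * ((2 + 1 / 2 ^ 100) * |RR y z N| + 8 * lam y z N) ∧
      ∀ M : ℝ, U y N ≤ M → U z N ≤ M →
        θ * (((1 - 1 / 2 ^ 100) * (2 / (1 + M ^ 2)) - 1 / 2 ^ 100) * |RR y z N| -
          8 * lam y z N) ≤ |RR y z (N + 8)| := by
  obtain ⟨hl, t, θ, ht0, ht2, hM, hmin, hmax, hR⟩ := h5 y z hy hz N dy dz uy uz
  have hθ0 : 0 ≤ θ := (le_min (th_nonneg hy _) (th_nonneg hz _)).trans hmin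
  have hθ1 : θ ≤ 1 := hmax.trans (max_le (th_le_one hy _) (th_le_one hz _))
  refine ⟨hl, θ, hθ0, hθ1, hmin, hmax, ?_, ?_⟩
  · have h1 : |RR y z (N + 8)| ≤ |RR y z (N + 8) - θ * t * RR y z N| + |θ * t * RR y z N| := by
      have := abs_add_le (RR y z (N + 8) - θ * t * RR y z N) (θ * t * RR y z N)
      rwa [sub_add_cancel] at this
    rw [abs_mul, abs_of_nonneg (mul_nonneg hθ0 ht0)] at h1
    have h2 : θ * t * |RR y z N| ≤ θ * (2 * |RR y z N|) := by
      rw [mul_assoc]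
      exact mul_le_mul_of_nonneg_left (mul_le_mul_of_nonneg_right ht2 (abs_nonneg _)) hθ0
    calc |RR y z (N + 8)| ≤ θ * (8 * lam y z N + 1 / 2 ^ 100 * |RR y z N|) +
        θ * (2 * |RR y z N|) := by linarith
      _ = _ := by ring
  · intro M hM1 hM2
    have h1 : |θ * t * RR y z N| ≤ |RR y z (N + 8) - θ * t * RR y z N| + |RR y z (N + 8)| := by
      have := abs_sub_abs_le_abs_sub (θ * t * RR y z N) (RR y z (N + 8))
      rw [abs_sub_comm] at this
      linarith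
    rw [abs_mul, abs_of_nonneg (mul_nonneg hθ0 ht0)] at h1
    have h2 : θ * (((1 - 1 / 2 ^ 100) * (2 / (1 + M ^ 2))) * |RR y z N|) ≤
        θ * t * |RR y z N| := by
      rw [mul_assoc θ t]
      exact mul_le_mul_of_nonneg_left
        (mul_le_mul_of_nonneg_right (hM M hM1 hM2) (abs_nonneg _)) hθ0
    have h3 : θ * (((1 - 1 / 2 ^ 100) * (2 / (1 + M ^ 2)) - 1 / 2 ^ 100) * |RR y z N| -
          8 * lam y z N) = θ * (((1 - 1 / 2 ^ 100) * (2 / (1 + M ^ 2))) * |RR y z N|) -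
          θ * (8 * lam y z N + 1 / 2 ^ 100 * |RR y z N|) := by ring
    rw [h3]
    linarith

theorem sixteen_q : (16 : ℝ) ^ K * q ^ 4 ≤ 1 := by
  have e : (16 : ℝ) ^ K * q ^ 4 = (2 ^ K * q) ^ 4 := by
    rw [mul_pow, ← pow_mul, mul_comm K 4, pow_mul]
    norm_num
  rw [e]
  exact pow_le_one₀ (mul_nonneg (by positivity) q_pos.le) Seven.two_K_q

theorem nine_q (j : ℕ) (hj : j ≤ 11 + K) : (9 : ℝ) ^ j * q ^ 39 ≤ 1 := by
  have h1 : (9 : ℝ) ^ j ≤ 9 ^ (11 + K) := pow_le_pow_right₀ (by norm_num) hj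
  have h2 : (9 : ℝ) ^ (11 + K) = 9 ^ 11 * 9 ^ K := pow_add _ _ _
  have h3 : (9 : ℝ) ^ K ≤ 16 ^ K := pow_le_pow_left₀ (by norm_num) (by norm_num) K
  have h4 := sixteen_q
  have h5 : (9 : ℝ) ^ 11 * q ^ 35 ≤ 1 := by
    have := qn_le' 35
    norm_num at this ⊢
    linarith
  have h6 : q ^ 39 = q ^ 35 * q ^ 4 := by rw [← pow_add]
  have p4 := qn_pos 4
  have p35 := qn_pos 35
  calc (9 : ℝ) ^ j * q ^ 39 ≤ (9 ^ 11 * 16 ^ K) * (q ^ 35 * q ^ 4) := by
        rw [h6]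
        refine mul_le_mul_of_nonneg_right ?_ (by positivity)
        rw [h2] at h1
        exact h1.trans (mul_le_mul_of_nonneg_left h3 (by positivity))
    _ = (9 ^ 11 * q ^ 35) * (16 ^ K * q ^ 4) := by ring
    _ ≤ 1 * 1 := mul_le_mul h5 h4 (by positivity) (by norm_num)
    _ = 1 := one_mul _

/-- `q^140 * 9^j ≤ q^101` for `j ≤ 11 + K` -/
theorem nine_q' (j : ℕ) (hj : j ≤ 11 + K) : q ^ 140 * (9 : ℝ) ^ j ≤ q ^ 101 := by
  have h := nine_q j hj
  have h6 : q ^ 140 = q ^ 101 * q ^ 39 := by rw [← pow_add]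
  calc q ^ 140 * (9 : ℝ) ^ j = q ^ 101 * ((9 : ℝ) ^ j * q ^ 39) := by rw [h6]; ring
    _ ≤ q ^ 101 * 1 := mul_le_mul_of_nonneg_left h (qn_pos _).le
    _ = q ^ 101 := mul_one _

theorem q101 : q ^ 101 ≤ 1 / 2 ^ 101 := qn_le' 101

end St8aux

open St8aux in
theorem st8 (_h3 : St3) (_h4 : St4) (h5 : St5) (h6 : St6) (h7 : St7) : St8 := by
  intro y z hy hz N Ly Lz
  obtain ⟨cy, Ly', y1, y2, y3⟩ := h7 y hy N Ly
  obtain ⟨cz, Lz', z1, z2, z3⟩ := h7 z hz N Lz
  obtain ⟨hl1, t, ht0, htlow, htup, hR1⟩ := h6 y z hy hz N Ly Lz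
  obtain ⟨R, hR⟩ : ∃ R : ℝ, R = |RR y z N| := ⟨_, rfl⟩
  obtain ⟨L, hL⟩ : ∃ L : ℝ, L = lam y z N := ⟨_, rfl⟩
  have hR0 : 0 ≤ R := by rw [hR]; exact abs_nonneg _
  have hL0 : 0 ≤ L := by rw [hL]; exact lam_nonneg _ _ _
  obtain ⟨a, ha⟩ : ∃ a : ℕ → ℝ, a = fun j => |RR y z (N + 1 + 8 * j)| := ⟨_, rfl⟩
  obtain ⟨l, hl⟩ : ∃ l : ℕ → ℝ, l = fun j => lam y z (N + 1 + 8 * j) := ⟨_, rfl⟩
  have ha0 : ∀ j, 0 ≤ a j := fun j => by rw [ha]; exact abs_nonneg _
  have hl0 : ∀ j, 0 ≤ l j := fun j => by rw [hl]; exact lam_nonneg _ _ _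
  -- steps of type i
  have hstep : ∀ j : ℕ, 1 ≤ j → j ≤ 11 + K → l (j + 1) ≤ q ^ 140 * (a j + l j) ∧
      ∃ θ : ℝ, 0 ≤ θ ∧ θ ≤ 1 ∧
      min (th y (N + 1 + 8 * j + 10)) (th z (N + 1 + 8 * j + 10)) ≤ θ ∧
      θ ≤ max (th y (N + 1 + 8 * j + 10)) (th z (N + 1 + 8 * j + 10)) ∧
      a (j + 1) ≤ θ * ((2 + 1 / 2 ^ 100) * a j + 8 * l j) ∧
      ∀ M : ℝ, U y (N + 1 + 8 * j) ≤ M → U z (N + 1 + 8 * j) ≤ M →
        θ * (((1 - 1 / 2 ^ 100) * (2 / (1 + M ^ 2)) - 1 / 2 ^ 100) * a j - 8 * l j) ≤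
          a (j + 1) := by
    intro j hj1 hj2
    have h := one h5 hy hz (N + 1 + 8 * j) (cy j hj1 hj2).1 (cz j hj1 hj2).1
      (cy j hj1 hj2).2.1 (cz j hj1 hj2).2.1
    have e : N + 1 + 8 * (j + 1) = N + 1 + 8 * j + 8 := by ring
    rw [ha, hl]
    simp only [e]
    exact h
  have hup : ∀ j : ℕ, 1 ≤ j → j ≤ 11 + K → a (j + 1) ≤ (2 + 1 / 2 ^ 100) * a j + 8 * l j := by
    intro j hj1 hj2
    obtain ⟨-, θ, h0, h1, -, -, h2, -⟩ := hstep j hj1 hj2
    have h3 : 0 ≤ (2 + 1 / 2 ^ 100) * a j + 8 * l j := by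
      have := ha0 j
      have := hl0 j
      positivity
    exact h2.trans (mul_le_of_le_one_left h3 h1)
  have hlsq : ∀ j : ℕ, 1 ≤ j → j ≤ 11 + K → l (j + 1) ≤ q ^ 140 * (a j + l j) :=
    fun j hj1 hj2 => (hstep j hj1 hj2).1
  have hls : ∀ j : ℕ, 1 ≤ j → j ≤ 11 + K → l (j + 1) ≤ 1 / 2 ^ 140 * (a j + l j) :=
    fun j hj1 hj2 => (hlsq j hj1 hj2).trans
      (mul_le_mul_of_nonneg_right (qn_le' 140) (add_nonneg (ha0 j) (hl0 j)))
  -- first step
  have ha1 : a 1 = |RR y z (N + 9)| := by rw [ha]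
  have hRL0 : 0 ≤ R + L := by linarith
  have hl1q : l 1 ≤ q ^ 140 * (R + L) := by
    rw [hl, hR, hL]
    exact hl1
  have hl1' : l 1 ≤ 1 / 2 ^ 140 * (R + L) :=
    hl1q.trans (mul_le_mul_of_nonneg_right (qn_le' 140) hRL0)
  have hqR : q ^ 100 * R ≤ 1 / 2 ^ 100 * R := mul_le_mul_of_nonneg_right (qn_le' 100) hR0
  rw [← hR, ← hL] at hR1
  have hfuq : a 1 ≤ t * R + (8 * L + q ^ 100 * R) := by
    have h1 := abs_add_le (RR y z (N + 9) - t * RR y z N) (t * RR y z N)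
    rw [sub_add_cancel, abs_mul, abs_of_nonneg ht0, ← hR] at h1
    rw [ha1]
    linarith
  have hfu : a 1 ≤ t * R + (8 * L + 1 / 2 ^ 100 * R) := by linarith
  have hfl : t * R - (8 * L + 1 / 2 ^ 100 * R) ≤ a 1 := by
    have h1 := abs_sub_abs_le_abs_sub (t * RR y z N) (RR y z (N + 9))
    rw [abs_sub_comm, abs_mul, abs_of_nonneg ht0, ← hR] at h1
    rw [ha1]
    linarith
  have hWpos : ∀ x : ℕ → ℝ, IsSol x → 0 ≤ W x N := by
    intro x hx
    unfold W U
    have h1 := hx.pos (N + 2)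
    have h2 := B_pos
    positivity
  have ht3 : t ≤ (1 + 1 / 2 ^ 100) * 2 := by
    have h1 := htup 0 le_rfl (hWpos y hy) (hWpos z hz)
    norm_num at h1 ⊢
    linarith
  have hS1 : a 1 + l 1 ≤ 9 * (R + L) := by
    have h1 : t * R ≤ (1 + 1 / 2 ^ 100) * 2 * R := mul_le_mul_of_nonneg_right ht3 hR0
    norm_num at hfu hl1' h1 ⊢
    linarith
  -- growth of the sums
  have hS : ∀ j : ℕ, 1 ≤ j → j ≤ 12 + K → a j + l j ≤ 9 ^ j * (R + L) := by
    intro j hj1
    induction j, hj1 using Nat.le_induction with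
    | base => intro _; simpa using hS1
    | succ j hj1 ih =>
      intro hj2
      have h1 := ih (by omega)
      have h2 := hup j hj1 (by omega)
      have h3 := hls j hj1 (by omega)
      have h4 := ha0 j
      have h5 := hl0 j
      have h6 : (9 : ℝ) ^ (j + 1) * (R + L) = 9 * (9 ^ j * (R + L)) := by ring
      rw [h6]
      norm_num at h2 h3 ⊢
      linarith
  have hS11 := hS (11 + K) (by omega) (by omega)
  have e12 : a (12 + K) = |RR y z (N + P)| := by
    have e : N + 1 + 8 * (12 + K) = N + P := by unfold P; ring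
    rw [ha]
    simp only [e]
  have el12 : l (12 + K) = lam y z (N + P) := by
    have e : N + 1 + 8 * (12 + K) = N + P := by unfold P; ring
    rw [hl]
    simp only [e]
  rw [← e12, ← el12, ← hR, ← hL]
  have e11 : 12 + K = 11 + K + 1 := by ring
  refine ⟨?_, ?_, ?_, ?_⟩
  · -- (A)
    have h1 := hlsq (11 + K) (by omega) le_rfl
    rw [e11]
    calc l (11 + K + 1) ≤ q ^ 140 * (a (11 + K) + l (11 + K)) := h1
      _ ≤ q ^ 140 * (9 ^ (11 + K) * (R + L)) := mul_le_mul_of_nonneg_left hS11 (qn_pos _).le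
      _ = (q ^ 140 * 9 ^ (11 + K)) * (R + L) := by ring
      _ ≤ q ^ 101 * (R + L) := mul_le_mul_of_nonneg_right (nine_q' _ le_rfl) hRL0
      _ ≤ q ^ 100 * (R + L) := mul_le_mul_of_nonneg_right (qn_anti (by norm_num)) hRL0
  · -- (B)
    intro wy wz
    obtain ⟨-, θ, h0, h1, -, h2, h3, -⟩ := hstep (11 + K) (by omega) le_rfl
    have eI : N + 1 + 8 * (11 + K) + 10 = N + P + 2 := by unfold P; ring
    rw [eI] at h2
    have h4 : θ ≤ q ^ 150 :=
      h2.trans (max_le (th_le hy _ (y1 wy)) (th_le hz _ (z1 wz)))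
    have h7 := ha0 (11 + K)
    have h8 := hl0 (11 + K)
    have h5 : (2 + 1 / 2 ^ 100) * a (11 + K) + 8 * l (11 + K) ≤
        9 * (9 ^ (11 + K) * (R + L)) := by
      norm_num at hS11 ⊢
      linarith
    have h50 : 0 ≤ (2 + 1 / 2 ^ 100) * a (11 + K) + 8 * l (11 + K) := by positivity
    have h9 := nine_q (11 + K) le_rfl
    have h10 : q ^ 150 = q ^ 111 * q ^ 39 := by rw [← pow_add]
    have h11 := qn_le' 111
    rw [e11]
    calc a (11 + K + 1) ≤ θ * ((2 + 1 / 2 ^ 100) * a (11 + K) + 8 * l (11 + K)) := h3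
      _ ≤ q ^ 150 * (9 * (9 ^ (11 + K) * (R + L))) := mul_le_mul h4 h5 h50 (qn_pos _).le
      _ = 9 * q ^ 111 * (9 ^ (11 + K) * q ^ 39) * (R + L) := by rw [h10]; ring
      _ ≤ 9 * (1 / 2 ^ 111) * 1 * (R + L) := by
          have p1 := qn_pos 111
          refine mul_le_mul_of_nonneg_right ?_ hRL0
          refine mul_le_mul (by linarith) h9 ?_ (by positivity)
          exact mul_nonneg (by positivity) (qn_pos _).le
      _ ≤ 1 / 2 ^ 100 * (R + L) := mul_le_mul_of_nonneg_right (by norm_num) hRL0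
  · -- (C)
    intro wy wz
    have h1 := htup (1024 * 2 ^ K) (by positivity) wy wz
    have hP : ∀ j : ℕ, 1 ≤ j → j ≤ 12 + K →
        a j + 8 * l j ≤ (2 + 2 / 2 ^ 100) ^ (j - 1) * (a 1 + 8 * l 1) := by
      intro j hj1
      induction j, hj1 using Nat.le_induction with
      | base => intro _; simp
      | succ j hj1 ih =>
        intro hj2
        have g1 := ih (by omega)
        have g2 := hup j hj1 (by omega)
        have g3 := hls j hj1 (by omega)
        have g4 := ha0 j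
        have g5 := hl0 j
        obtain ⟨j', rfl⟩ : ∃ j', j = j' + 1 := ⟨j - 1, by omega⟩
        have g6 : (2 + 2 / 2 ^ 100 : ℝ) ^ (j' + 1 + 1 - 1) * (a 1 + 8 * l 1) =
            (2 + 2 / 2 ^ 100) * ((2 + 2 / 2 ^ 100) ^ (j' + 1 - 1) * (a 1 + 8 * l 1)) := by
          rw [Nat.add_sub_cancel, Nat.add_sub_cancel, pow_succ]
          ring
        rw [g6]
        refine le_trans ?_ (mul_le_mul_of_nonneg_left g1 (by positivity))
        norm_num at g2 g3 ⊢
        linarith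
    have h3 := hP (12 + K) (by omega) le_rfl
    have e13 : 12 + K - 1 = 11 + K := by omega
    rw [e13] at h3
    obtain ⟨F, hF⟩ : ∃ F : ℝ, F = 4 ^ K := ⟨_, rfl⟩
    have hF1 : 1 ≤ F := by rw [hF]; exact one_le_pow₀ (by norm_num)
    obtain ⟨G, hG⟩ : ∃ G : ℝ, G = (2 + 2 / 2 ^ 100) ^ K := ⟨_, rfl⟩
    have hG1 : G ≤ F := by
      rw [hG, hF]
      exact pow_le_pow_left₀ (by positivity) (by norm_num) K
    have hG0 : 0 < G := by rw [hG]; positivity
    have h4 : (2 + 2 / 2 ^ 100 : ℝ) ^ (11 + K) ≤ 2050 * G := by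
      rw [pow_add, ← hG]
      exact mul_le_mul_of_nonneg_right (by norm_num) hG0.le
    have h5 : 0 ≤ a 1 + 8 * l 1 := by
      have := ha0 1
      have := hl0 1
      positivity
    have h6 := h3.trans (mul_le_mul_of_nonneg_right h4 h5)
    have h7 := hl0 (12 + K)
    -- the coefficient `t`
    have eT : (1024 * 2 ^ K : ℝ) ^ 2 = 1048576 * F := by
      have : ((2 : ℝ) ^ K) ^ 2 = 4 ^ K := by
        rw [← pow_mul, mul_comm K 2, pow_mul]
        norm_num
      rw [mul_pow, this, hF]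
      norm_num
    rw [eT] at h1
    have hF0 : 0 < F := by linarith
    have ht' : t * F ≤ (1 + 1 / 2 ^ 100) * 2 / 1048576 := by
      have g1 : (2 : ℝ) / (1 + 1048576 * F) ≤ 2 / (1048576 * F) :=
        div_le_div_of_nonneg_left (by norm_num) (by positivity) (by linarith)
      have g2 : t ≤ (1 + 1 / 2 ^ 100) * (2 / (1048576 * F)) :=
        h1.trans (mul_le_mul_of_nonneg_left g1 (by norm_num))
      calc t * F ≤ ((1 + 1 / 2 ^ 100) * (2 / (1048576 * F))) * F :=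
            mul_le_mul_of_nonneg_right g2 hF0.le
        _ = (1 + 1 / 2 ^ 100) * 2 / 1048576 := by field_simp
    have htG : G * (t * R) ≤ ((1 + 1 / 2 ^ 100) * 2 / 1048576) * R := by
      have g1 : t * G ≤ t * F := mul_le_mul_of_nonneg_left hG1 ht0
      calc G * (t * R) = (t * G) * R := by ring
        _ ≤ ((1 + 1 / 2 ^ 100) * 2 / 1048576) * R :=
            mul_le_mul_of_nonneg_right (g1.trans ht') hR0
    have hFq : F * q ^ 4 ≤ 1 := by
      have g1 : F ≤ 16 ^ K := by rw [hF]; exact pow_le_pow_left₀ (by norm_num) (by norm_num) K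
      have g2 := mul_le_mul_of_nonneg_right g1 (qn_pos 4).le
      exact g2.trans sixteen_q
    have hGq : ∀ n : ℕ, G * q ^ (n + 4) ≤ 1 / 2 ^ n := by
      intro n
      have g1 : G * q ^ 4 ≤ 1 := (mul_le_mul_of_nonneg_right hG1 (qn_pos 4).le).trans hFq
      calc G * q ^ (n + 4) = q ^ n * (G * q ^ 4) := by rw [pow_add]; ring
        _ ≤ q ^ n * 1 := mul_le_mul_of_nonneg_left g1 (qn_pos n).le
        _ ≤ 1 / 2 ^ n := by rw [mul_one]; exact qn_le' n
    have hq1 : G * (q ^ 100 * R) ≤ 1 / 2 ^ 96 * R := by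
      have := mul_le_mul_of_nonneg_right (hGq 96) hR0
      linarith
    have hq2 : G * (8 * (q ^ 140 * (R + L))) ≤ 8 * (1 / 2 ^ 136 * (R + L)) := by
      have := mul_le_mul_of_nonneg_right (hGq 136) hRL0
      linarith
    have hGL : G * L ≤ F * L := mul_le_mul_of_nonneg_right hG1 hL0
    have hLF : L ≤ F * L := by
      have := mul_le_mul_of_nonneg_right hF1 hL0
      linarith
    have h8 : G * (a 1 + 8 * l 1) ≤ ((1 + 1 / 2 ^ 100) * 2 / 1048576) * R + 8 * (F * L) +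
        1 / 2 ^ 96 * R + 8 * (1 / 2 ^ 136 * (R + L)) := by
      have g1 : a 1 + 8 * l 1 ≤ t * R + 8 * L + q ^ 100 * R + 8 * (q ^ 140 * (R + L)) := by
        linarith
      have g2 := mul_le_mul_of_nonneg_left g1 hG0.le
      have g3 : G * (t * R + 8 * L + q ^ 100 * R + 8 * (q ^ 140 * (R + L))) =
          G * (t * R) + 8 * (G * L) + G * (q ^ 100 * R) + G * (8 * (q ^ 140 * (R + L))) := by
        ring
      rw [g3] at g2
      linarith
    have h9 : a (12 + K) ≤ 2050 * (G * (a 1 + 8 * l 1)) := by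
      calc a (12 + K) ≤ a (12 + K) + 8 * l (12 + K) := by linarith
        _ ≤ 2050 * G * (a 1 + 8 * l 1) := h6
        _ = 2050 * (G * (a 1 + 8 * l 1)) := by ring
    rw [← hF]
    have h10 : (2 : ℝ) ^ 15 * F * L = 32768 * (F * L) := by norm_num; ring
    rw [h10]
    clear h6 h3 h4 hG hF ht' htG hq1 hq2 h1
    norm_num at h8 ⊢
    linarith
  · -- (D)
    intro wy wz wy' wz'
    obtain ⟨uy1, uyj⟩ := y3 wy
    obtain ⟨uz1, uzj⟩ := z3 wz
    -- lam is tiny
    have hlt : ∀ j : ℕ, 1 ≤ j → j ≤ 11 + K → 8 * l j ≤ 1 / 2 ^ 97 * (R + L) := by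
      intro j hj1 hj2
      rcases Nat.eq_or_lt_of_le hj1 with h | h
      · rw [← h]
        have : 0 ≤ R + L := by linarith
        norm_num at hl1' ⊢
        linarith
      · obtain ⟨j', rfl⟩ : ∃ j', j = j' + 1 := ⟨j - 1, by omega⟩
        have g1 := hlsq j' (by omega) (by omega)
        have g2 := hS j' (by omega) (by omega)
        have g3 := nine_q' j' (by omega)
        have g4 : l (j' + 1) ≤ 1 / 2 ^ 101 * (R + L) := by
          calc l (j' + 1) ≤ q ^ 140 * (a j' + l j') := g1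
            _ ≤ q ^ 140 * (9 ^ j' * (R + L)) := mul_le_mul_of_nonneg_left g2 (qn_pos _).le
            _ = (q ^ 140 * 9 ^ j') * (R + L) := by ring
            _ ≤ q ^ 101 * (R + L) := mul_le_mul_of_nonneg_right g3 hRL0
            _ ≤ 1 / 2 ^ 101 * (R + L) := mul_le_mul_of_nonneg_right q101 hRL0
        norm_num at g4 ⊢
        linarith
    have ht39 : 39 / 100 + 1 / 2 ^ 100 ≤ t := by
      have h1 := htlow 2 wy.le wz.le
      norm_num at h1 ⊢
      linarith
    have f1 : 39 / 100 * R - 8 * L ≤ a 1 := by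
      have h1 : (39 / 100 + 1 / 2 ^ 100) * R ≤ t * R := mul_le_mul_of_nonneg_right ht39 hR0
      linarith
    -- lower bounds
    have hθ : ∀ j : ℕ, 1 ≤ j → j ≤ 10 + K → ∀ θ : ℝ,
        min (th y (N + 1 + 8 * j + 10)) (th z (N + 1 + 8 * j + 10)) ≤ θ →
        1 - 1 / 2 ^ 100 ≤ θ := by
      intro j hj1 hj2 θ h
      refine le_trans (le_min ?_ ?_) h
      · exact th_big hy (N + 1 + 8 * (j + 1)) (cy (j + 1) (by omega) (by omega)).2.1
      · exact th_big hz (N + 1 + 8 * (j + 1)) (cz (j + 1) (by omega) (by omega)).2.1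
    have f2 : 119 / 100 * a 1 - 1 / 2 ^ 97 * (R + L) ≤ a 2 := by
      obtain ⟨-, θ, h0, h1, h2, -, -, h3⟩ := hstep 1 (by omega) (by omega)
      have h4 := h3 (81 / 100) uy1 uz1
      have h5 := hθ 1 (by omega) (by omega) θ h2
      have h6 := hlt 1 (by omega) (by omega)
      have h7 := ha0 1
      have h8 : θ * (8 * l 1) ≤ 8 * l 1 := mul_le_of_le_one_left (by have := hl0 1; positivity) h1
      have h9 : (1 - 1 / 2 ^ 100) * (((1 - 1 / 2 ^ 100) * (2 / (1 + (81 / 100 : ℝ) ^ 2)) -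
          1 / 2 ^ 100) * a 1) ≤ θ * (((1 - 1 / 2 ^ 100) * (2 / (1 + (81 / 100 : ℝ) ^ 2)) -
          1 / 2 ^ 100) * a 1) :=
        mul_le_mul_of_nonneg_right h5 (mul_nonneg (by norm_num) h7)
      rw [mul_sub] at h4
      norm_num at h4 h6 h8 h9 ⊢
      linarith
    have fj : ∀ j : ℕ, 2 ≤ j → j ≤ 10 + K → 17 / 10 * a j - 1 / 2 ^ 97 * (R + L) ≤ a (j + 1) := by
      intro j hj1 hj2
      obtain ⟨-, θ, h0, h1, h2, -, -, h3⟩ := hstep j (by omega) (by omega)
      have h4 := h3 (2 / 5) (uyj j hj1 (by omega)) (uzj j hj1 (by omega))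
      have h5 := hθ j (by omega) (by omega) θ h2
      have h6 := hlt j (by omega) (by omega)
      have h7 := ha0 j
      have h8 : θ * (8 * l j) ≤ 8 * l j := mul_le_of_le_one_left (by have := hl0 j; positivity) h1
      have h9 : (1 - 1 / 2 ^ 100) * (((1 - 1 / 2 ^ 100) * (2 / (1 + (2 / 5 : ℝ) ^ 2)) -
          1 / 2 ^ 100) * a j) ≤ θ * (((1 - 1 / 2 ^ 100) * (2 / (1 + (2 / 5 : ℝ) ^ 2)) -
          1 / 2 ^ 100) * a j) :=
        mul_le_mul_of_nonneg_right h5 (mul_nonneg (by norm_num) h7)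
      rw [mul_sub] at h4
      norm_num at h4 h6 h8 h9 ⊢
      linarith
    have f12 : 34 / 100 * a (11 + K) - 1 / 2 ^ 97 * (R + L) ≤ a (11 + K + 1) := by
      obtain ⟨-, θ, h0, h1, h2, -, -, h3⟩ := hstep (11 + K) (by omega) le_rfl
      have h4 := h3 (2 / 5) (uyj (11 + K) (by omega) le_rfl) (uzj (11 + K) (by omega) le_rfl)
      have eI : N + 1 + 8 * (11 + K) + 10 = N + P + 2 := by unfold P; ring
      rw [eI] at h2
      have h5 : 1 / 5 ≤ θ := by
        refine le_trans (le_min ?_ ?_) h2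
        · exact th_fifth hy (N + P) wy'
        · exact th_fifth hz (N + P) wz'
      have h6 := hlt (11 + K) (by omega) le_rfl
      have h7 := ha0 (11 + K)
      have h8 : θ * (8 * l (11 + K)) ≤ 8 * l (11 + K) :=
        mul_le_of_le_one_left (by have := hl0 (11 + K); positivity) h1
      have h9 : 1 / 5 * (((1 - 1 / 2 ^ 100) * (2 / (1 + (2 / 5 : ℝ) ^ 2)) -
          1 / 2 ^ 100) * a (11 + K)) ≤ θ * (((1 - 1 / 2 ^ 100) * (2 / (1 + (2 / 5 : ℝ) ^ 2)) -
          1 / 2 ^ 100) * a (11 + K)) :=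
        mul_le_mul_of_nonneg_right h5 (mul_nonneg (by norm_num) h7)
      rw [mul_sub] at h4
      norm_num at h4 h6 h8 h9 ⊢
      linarith
    have g3 := fj 2 (by omega) (by omega)
    have g4 := fj 3 (by omega) (by omega)
    have g5 := fj 4 (by omega) (by omega)
    have g6 := fj 5 (by omega) (by omega)
    have g7 := fj 6 (by omega) (by omega)
    have g8 := fj 7 (by omega) (by omega)
    have g9 := fj 8 (by omega) (by omega)
    have g10 := fj 9 (by omega) (by omega)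
    have g11 := fj 10 (by omega) (by omega)
    have gb : 50 * R - 2 ^ 14 * L ≤ a 11 := by
      norm_num at f1 f2 g3 g4 g5 g6 g7 g8 g9 g10 g11 ⊢
      linarith
    have gi : ∀ i : ℕ, i ≤ K → 50 * R - 2 ^ 14 * 4 ^ i * L ≤ a (11 + i) := by
      intro i
      induction i with
      | zero => intro _; simpa using gb
      | succ i ih =>
        intro hi
        have k1 := ih (by omega)
        have k2 := fj (11 + i) (by omega) (by omega)
        have k3 : 11 + (i + 1) = 11 + i + 1 := by ring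
        have k4 : (2 : ℝ) ^ 14 * 4 ^ (i + 1) * L = 65536 * (4 ^ i * L) := by ring
        have k5 : (2 : ℝ) ^ 14 * 4 ^ i * L = 16384 * (4 ^ i * L) := by ring
        have k6 : L ≤ 4 ^ i * L := by
          have : (1 : ℝ) ≤ 4 ^ i := one_le_pow₀ (by norm_num)
          have := mul_le_mul_of_nonneg_right this hL0
          linarith
        rw [k3, k4]
        rw [k5] at k1
        norm_num at k1 k2 ⊢
        linarith
    have gK := gi K le_rfl
    have k4 : (2 : ℝ) ^ 15 * 4 ^ K * L = 32768 * (4 ^ K * L) := by ring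
    have k5 : (2 : ℝ) ^ 14 * 4 ^ K * L = 16384 * (4 ^ K * L) := by ring
    have k6 : L ≤ 4 ^ K * L := by
      have : (1 : ℝ) ≤ 4 ^ K := one_le_pow₀ (by norm_num)
      have := mul_le_mul_of_nonneg_right this hL0
      linarith
    rw [e11, k4]
    rw [k5] at gK
    norm_num at gK f12 ⊢
    linarith


end Pool.Agent.H61.RRk
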