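import Pool.Agent.H61.RRk.Defs

/-! MP_7a141f_an with parameters: every deep section leads to a loopable one
(after `Pool.Graph.R_seed8.R676.RR.St9`). -/

set_option linter.unusedSectionVars false

namespace Pool.Agent.H61.RRk

open Filter Topology

variable [Par]

namespace Nine

lemma eps_pos : (0 : ℝ) < q ^ 1100 := qn_pos _

lemma eps_le : q ^ 1250 ≤ q ^ 1100 := qn_anti (by norm_num)

lemma B_le9 : B ≤ 1 / 100 * q ^ 1100 := by
  have h1 : 100 * q ^ (1100 + 7) ≤ q ^ 1100 := qn_mul_le 1100 7 (by norm_num)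
  have h2 := B_le
  have h3 : q ^ 1664 ≤ q ^ (1100 + 7) := qn_anti (by norm_num)
  linarith

lemma tau_le9 : tau ≤ 1 / 100 := tau_le.trans (by norm_num)

lemma f_le (x : ℝ) (hx : 0 ≤ x) : f x ≤ x / 2 := by
  unfold f
  rw [div_le_div_iff₀ (by positivity) (by norm_num)]
  nlinarith [sq_nonneg (x - 1), mul_nonneg hx (sq_nonneg (x - 1))]

lemma step (h3 : St3) (y : ℕ → ℝ) (hy : IsSol y) (N : ℕ) (hN : Deep y N)
    (hU : q ^ 1100 < U y N) : Deep y (N + 8) ∧ U y (N + 8) ≤ 3 / 4 * U y N := by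
  obtain ⟨-, -, -, -, -, h6, -, h8⟩ := h3 y hy N hN (eps_le.trans hU.le)
  refine ⟨h6, ?_⟩
  have hU0 : 0 ≤ U y N := eps_pos.le.trans hU.le
  have h1 := f_le (U y N) hU0
  have h2 := B_le9
  have h3 := tau_le9
  have h4 := tau_pos.le
  have h5 : U y (N + 8) = B + y (N + 10) := rfl
  rw [h5]
  have h7 : (1 + tau) * f (U y N) ≤ (1 + 1 / 100) * (U y N / 2) :=
    mul_le_mul (by linarith) h1 (by unfold f; positivity) (by norm_num)
  have h9 : 1 / 100 * q ^ 1100 ≤ 1 / 100 * U y N :=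
    mul_le_mul_of_nonneg_left hU.le (by norm_num)
  linarith

end Nine

open Nine

/-- St9 -/
theorem st9 (h3 : St3) : St9 := by
  intro y hy N hN
  by_contra hcon
  push Not at hcon
  have key : ∀ k : ℕ, Deep y (N + 8 * k) ∧ U y (N + 8 * k) ≤ (3 / 4) ^ k * U y N := by
    intro k
    induction k with
    | zero => exact ⟨hN, by simp⟩
    | succ k ih =>
      have hgt : q ^ 1100 < U y (N + 8 * k) := by
        by_contra hle
        exact hcon _ ⟨ih.1, not_lt.mp hle⟩
      obtain ⟨h1, h2⟩ := step h3 y hy _ ih.1 hgt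
      have e : N + 8 * k + 8 = N + 8 * (k + 1) := by ring
      rw [e] at h1 h2
      refine ⟨h1, h2.trans ?_⟩
      rw [pow_succ]
      linarith [ih.2]
  have hU0 : 0 < U y N := by
    have : 0 < y (N + 2) := hy.pos _
    have := B_pos
    unfold U
    linarith
  obtain ⟨k, hk⟩ := exists_pow_lt_of_lt_one (div_pos eps_pos hU0)
    (show (3 / 4 : ℝ) < 1 by norm_num)
  rw [lt_div_iff₀ hU0] at hk
  exact hcon _ ⟨(key k).1, (key k).2.trans hk.le⟩


end Pool.Agent.H61.RRk
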