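import Mathlib

/-!
The recurrence y(n+3) = (B + y(n+2)) / (B + y n) with
`2^(-1800 * 2^k) ≤ B ≤ 2^(-1664 * 2^k)` (problem MP_7a141f_an).
Basic definitions, and the statements of the pieces.

This is a version with parameters `(k, B)` of the library development
`Pool.Graph.R_seed8.R993.RR` (and its companions), which treats `B = 2^(-1664)`.
-/

namespace Pool.Agent.H61.RRk

open Filter Topology

/-- The parameters: a natural number `k` and a real number `b` with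
`2^(-1800 * 2^k) ≤ b ≤ 2^(-1664 * 2^k)`. -/
class Par where
  k : ℕ
  b : ℝ
  lo : 1 / 2 ^ (1800 * 2 ^ k) ≤ b
  hi : b ≤ 1 / 2 ^ (1664 * 2 ^ k)

variable [Par]

/-- The parameter `B`. -/
noncomputable def B : ℝ := Par.b

/-- The scale `2 ^ (-2^k)`. -/
noncomputable def q : ℝ := 1 / 2 ^ (2 ^ Par.k)

/-- The number of additional cycles. -/
def K : ℕ := Par.k

/-- The period. -/
def P : ℕ := 97 + 8 * K

theorem q_pos : 0 < q := by unfold q; positivity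

theorem q_pow (n : ℕ) : q ^ n = 1 / 2 ^ (n * 2 ^ Par.k) := by
  unfold q
  rw [div_pow, one_pow, ← pow_mul, mul_comm]

theorem q_le : q ≤ 1 / 2 := by
  unfold q
  apply one_div_le_one_div_of_le (by norm_num)
  calc (2 : ℝ) = 2 ^ 1 := by norm_num
    _ ≤ 2 ^ (2 ^ Par.k) := pow_le_pow_right₀ (by norm_num) Nat.one_le_two_pow

theorem qn_pos (n : ℕ) : 0 < q ^ n := pow_pos q_pos n

theorem qn_le (n : ℕ) : q ^ n ≤ (1 / 2) ^ n := pow_le_pow_left₀ q_pos.le q_le n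

theorem qn_le' (n : ℕ) : q ^ n ≤ 1 / 2 ^ n := by
  have := qn_le n
  rwa [div_pow, one_pow] at this

theorem qn_le_one (n : ℕ) : q ^ n ≤ 1 := pow_le_one₀ q_pos.le (by linarith [q_le])

theorem qn_anti {m n : ℕ} (h : m ≤ n) : q ^ n ≤ q ^ m :=
  pow_le_pow_of_le_one q_pos.le (by linarith [q_le]) h

/-- `c * q^(n+m) ≤ q^n` when `c ≤ 2^m` -/
theorem qn_mul_le {c : ℝ} (n m : ℕ) (hc : c ≤ 2 ^ m) : c * q ^ (n + m) ≤ q ^ n := by
  have h1 := qn_le' m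
  have h2 := qn_pos n
  have h3 : c * q ^ m ≤ 1 := by
    calc c * q ^ m ≤ 2 ^ m * (1 / 2 ^ m) := mul_le_mul hc h1 (qn_pos m).le (by positivity)
      _ = 1 := by rw [mul_one_div]; exact div_self (by positivity)
  calc c * q ^ (n + m) = q ^ n * (c * q ^ m) := by rw [pow_add]; ring
    _ ≤ q ^ n * 1 := mul_le_mul_of_nonneg_left h3 h2.le
    _ = q ^ n := mul_one _

theorem B_le : B ≤ q ^ 1664 := by
  rw [q_pow]
  exact Par.hi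

theorem B_ge : q ^ 1800 ≤ B := by
  rw [q_pow]
  exact Par.lo

theorem B_pos : 0 < B := lt_of_lt_of_le (qn_pos _) B_ge

/-- Positive solutions. -/
structure IsSol (y : ℕ → ℝ) : Prop where
  pos : ∀ n, 0 < y n
  step : ∀ n, y (n + 3) = (B + y (n + 2)) / (B + y n)

/-- `N` is a deep section of `y`. -/
def Deep (y : ℕ → ℝ) (N : ℕ) : Prop :=
  y N ≤ B * q ^ 200 ∧ y (N + 1) ≤ B * q ^ 200 ∧ y (N + 2) ≤ 2

noncomputable def U (y : ℕ → ℝ) (N : ℕ) : ℝ := B + y (N + 2)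

noncomputable def W (y : ℕ → ℝ) (N : ℕ) : ℝ := U y N / B

noncomputable def f (x : ℝ) : ℝ := x ^ 2 / (1 + x ^ 2)

noncomputable def tau : ℝ := q ^ 150

def Loopable (y : ℕ → ℝ) (N : ℕ) : Prop := Deep y N ∧ U y N ≤ q ^ 1100

noncomputable def th (y : ℕ → ℝ) (n : ℕ) : ℝ := y n / (B + y n)

noncomputable def rho (y z : ℕ → ℝ) (n : ℕ) : ℝ := Real.log (B + z n) - Real.log (B + y n)

noncomputable def lam (y z : ℕ → ℝ) (N : ℕ) : ℝ := |rho y z N| + |rho y z (N + 1)|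

noncomputable def RR (y z : ℕ → ℝ) (N : ℕ) : ℝ := rho y z (N + 2)

omit [Par] in
theorem IsSol.shift [Par] {y : ℕ → ℝ} (h : IsSol y) (k : ℕ) : IsSol (fun n => y (n + k)) := by
  refine ⟨fun n => h.pos _, fun n => ?_⟩
  have e := h.step (n + k)
  have a : n + 3 + k = n + k + 3 := by omega
  have b : n + 2 + k = n + k + 2 := by omega
  simp only [a, b]
  exact e

theorem tau_pos : 0 < tau := qn_pos _

theorem tau_le : tau ≤ 1 / 2 ^ 150 := qn_le' _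

/-! ### Statements -/

/-- log-difference step with an intermediate coefficient -/
def StT : Prop := ∀ y z : ℕ → ℝ, IsSol y → IsSol z → ∀ n : ℕ, ∃ θ : ℝ,
  min (th y (n + 3)) (th z (n + 3)) ≤ θ ∧ θ ≤ max (th y (n + 3)) (th z (n + 3)) ∧
    rho y z (n + 3) = θ * (rho y z (n + 2) - rho y z n)

/-- solutions staying above `64 B` converge to `1` -/
def St1 : Prop := ∀ y : ℕ → ℝ, IsSol y → (∀ n, 64 * B ≤ y n) → Tendsto y atTop (𝓝 1)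

/-- a small value leads to a deep section -/
def St2 : Prop := ∀ y : ℕ → ℝ, IsSol y → y 2 < 64 * B → ∃ N, Deep y N

/-- type i cycle, 8 steps -/
def St3 : Prop := ∀ y : ℕ → ℝ, IsSol y → ∀ N : ℕ, Deep y N → q ^ 1250 ≤ U y N →
  1 - tau ≤ th y (N + 3) ∧ 1 - tau ≤ th y (N + 4) ∧ 1 - tau ≤ th y (N + 5) ∧
  1 - tau ≤ th y (N + 6) ∧ (1 - tau) / (1 + U y N ^ 2) ≤ th y (N + 7) ∧
  Deep y (N + 8) ∧
  (1 - tau) * f (U y N) ≤ y (N + 10) ∧ y (N + 10) ≤ (1 + tau) * f (U y N)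

/-- type ii cycle, 9 steps -/
def St4 : Prop := ∀ y : ℕ → ℝ, IsSol y → ∀ N : ℕ, Loopable y N →
  1 - tau ≤ th y (N + 3) ∧ 1 - tau ≤ th y (N + 4) ∧ 1 - tau ≤ th y (N + 5) ∧
  1 - tau ≤ th y (N + 6) ∧ 1 - tau ≤ th y (N + 7) ∧
  (1 - tau) / (1 + W y N ^ 2) ≤ th y (N + 8) ∧ th y (N + 8) ≤ (1 + tau) / (1 + W y N ^ 2) ∧
  Deep y (N + 9) ∧ 1 - tau ≤ th y (N + 11) ∧
  (1 - tau) * f (W y N) ≤ y (N + 11) ∧ y (N + 11) ≤ (1 + tau) * f (W y N)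

/-- variation over a type i cycle -/
def St5 : Prop := ∀ y z : ℕ → ℝ, IsSol y → IsSol z → ∀ N : ℕ, Deep y N → Deep z N →
  q ^ 1250 ≤ U y N → q ^ 1250 ≤ U z N →
  lam y z (N + 8) ≤ q ^ 140 * (|RR y z N| + lam y z N) ∧
  ∃ t θ : ℝ, 0 ≤ t ∧ t ≤ 2 ∧
    (∀ M : ℝ, U y N ≤ M → U z N ≤ M → (1 - 1 / 2 ^ 100) * (2 / (1 + M ^ 2)) ≤ t) ∧
    min (th y (N + 10)) (th z (N + 10)) ≤ θ ∧ θ ≤ max (th y (N + 10)) (th z (N + 10)) ∧
    |RR y z (N + 8) - θ * t * RR y z N| ≤ θ * (8 * lam y z N + 1 / 2 ^ 100 * |RR y z N|)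

/-- variation over a type ii cycle -/
def St6 : Prop := ∀ y z : ℕ → ℝ, IsSol y → IsSol z → ∀ N : ℕ, Loopable y N → Loopable z N →
  lam y z (N + 9) ≤ q ^ 140 * (|RR y z N| + lam y z N) ∧
  ∃ t : ℝ, 0 ≤ t ∧
    (∀ M : ℝ, W y N ≤ M → W z N ≤ M → (1 - 1 / 2 ^ 100) * (2 / (1 + M ^ 2)) ≤ t) ∧
    (∀ M : ℝ, 0 ≤ M → M ≤ W y N → M ≤ W z N → t ≤ (1 + 1 / 2 ^ 100) * (2 / (1 + M ^ 2))) ∧
    |RR y z (N + 9) - t * RR y z N| ≤ 8 * lam y z N + q ^ 100 * |RR y z N|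

/-- the chain of cycles in one loop of `P` steps -/
def St7 : Prop := ∀ y : ℕ → ℝ, IsSol y → ∀ N : ℕ, Loopable y N →
  (∀ j : ℕ, 1 ≤ j → j ≤ 11 + K → Deep y (N + 1 + 8 * j) ∧
    q ^ 1250 ≤ U y (N + 1 + 8 * j) ∧ U y (N + 1 + 8 * j) ≤ 2) ∧
  Loopable y (N + P) ∧
  (W y N ≤ 5 / 4 → y (N + P + 2) ≤ B * q ^ 150) ∧
  (2 ≤ W y N → 1024 * 2 ^ K ≤ W y (N + P)) ∧
  (W y N < 2 → U y (N + 9) ≤ 81 / 100 ∧
    ∀ j : ℕ, 2 ≤ j → j ≤ 11 + K → U y (N + 1 + 8 * j) ≤ 2 / 5)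

/-- variation over one loop -/
def St8 : Prop := ∀ y z : ℕ → ℝ, IsSol y → IsSol z → ∀ N : ℕ, Loopable y N → Loopable z N →
  lam y z (N + P) ≤ q ^ 100 * (|RR y z N| + lam y z N) ∧
  (W y N ≤ 5 / 4 → W z N ≤ 5 / 4 →
    |RR y z (N + P)| ≤ 1 / 2 ^ 100 * (|RR y z N| + lam y z N)) ∧
  (1024 * 2 ^ K ≤ W y N → 1024 * 2 ^ K ≤ W z N →
    |RR y z (N + P)| ≤ 1 / 2 ^ 7 * |RR y z N| + 2 ^ 15 * 4 ^ K * lam y z N) ∧
  (W y N < 2 → W z N < 2 → 5 / 4 ≤ W y (N + P) → 5 / 4 ≤ W z (N + P) →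
    5 * |RR y z N| - 2 ^ 15 * 4 ^ K * lam y z N ≤ |RR y z (N + P)|)

/-- every deep section leads to a loopable one -/
def St9 : Prop := ∀ y : ℕ → ℝ, IsSol y → ∀ N : ℕ, Deep y N → ∃ N', Loopable y N'

/-- geometric decay of the difference with the shift by `P` -/
def St10a : Prop := ∀ y : ℕ → ℝ, IsSol y → ∀ N : ℕ, Loopable y N →
  ∃ C r : ℝ, 0 < r ∧ r < 1 ∧ ∀ n, |rho y (fun k => y (k + P)) n| ≤ C * r ^ n

/-- from geometric decay to a periodic limit -/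
def St10b : Prop := ∀ y : ℕ → ℝ, IsSol y →
  (∃ C r : ℝ, 0 < r ∧ r < 1 ∧ ∀ n, |rho y (fun k => y (k + P)) n| ≤ C * r ^ n) →
  ∃ p : ℕ → ℝ, IsSol p ∧ (∀ n, p (n + P) = p n) ∧ Tendsto (fun n => y n - p n) atTop (𝓝 0)

end Pool.Agent.H61.RRk
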