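import Pool.Agent.H61.RRk.A
import Pool.Agent.H61.RRk.B4
import Pool.Agent.H61.RRk.C5
import Pool.Agent.H61.RRk.C6
import Pool.Agent.H61.RRk.C7
import Pool.Agent.H61.RRk.C8
import Pool.Agent.H61.RRk.C9
import Pool.Agent.H61.RRk.C10a
import Pool.Agent.H61.RRk.C10b

/-! MP_7a141f_an with parameters: all pieces together. -/

set_option autoImplicit false
set_option linter.unusedSectionVars false

namespace Pool.Agent.H61.RRk

open Filter Topology

section

variable [Par]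

theorem final (y : ℕ → ℝ) (hy : IsSol y) :
    Tendsto y atTop (𝓝 1) ∨ ∃ p : ℕ → ℝ, IsSol p ∧ (∀ n, p (n + P) = p n) ∧
      Tendsto (fun n => y n - p n) atTop (𝓝 0) := by
  have h7 : St7 := st7 st3 st4
  have h5 : St5 := st5 stT st3
  have h6 : St6 := st6 stT st4
  have h8 : St8 := st8 st3 st4 h5 h6 h7
  by_cases hc : ∀ n, 64 * B ≤ y (n + 2)
  · left
    have := st1 (fun n => y (n + 2)) (hy.shift 2) hc
    exact (tendsto_add_atTop_iff_nat 2).1 this
  · right
    push Not at hc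
    obtain ⟨n, hn⟩ := hc
    have hs : IsSol (fun k => y (k + n)) := hy.shift n
    have hn' : (fun k => y (k + n)) 2 < 64 * B := by
      show y (2 + n) < 64 * B
      rw [Nat.add_comm 2 n]; exact hn
    obtain ⟨N, hN⟩ := st2 _ hs hn'
    have hD : Deep y (N + n) := by
      unfold Deep at hN ⊢
      obtain ⟨a, b, c⟩ := hN
      refine ⟨a, ?_, ?_⟩
      · have e : N + 1 + n = N + n + 1 := by omega
        simp only [e] at b; exact b
      · have e : N + 2 + n = N + n + 2 := by omega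
        simp only [e] at c; exact c
    obtain ⟨N', hL⟩ := st9 st3 y hy _ hD
    exact st10b y hy (st10a stT h7 h8 y hy N' hL)

end

theorem main (k : ℕ) (B : ℝ) (h1 : 1 / 2 ^ (1800 * 2 ^ k) ≤ B) (h2 : B ≤ 1 / 2 ^ (1664 * 2 ^ k))
    (y : ℕ → ℝ) (hp : ∀ n, 0 < y n) (hs : ∀ n, y (n + 3) = (B + y (n + 2)) / (B + y n)) :
    Tendsto y atTop (𝓝 1) ∨
      ∃ p : ℕ → ℝ, (∀ n, 0 < p n) ∧ (∀ n, p (n + 3) = (B + p (n + 2)) / (B + p n)) ∧
        (∀ n, p (n + (97 + 8 * k)) = p n) ∧ Tendsto (fun n => |y n - p n|) atTop (𝓝 0) := by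
  letI I : Par := ⟨k, B, h1, h2⟩
  rcases final y ⟨hp, hs⟩ with h | ⟨p, hpS, hper, ht⟩
  · exact Or.inl h
  · refine Or.inr ⟨p, hpS.pos, hpS.step, hper, ?_⟩
    have := ht.abs
    simpa using this

end Pool.Agent.H61.RRk
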